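import Mathlib

/-!
# Definitions for MP_cc45c1_ag (regular functions on the cotangent bundle of `M̄_{0,n}`)

`n = m + 3`.  The marked points of the generic curve are `t_0, …, t_{m-1}, 0, 1, ∞`; the function
field of `M̄_{0,n}` is `ℂ(t_0, …, t_{m-1})`.  The cross ratios of the quadruples of marked points
embed `M̄_{0,n}` in a product of projective lines, as the closure of `M_{0,n}`; `chart m S` is the
coordinate ring of the affine chart of this closure where the cross ratios of the quadruples in
`S` and the inverses of the other ones are regular.  `Reg m` is the ring `R_{0,n}`.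
-/

set_option autoImplicit false

open MvPolynomial

namespace M0n

noncomputable section

/-- The field of rational functions on `M̄_{0,n}`, `n = m + 3`. -/
abbrev Fld (m : ℕ) : Type := FractionRing (MvPolynomial (Fin m) ℂ)

variable {m : ℕ}

/-- The coordinate `t_i`, a rational function on `M̄_{0,n}`. -/
def t (i : Fin m) : Fld m := algebraMap (MvPolynomial (Fin m) ℂ) (Fld m) (X i)

/-- The marked points `t_0, …, t_{m-1}, 0, 1, ∞` in homogeneous coordinates. -/
def pt : Fin m ⊕ Fin 3 → Fld m × Fld m :=
  Sum.elim (fun i => (t i, 1)) ![(0, 1), (1, 1), (1, 0)]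

/-- The determinant of two marked points. -/
def br (a b : Fin m ⊕ Fin 3) : Fld m := (pt a).1 * (pt b).2 - (pt b).1 * (pt a).2

/-- The cross ratio of four distinct marked points. -/
def cr (q : Fin 4 ↪ Fin m ⊕ Fin 3) : Fld m :=
  br (q 0) (q 2) * br (q 1) (q 3) / (br (q 0) (q 3) * br (q 1) (q 2))

/-- The coordinate ring of the affine chart of `M̄_{0,n}` given by a set `S` of quadruples. -/
def chart (m : ℕ) (S : Set (Fin 4 ↪ Fin m ⊕ Fin 3)) : Subalgebra ℂ (Fld m) :=
  Algebra.adjoin ℂ (cr '' S ∪ (fun q => (cr q)⁻¹) '' Sᶜ)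

/-- The homomorphism `a ↦ a + ε ∂a/∂t_i` to the dual numbers. -/
def dual (i : Fin m) : MvPolynomial (Fin m) ℂ →ₐ[ℂ] TrivSqZeroExt (Fld m) (Fld m) :=
  aeval fun j => TrivSqZeroExt.inl (t j) + TrivSqZeroExt.inr (if j = i then 1 else 0)

theorem fst_dual (i : Fin m) (a : MvPolynomial (Fin m) ℂ) :
    (dual i a).fst = algebraMap _ (Fld m) a := by
  have h : (TrivSqZeroExt.fstHom ℂ (Fld m) (Fld m)).comp (dual i) =
      IsScalarTower.toAlgHom ℂ (MvPolynomial (Fin m) ℂ) (Fld m) := by
    ext j
    simp only [dual, t, AlgHom.coe_comp, Function.comp_apply, aeval_X, TrivSqZeroExt.fstHom_apply,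
      TrivSqZeroExt.fst_add, TrivSqZeroExt.fst_inl, TrivSqZeroExt.fst_inr, add_zero]
    rfl
  exact DFunLike.congr_fun h a

theorem isUnit_dual (i : Fin m) (a : nonZeroDivisors (MvPolynomial (Fin m) ℂ)) :
    IsUnit (dual i a) := by
  rw [TrivSqZeroExt.isUnit_iff_isUnit_fst, fst_dual]
  exact (IsLocalization.map_units (Fld m) a)

/-- The homomorphism `g ↦ g + ε ∂g/∂t_i` on rational functions. -/
def dualK (i : Fin m) : Fld m →ₐ[ℂ] TrivSqZeroExt (Fld m) (Fld m) :=
  IsLocalization.liftAlgHom (M := nonZeroDivisors (MvPolynomial (Fin m) ℂ)) (f := dual i)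
    (isUnit_dual i)

theorem dualK_algebraMap (i : Fin m) (a : MvPolynomial (Fin m) ℂ) :
    dualK i (algebraMap _ (Fld m) a) = dual i a := by
  rw [dualK, IsLocalization.liftAlgHom_apply]
  exact IsLocalization.lift_eq _ a

theorem fst_dualK (i : Fin m) (g : Fld m) : (dualK i g).fst = g := by
  have h : (TrivSqZeroExt.fstHom ℂ (Fld m) (Fld m)).comp (dualK i) = AlgHom.id ℂ (Fld m) := by
    apply IsLocalization.algHom_ext (nonZeroDivisors (MvPolynomial (Fin m) ℂ))
    ext j
    show (dualK i (algebraMap _ (Fld m) (X j))).fst = _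
    rw [dualK_algebraMap, fst_dual]
    rfl
  exact DFunLike.congr_fun h g

/-- The derivation `∂/∂t_i` of the field of rational functions. -/
def pd (i : Fin m) : Derivation ℂ (Fld m) (Fld m) where
  toFun g := (dualK i g).snd
  map_add' a b := by simp
  map_smul' c a := by simp
  map_one_eq_zero' := by simp
  leibniz' a b := by
    simp [fst_dualK, mul_comm]

theorem pd_t (i j : Fin m) : pd i (t j) = if j = i then 1 else 0 := by
  show (dualK i (t j)).snd = _
  rw [t, dualK_algebraMap, dual, aeval_X, TrivSqZeroExt.snd_add, TrivSqZeroExt.snd_inl,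
    TrivSqZeroExt.snd_inr, zero_add]

/-- The ring `R_{0,n} = O(T^* M̄_{0,n})`: the polynomials `f` in `m` variables (the fibre
coordinates of the cotangent bundle, dual to `dt_i`) with coefficients in the function field which
take a regular value `f(dg)` at the differential of every regular function `g`, on every affine
chart of `M̄_{0,n}`. -/
def Reg (m : ℕ) : Subalgebra ℂ (MvPolynomial (Fin m) (Fld m)) where
  carrier := {f | ∀ S, ∀ g ∈ chart m S, eval (fun i => pd i g) f ∈ chart m S}
  mul_mem' {a b} ha hb S g hg := by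
    rw [map_mul]
    exact mul_mem (ha S g hg) (hb S g hg)
  add_mem' {a b} ha hb S g hg := by
    rw [map_add]
    exact add_mem (ha S g hg) (hb S g hg)
  algebraMap_mem' c S g hg := by
    rw [MvPolynomial.algebraMap_apply]
    simp only [eval_C]
    exact (chart m S).algebraMap_mem c

end

end M0n
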