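import Pool.Agent.M0n.Poly

/-!
# MP_cc45c1_ag: the arcs `t_i ↦ c + r^{±1} (t_i - c)`, `i ∈ I`
-/

set_option autoImplicit false

open MvPolynomial

namespace M0n

noncomputable section

variable {m : ℕ}

/-- The exponent of the parameter `r` of the arc. -/
def dl (I : Finset (Fin m)) (δ : ℤ) (i : Fin m) : ℤ := if i ∈ I then δ else 0

theorem prod_single {ι : Type*} (S : Finset ι) (a : ι → ℤ) (x : ι → Fld m) :
    ∏ i ∈ S, HahnSeries.single (a i) (x i) =
      (HahnSeries.single (∑ i ∈ S, a i) (∏ i ∈ S, x i) : HahnSeries ℤ (Fld m)) := by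
  classical
  induction S using Finset.induction_on with
  | empty => rfl
  | insert i S hi ih =>
    rw [Finset.prod_insert hi, ih, HahnSeries.single_mul_single, Finset.sum_insert hi,
      Finset.prod_insert hi]

theorem coeff_sum_single {ι : Type*} (S : Finset ι) (a : ι → ℤ) (x : ι → Fld m) (n : ℤ) :
    (∑ i ∈ S, HahnSeries.single (a i) (x i) : HahnSeries ℤ (Fld m)).coeff n =
      ∑ i ∈ S with a i = n, x i := by
  rw [HahnSeries.coeff_sum, Finset.sum_filter]
  refine Finset.sum_congr rfl fun i _ => ?_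
  rw [HahnSeries.coeff_single]
  by_cases h : a i = n
  · simp [h]
  · rw [if_neg h, if_neg (fun h' => h h'.symm)]

/-- The constants. -/
def cst (m : ℕ) : ℂ →+* HahnSeries ℤ (Fld m) := HahnSeries.C.comp (algebraMap ℂ (Fld m))

theorem cst_apply (a : ℂ) : cst m a = HahnSeries.single 0 (algebraMap ℂ (Fld m) a) := rfl

/-- The arc in the coordinates `t_i - c`. -/
def arcS (c : ℂ) (I : Finset (Fin m)) (δ : ℤ) :
    MvPolynomial (Fin m) ℂ →+* HahnSeries ℤ (Fld m) :=
  eval₂Hom (cst m) fun i => HahnSeries.single (dl I δ i) (s c i)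

theorem arcS_apply (c : ℂ) (I : Finset (Fin m)) (δ : ℤ) (Q : MvPolynomial (Fin m) ℂ) :
    arcS c I δ Q = ∑ β ∈ Q.support, HahnSeries.single (∑ i, (β i : ℤ) * dl I δ i)
      (algebraMap ℂ (Fld m) (coeff β Q) * ∏ i, s c i ^ β i) := by
  conv_lhs => rw [arcS, Q.as_sum, map_sum]
  refine Finset.sum_congr rfl fun β _ => ?_
  rw [coe_eval₂Hom, eval₂_monomial, Finsupp.prod_fintype _ _ (fun i => pow_zero _)]
  simp only [HahnSeries.single_pow]
  rw [prod_single, cst_apply, HahnSeries.single_mul_single, zero_add]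
  simp only [nsmul_eq_mul]

theorem arcS_injective (c : ℂ) (I : Finset (Fin m)) (δ : ℤ) :
    Function.Injective (arcS (m := m) c I δ) := by
  classical
  rw [injective_iff_map_eq_zero]
  intro Q hQ
  ext β
  rw [coeff_zero]
  by_contra hβ
  have h1 := congrArg (fun e => HahnSeries.coeff e (∑ i, (β i : ℤ) * dl I δ i)) hQ
  simp only [arcS_apply, coeff_sum_single, HahnSeries.coeff_zero] at h1
  let Q' : MvPolynomial (Fin m) ℂ := ∑ γ ∈ Q.support with
    (∑ i, (γ i : ℤ) * dl I δ i) = (∑ i, (β i : ℤ) * dl I δ i), monomial γ (coeff γ Q)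
  have h2 : aeval (s c) Q' = 0 := by
    rw [← h1, map_sum]
    refine Finset.sum_congr rfl fun γ _ => ?_
    rw [aeval_monomial, Finsupp.prod_fintype _ _ (fun i => pow_zero _)]
  have h3 : Q' = 0 := aeval_s_injective c (by rw [h2, map_zero])
  have h4 : coeff β Q' = coeff β Q := by
    simp only [Q', coeff_sum, coeff_monomial]
    rw [Finset.sum_ite_eq']
    simp [hβ]
  rw [h3, coeff_zero] at h4
  exact hβ h4.symm

theorem trans_injective (c : ℂ) :
    Function.Injective (aeval fun i => X i + C c : MvPolynomial (Fin m) ℂ →ₐ[ℂ] _) := by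
  apply Function.LeftInverse.injective (g := aeval fun i => X i - C c)
  intro a
  have h2 : ((aeval fun i => X i - C c : MvPolynomial (Fin m) ℂ →ₐ[ℂ] _).comp
      (aeval fun i => X i + C c)) = AlgHom.id ℂ (MvPolynomial (Fin m) ℂ) := by
    ext1 i
    simp
  exact DFunLike.congr_fun h2 a

/-- The arc on polynomials in `t`. -/
def arc0 (c : ℂ) (I : Finset (Fin m)) (δ : ℤ) :
    MvPolynomial (Fin m) ℂ →+* HahnSeries ℤ (Fld m) :=
  (arcS c I δ).comp (aeval fun i => X i + C c : MvPolynomial (Fin m) ℂ →ₐ[ℂ] _).toRingHom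

theorem arc0_injective (c : ℂ) (I : Finset (Fin m)) (δ : ℤ) :
    Function.Injective (arc0 (m := m) c I δ) :=
  (arcS_injective c I δ).comp (trans_injective c)

theorem isUnit_arc0 (c : ℂ) (I : Finset (Fin m)) (δ : ℤ)
    (a : nonZeroDivisors (MvPolynomial (Fin m) ℂ)) : IsUnit (arc0 c I δ a) := by
  have h0 : arc0 c I δ a ≠ 0 := by
    intro h
    have h1 := (injective_iff_map_eq_zero _).mp (arc0_injective c I δ) _ h
    exact nonZeroDivisors.coe_ne_zero a h1
  rw [HahnSeries.isUnit_iff, isUnit_iff_ne_zero]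
  exact HahnSeries.leadingCoeff_ne_zero.mpr h0

/-- The arc `t_i ↦ c + r^δ (t_i - c)`, `i ∈ I`. -/
def arc (c : ℂ) (I : Finset (Fin m)) (δ : ℤ) : Fld m →+* HahnSeries ℤ (Fld m) :=
  IsLocalization.lift (M := nonZeroDivisors (MvPolynomial (Fin m) ℂ)) (isUnit_arc0 c I δ)

theorem arc_algebraMap (c : ℂ) (I : Finset (Fin m)) (δ : ℤ) (a : MvPolynomial (Fin m) ℂ) :
    arc c I δ (algebraMap (MvPolynomial (Fin m) ℂ) (Fld m) a) = arc0 c I δ a :=
  IsLocalization.lift_eq _ a

theorem arc_const (c : ℂ) (I : Finset (Fin m)) (δ : ℤ) (a : ℂ) :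
    arc c I δ (algebraMap ℂ (Fld m) a) = HahnSeries.single 0 (algebraMap ℂ (Fld m) a) := by
  have h1 : algebraMap ℂ (Fld m) a = algebraMap (MvPolynomial (Fin m) ℂ) (Fld m) (C a) := rfl
  conv_lhs => rw [h1, arc_algebraMap]
  rw [arc0, RingHom.comp_apply, arcS]
  simp
  rfl

theorem arc_s (c : ℂ) (I : Finset (Fin m)) (δ : ℤ) (i : Fin m) :
    arc c I δ (s c i) = HahnSeries.single (dl I δ i) (s c i) := by
  have h1 : s c i = algebraMap (MvPolynomial (Fin m) ℂ) (Fld m) (X i - C c) := by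
    rw [map_sub]
    rfl
  conv_lhs => rw [h1, arc_algebraMap]
  rw [arc0, RingHom.comp_apply, arcS]
  simp

theorem arc_s_zpow (c : ℂ) (I : Finset (Fin m)) (δ : ℤ) (i : Fin m) (n : ℤ) :
    arc c I δ (s c i ^ n) = HahnSeries.single (n * dl I δ i) (s c i ^ n) := by
  rw [map_zpow₀, arc_s]
  rcases n with n | n
  · simp only [Int.ofNat_eq_natCast, zpow_natCast]
    rw [HahnSeries.single_pow]
    simp
  · rw [zpow_negSucc, zpow_negSucc, HahnSeries.single_pow, HahnSeries.inv_single]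
    congr 1
    rw [Int.negSucc_eq, nsmul_eq_mul]
    have h1 : -(((n + 1 : ℕ) : ℤ) * dl I δ i) = (-↑(n + 1 : ℕ) : ℤ) * dl I δ i := by ring
    push_cast at h1
    rw [Nat.cast_add, Nat.cast_one, h1]

/-- The valuation ring of the arc. -/
def ring (c : ℂ) (I : Finset (Fin m)) (δ : ℤ) : Subalgebra ℂ (Fld m) where
  carrier := {x | 0 ≤ (arc c I δ x).orderTop}
  mul_mem' {a b} ha hb := by
    simp only [Set.mem_ofPred_eq] at ha hb ⊢
    rw [map_mul, HahnSeries.orderTop_mul]
    exact add_nonneg ha hb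
  add_mem' {a b} ha hb := by
    simp only [Set.mem_ofPred_eq] at ha hb ⊢
    rw [map_add]
    exact (le_min ha hb).trans HahnSeries.min_orderTop_le_orderTop_add
  algebraMap_mem' c' := by
    simp only [Set.mem_ofPred_eq]
    rw [arc_const]
    exact HahnSeries.orderTop_single_le

theorem mem_ring {c : ℂ} {I : Finset (Fin m)} {δ : ℤ} {x : Fld m} :
    x ∈ ring c I δ ↔ 0 ≤ (arc c I δ x).orderTop := Iff.rfl

theorem ring_mem_or (c : ℂ) (I : Finset (Fin m)) (δ : ℤ) (x : Fld m) :
    x ∈ ring c I δ ∨ x⁻¹ ∈ ring c I δ := by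
  by_cases hx : x = 0
  · left
    rw [hx]
    exact zero_mem _
  have h1 : (arc c I δ x).orderTop + (arc c I δ x⁻¹).orderTop = 0 := by
    rw [← HahnSeries.orderTop_mul, ← map_mul, mul_inv_cancel₀ hx, map_one, HahnSeries.orderTop_one]
  rw [mem_ring, mem_ring]
  by_contra hn
  push Not at hn
  generalize (arc c I δ x).orderTop = a at *
  generalize (arc c I δ x⁻¹).orderTop = b at *
  induction a with
  | top => simp at hn
  | coe a =>
    induction b with
    | top => simp at hn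
    | coe b =>
      norm_cast at h1 hn
      omega

theorem zpow_mem_ring (c : ℂ) (I : Finset (Fin m)) (δ : ℤ) (i : Fin m) (n : ℤ)
    (h : 0 ≤ n * dl I δ i) : s c i ^ n ∈ ring c I δ := by
  rw [mem_ring, arc_s_zpow]
  refine le_trans ?_ HahnSeries.orderTop_single_le
  exact_mod_cast h

end

end M0n
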