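import Pool.Agent.M0n.Defs

/-!
# MP_cc45c1_ag: evaluation of the tensors of `Reg m` in a valuation ring
-/

set_option autoImplicit false

open MvPolynomial

namespace M0n

noncomputable section

/-- A polynomial family in a vector space over `ℂ` with values in a subspace has its coefficients
in the subspace. -/
theorem vf {σ V : Type*} [Fintype σ] [AddCommGroup V] [Module ℂ V] (O : Submodule ℂ V)
    (s : Finset (σ →₀ ℕ)) (v : (σ →₀ ℕ) → V)
    (h : ∀ a : σ → ℂ, ∑ α ∈ s, (∏ i, a i ^ α i) • v α ∈ O) : ∀ α ∈ s, v α ∈ O := by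
  classical
  intro α hα
  by_contra hn
  obtain ⟨φ, hφ, hO⟩ := O.exists_le_ker_of_notMem hn
  let P : MvPolynomial σ ℂ := ∑ α ∈ s, monomial α (φ (v α))
  have hP : P = 0 := by
    apply MvPolynomial.funext
    intro a
    have h1 : eval a P = φ (∑ α ∈ s, (∏ i, a i ^ α i) • v α) := by
      simp only [P, map_sum, eval_monomial, map_smul, smul_eq_mul]
      refine Finset.sum_congr rfl fun α _ => ?_
      rw [mul_comm, Finsupp.prod_fintype _ _ (fun i => pow_zero _)]
    rw [h1, map_zero]
    exact hO (h a)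
  have h2 : coeff α P = φ (v α) := by
    simp only [P, coeff_sum, coeff_monomial]
    rw [Finset.sum_ite_eq' s α]
    simp [hα]
  rw [hP, coeff_zero] at h2
  exact hφ h2.symm

/-- The algebra generated by the cross ratios in `O`. -/
def gens {m : ℕ} (O : Subalgebra ℂ (Fld m)) : Subalgebra ℂ (Fld m) :=
  Algebra.adjoin ℂ (cr '' {q | cr q ∈ O})

variable {m : ℕ} {O : Subalgebra ℂ (Fld m)}

theorem reg_eval (hO : ∀ x : Fld m, x ∈ O ∨ x⁻¹ ∈ O) {f : MvPolynomial (Fin m) (Fld m)}
    (hf : f ∈ Reg m) {g : Fld m} (hg : g ∈ gens O) : eval (fun i => pd i g) f ∈ O := by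
  have h1 : g ∈ chart m {q | cr q ∈ O} :=
    Algebra.adjoin_mono Set.subset_union_left hg
  have h2 : chart m {q | cr q ∈ O} ≤ O := by
    apply Algebra.adjoin_le
    rintro x (⟨q, hq, rfl⟩ | ⟨q, hq, rfl⟩)
    · exact hq
    · exact (hO (cr q)).resolve_left hq
  exact h2 (hf _ g h1)

theorem reg_coeff (hO : ∀ x : Fld m, x ∈ O ∨ x⁻¹ ∈ O) {f : MvPolynomial (Fin m) (Fld m)}
    (hf : f ∈ Reg m) {l : Fin m → Fld m} (hl : ∀ i, l i ∈ gens O) (α : Fin m →₀ ℕ) :
    coeff α (bind₁ (fun k => ∑ i, X i * C (pd k (l i))) f) ∈ O := by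
  classical
  set F : MvPolynomial (Fin m) (Fld m) := bind₁ (fun k => ∑ i, X i * C (pd k (l i))) f with hF
  by_cases hα : α ∈ F.support
  · refine vf (Subalgebra.toSubmodule O) F.support (fun α => coeff α F) ?_ α hα
    intro a
    have h1 : eval (fun i => algebraMap ℂ (Fld m) (a i)) F ∈ O := by
      rw [hF, ← coe_aeval_eq_eval, RingHom.coe_coe, aeval_bind₁]
      have h2 : ∀ k, (aeval fun i => algebraMap ℂ (Fld m) (a i))
          (∑ i, X i * C (pd k (l i)) : MvPolynomial (Fin m) (Fld m)) =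
          pd k (∑ i, a i • l i) := by
        intro k
        rw [map_sum, map_sum]
        refine Finset.sum_congr rfl fun i _ => ?_
        rw [map_mul, aeval_X, Derivation.map_smul, Algebra.smul_def]
        simp
      simp only [h2]
      have h3 := reg_eval hO hf (g := ∑ i, a i • l i)
        (sum_mem fun i _ => (gens O).smul_mem (hl i) (a i))
      rwa [← coe_aeval_eq_eval] at h3
    rw [eval_eq'] at h1
    rw [Subalgebra.mem_toSubmodule]
    have h4 : ∑ α ∈ F.support, (∏ i, a i ^ α i) • coeff α F =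
        ∑ d ∈ F.support, coeff d F * ∏ i, (algebraMap ℂ (Fld m)) (a i) ^ d i := by
      refine Finset.sum_congr rfl fun α _ => ?_
      rw [Algebra.smul_def, map_prod, mul_comm]
      simp only [map_pow]
    rw [h4]
    exact h1
  · rw [notMem_support_iff.mp hα]
    exact zero_mem O

/-- A tensor of `Reg m` takes a value in `O` at a combination, with coefficients in `O`, of
differentials of cross ratios in `O`. -/
theorem reg_eval' (hO : ∀ x : Fld m, x ∈ O ∨ x⁻¹ ∈ O) {f : MvPolynomial (Fin m) (Fld m)}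
    (hf : f ∈ Reg m) {l : Fin m → Fld m} (hl : ∀ i, l i ∈ gens O) {w : Fin m → Fld m}
    (hw : ∀ i, w i ∈ O) : eval (fun k => ∑ i, w i * pd k (l i)) f ∈ O := by
  have h1 : eval (fun k => ∑ i, w i * pd k (l i)) f =
      eval w (bind₁ (fun k => ∑ i, X i * C (pd k (l i))) f) := by
    rw [← coe_aeval_eq_eval w, RingHom.coe_coe, aeval_bind₁, ← coe_aeval_eq_eval,
      RingHom.coe_coe]
    congr 2
    ext k
    rw [map_sum]
    refine Finset.sum_congr rfl fun i _ => ?_
    rw [map_mul, aeval_X]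
    simp
  rw [h1, eval_eq']
  refine sum_mem fun α _ => mul_mem (reg_coeff hO hf hl α) (prod_mem fun i _ => pow_mem (hw i) _)

end

end M0n
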