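import Pool.Agent.M0n.Low

/-!
# MP_cc45c1_ag: the Krull dimensions of `R_{0,4}` and `R_{0,5}`
-/

set_option autoImplicit false

open MvPolynomial

namespace M0n

noncomputable section

theorem le_krull {A B : Type} [CommRing A] [Algebra ℂ A] [CommRing B] [IsDomain B] [Algebra ℂ B]
    (R : Subalgebra ℂ A) (d : ℕ) (φ : Fin (d + 1) → (R →ₐ[ℂ] B))
    (hle : ∀ (i : Fin d) (f : R), φ i.castSucc f = 0 → φ i.succ f = 0)
    (hne : ∀ i : Fin d, ∃ f : R, φ i.succ f = 0 ∧ φ i.castSucc f ≠ 0) :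
    (d : WithBot ℕ∞) ≤ ringKrullDim R := by
  let P : Fin (d + 1) → PrimeSpectrum R := fun i =>
    ⟨RingHom.ker (φ i).toRingHom, RingHom.ker_isPrime _⟩
  have hP : StrictMono P := by
    rw [Fin.strictMono_iff_lt_succ]
    intro i
    refine lt_of_le_of_ne (fun f hf => hle i f hf) ?_
    intro h
    obtain ⟨f, h1, h2⟩ := hne i
    have h3 : f ∈ (P i.succ).asIdeal := h1
    rw [← h] at h3
    exact h2 h3
  exact Order.LTSeries.length_le_krullDim (LTSeries.mk d P hP)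

theorem exists_sep {m : ℕ} {B : Type} [CommRing B] [Algebra ℂ B]
    (σ τ : MvPolynomial (Fin m ⊕ Fin m) ℂ →ₐ[ℂ] B) (G : MvPolynomial (Fin m ⊕ Fin m) ℂ)
    (hG : Lam m G ∈ Reg m) (h1 : τ G = 0) (h2 : σ G ≠ 0) :
    ∃ f : Reg m, (τ.comp (toPoly m)) f = 0 ∧ (σ.comp (toPoly m)) f ≠ 0 := by
  refine ⟨⟨Lam m G, hG⟩, ?_, ?_⟩
  · rw [AlgHom.comp_apply, toPoly_eq]
    exact h1
  · rw [AlgHom.comp_apply, toPoly_eq]
    exact h2

/-- The lower bound given by a chain of substitutions. -/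
theorem le_krull_reg (m : ℕ) (d : ℕ)
    (φ : Fin (d + 1) → (MvPolynomial (Fin m ⊕ Fin m) ℂ →ₐ[ℂ] MvPolynomial (Fin m ⊕ Fin m) ℂ))
    (hle : ∀ i : Fin d, (φ i.succ).comp (φ i.castSucc) = φ i.succ)
    (hne : ∀ i : Fin d, ∃ G, Lam m G ∈ Reg m ∧ φ i.succ G = 0 ∧ φ i.castSucc G ≠ 0) :
    (d : WithBot ℕ∞) ≤ ringKrullDim (Reg m) := by
  refine le_krull (A := MvPolynomial (Fin m) (Fld m)) (B := MvPolynomial (Fin m ⊕ Fin m) ℂ)
    (Reg m) d (fun i => (φ i).comp (toPoly m)) ?_ ?_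
  · intro i f hf
    have h1 : φ i.castSucc (toPoly m f) = 0 := hf
    have h2 := DFunLike.congr_fun (hle i) (toPoly m f)
    rw [AlgHom.comp_apply, h1, map_zero] at h2
    exact h2.symm
  · intro i
    obtain ⟨G, hG, h1, h2⟩ := hne i
    exact exists_sep (φ i.castSucc) (φ i.succ) G hG h1 h2

/-- The substitutions which define the chain of prime ideals of `R_{0,5}`. -/
def sub5 : Fin 5 → (MvPolynomial (Fin 2 ⊕ Fin 2) ℂ →ₐ[ℂ] MvPolynomial (Fin 2 ⊕ Fin 2) ℂ) :=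
  ![AlgHom.id ℂ _,
    aeval (Sum.elim ![X (.inl 0), X (.inl 0)] ![X (.inr 0), X (.inr 1)]),
    aeval (Sum.elim ![C 2, C 2] ![X (.inr 0), X (.inr 1)]),
    aeval (Sum.elim ![C 2, C 2] ![0, X (.inr 1)]),
    aeval (Sum.elim ![C 2, C 2] ![0, 0])]

theorem sub5_comp (i : Fin 4) : (sub5 i.succ).comp (sub5 i.castSucc) = sub5 i.succ := by
  fin_cases i
  · rfl
  · apply algHom_ext
    rintro (k | k) <;> fin_cases k <;> simp [sub5]
  · apply algHom_ext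
    rintro (k | k) <;> fin_cases k <;> simp [sub5]
  · apply algHom_ext
    rintro (k | k) <;> fin_cases k <;> simp [sub5]

/-- The coordinates. -/
abbrev vx : MvPolynomial (Fin 2 ⊕ Fin 2) ℂ := X (.inl 0)
abbrev vy : MvPolynomial (Fin 2 ⊕ Fin 2) ℂ := X (.inl 1)
abbrev vp : MvPolynomial (Fin 2 ⊕ Fin 2) ℂ := X (.inr 0)
abbrev vq : MvPolynomial (Fin 2 ⊕ Fin 2) ℂ := X (.inr 1)

/-- The polynomials of the four quadratic tensors. -/
def Gxy : MvPolynomial (Fin 2 ⊕ Fin 2) ℂ := C 2 * ((vx - vy) ^ 2 * vp * vq)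
def GxI : MvPolynomial (Fin 2 ⊕ Fin 2) ℂ :=
  C 2 * (vx * (vx - 1) * vp ^ 2 + vy * (vy - 1) * vp * vq)
def GyI : MvPolynomial (Fin 2 ⊕ Fin 2) ℂ :=
  C 2 * (vx * (vx - 1) * vp * vq + vy * (vy - 1) * vq ^ 2)
def Gx0 : MvPolynomial (Fin 2 ⊕ Fin 2) ℂ :=
  C 2 * (vx ^ 2 * (vx - 1) * vp ^ 2 + vx ^ 2 * (vy - 1) * vp * vq)

theorem two_alg : (algebraMap ℂ (Fld 2)) 2 = 2 := map_ofNat _ 2

theorem two_C : (C (2 : Fld 2) : MvPolynomial (Fin 2) (Fld 2)) = 2 := map_ofNat C 2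

theorem Lam_Gxy : Lam 2 Gxy = tensor Txy := by
  simp [tensor, Txy, Fin.sum_univ_two, Lam, Gxy]
  try simp only [two_alg, two_C]
  ring

theorem Lam_GxI : Lam 2 GxI = tensor TxI := by
  simp [tensor, TxI, Fin.sum_univ_two, Lam, GxI]
  try simp only [two_alg, two_C]
  ring

theorem Lam_GyI : Lam 2 GyI = tensor TyI := by
  simp [tensor, TyI, Fin.sum_univ_two, Lam, GyI]
  try simp only [two_alg, two_C]
  ring

theorem Lam_Gx0 : Lam 2 Gx0 = tensor Tx0 := by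
  simp [tensor, Tx0, Fin.sum_univ_two, Lam, Gx0]
  try simp only [two_alg, two_C]
  ring

theorem Gxy_mem : Lam 2 Gxy ∈ Reg 2 := by
  rw [Lam_Gxy]
  exact Txy_mem

theorem GxI_mem : Lam 2 GxI ∈ Reg 2 := by
  rw [Lam_GxI]
  exact TxI_mem

theorem GyI_mem : Lam 2 GyI ∈ Reg 2 := by
  rw [Lam_GyI]
  exact TyI_mem

theorem Gx0_mem : Lam 2 Gx0 ∈ Reg 2 := by
  rw [Lam_Gx0]
  exact Tx0_mem


theorem sep5_0 : ∃ G, Lam 2 G ∈ Reg 2 ∧ sub5 1 G = 0 ∧ sub5 0 G ≠ 0 := by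
  refine ⟨Gxy, Gxy_mem, ?_, ?_⟩
  · simp [sub5, Gxy]
  · show Gxy ≠ 0
    intro h
    have := congrArg (eval (Sum.elim ![2, 1] ![1, 1])) h
    simp [Gxy] at this
    norm_num at this

theorem sep5_1 : ∃ G, Lam 2 G ∈ Reg 2 ∧ sub5 2 G = 0 ∧ sub5 1 G ≠ 0 := by
  refine ⟨Gx0 - (GxI + GxI), ?_, ?_, ?_⟩
  · rw [map_sub, map_add]
    exact sub_mem Gx0_mem (add_mem GxI_mem GxI_mem)
  · have h2 : (C 2 : MvPolynomial (Fin 2 ⊕ Fin 2) ℂ) = 2 := rfl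
    simp [sub5, Gx0, GxI]
    rw [h2]
    ring
  · intro h
    have := congrArg (eval (Sum.elim ![3, 3] ![1, 0])) h
    simp [sub5, Gx0, GxI] at this
    norm_num at this

theorem sep5_2 : ∃ G, Lam 2 G ∈ Reg 2 ∧ sub5 3 G = 0 ∧ sub5 2 G ≠ 0 := by
  refine ⟨GxI, GxI_mem, ?_, ?_⟩
  · simp [sub5, GxI]
  · intro h
    have := congrArg (eval (Sum.elim ![3, 3] ![1, 0])) h
    simp [sub5, GxI] at this
    norm_num at this

theorem sep5_3 : ∃ G, Lam 2 G ∈ Reg 2 ∧ sub5 4 G = 0 ∧ sub5 3 G ≠ 0 := by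
  refine ⟨GyI, GyI_mem, ?_, ?_⟩
  · simp [sub5, GyI]
  · intro h
    have := congrArg (eval (Sum.elim ![3, 3] ![1, 1])) h
    simp [sub5, GyI] at this
    norm_num at this

theorem sep5 (i : Fin 4) :
    ∃ G, Lam 2 G ∈ Reg 2 ∧ sub5 i.succ G = 0 ∧ sub5 i.castSucc G ≠ 0 := by
  match i with
  | 0 => exact sep5_0
  | 1 => exact sep5_1
  | 2 => exact sep5_2
  | 3 => exact sep5_3

theorem four_le_krull : (4 : WithBot ℕ∞) ≤ ringKrullDim (Reg 2) :=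
  le_krull_reg 2 4 sub5 sub5_comp sep5

theorem krull_two : ringKrullDim (Reg 2) = 4 :=
  le_antisymm (krull_reg_le 2) four_le_krull

end

end M0n
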