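import Pool.Agent.M0n.Basic

/-!
# MP_cc45c1_ag: cross ratios centered at the marked points `0` and `1`
-/

set_option autoImplicit false

open MvPolynomial

namespace M0n

noncomputable section

variable {m : ℕ}

/-- The coordinate `t_i - c`. -/
def s (c : ℂ) (i : Fin m) : Fld m := t i - algebraMap ℂ (Fld m) c

/-- The marked point with coordinate `c = 0, 1`. -/
def quad {α : Type*} (a b c d : α) (h : [a, b, c, d].Nodup) : Fin 4 ↪ α :=
  ⟨![a, b, c, d], by
    have h' := List.nodup_ofFn.mp (show (List.ofFn ![a, b, c, d]).Nodup by simpa using h)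
    exact h'⟩

theorem cr_quad (a b c d : Fin m ⊕ Fin 3) (h : [a, b, c, d].Nodup) :
    cr (quad a b c d h) = br a c * br b d / (br a d * br b c) := rfl

theorem s_ne_zero (c : ℂ) (i : Fin m) : s c i ≠ 0 := by
  intro h
  have h1 : algebraMap (MvPolynomial (Fin m) ℂ) (Fld m) (X i - C c) = 0 := by
    rw [map_sub]
    exact h
  rw [map_eq_zero_iff _ (IsFractionRing.injective _ _)] at h1
  have h2 := congrArg (eval fun _ => c + 1) h1
  simp at h2

theorem pd_s (c : ℂ) (i j : Fin m) : pd i (s c j) = if j = i then 1 else 0 := by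
  rw [s, map_sub, pd_t, Derivation.map_algebraMap, sub_zero]

theorem mem_gens {O : Subalgebra ℂ (Fld m)} (a b c d : Fin m ⊕ Fin 3) (h : [a, b, c, d].Nodup)
    {x : Fld m} (u : ℂ) (hu : u ≠ 0)
    (hx : br a c * br b d / (br a d * br b c) = algebraMap ℂ (Fld m) u * x) (hO : x ∈ O) :
    x ∈ gens O := by
  have h1 : cr (quad a b c d h) = algebraMap ℂ (Fld m) u * x := by
    rw [cr_quad, hx]
  have h2 : cr (quad a b c d h) ∈ gens O := by
    apply Algebra.subset_adjoin
    refine ⟨_, ?_, rfl⟩
    show cr (quad a b c d h) ∈ O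
    rw [h1]
    exact mul_mem (O.algebraMap_mem u) hO
  have h3 : x = algebraMap ℂ (Fld m) u⁻¹ * cr (quad a b c d h) := by
    rw [h1, ← mul_assoc, ← map_mul, inv_mul_cancel₀ hu, map_one, one_mul]
  rw [h3]
  exact mul_mem ((gens O).algebraMap_mem _) h2

theorem s_mem_gens {O : Subalgebra ℂ (Fld m)} {c : ℂ} (hc : c = 0 ∨ c = 1) {i : Fin m}
    (hO : s c i ∈ O) : s c i ∈ gens O := by
  rcases hc with rfl | rfl
  · refine mem_gens (.inl i) (.inr 1) (.inr 0) (.inr 2) (by simp) 1 one_ne_zero ?_ hO
    simp [br, pt, s]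
  · refine mem_gens (.inl i) (.inr 0) (.inr 1) (.inr 2) (by simp) (-1) (by simp) ?_ hO
    simp [br, pt, s]

theorem s_inv_mem_gens {O : Subalgebra ℂ (Fld m)} {c : ℂ} (hc : c = 0 ∨ c = 1) {i : Fin m}
    (hO : (s c i)⁻¹ ∈ O) : (s c i)⁻¹ ∈ gens O := by
  rcases hc with rfl | rfl
  · refine mem_gens (.inr 1) (.inl i) (.inr 0) (.inr 2) (by simp) 1 one_ne_zero ?_ hO
    simp [br, pt, s]
  · refine mem_gens (.inr 0) (.inl i) (.inr 1) (.inr 2) (by simp) (-1) (by simp) ?_ hO
    simp only [br, pt, s, Sum.elim_inl, Sum.elim_inr]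
    simp
    rw [← inv_neg, neg_sub]

theorem s_div_mem_gens {O : Subalgebra ℂ (Fld m)} {c : ℂ} (hc : c = 0 ∨ c = 1) {i j : Fin m}
    (hij : i ≠ j) (hO : s c i / s c j ∈ O) : s c i / s c j ∈ gens O := by
  rcases hc with rfl | rfl
  · refine mem_gens (.inl i) (.inl j) (.inr 0) (.inr 2) (by simpa using hij) 1 one_ne_zero ?_ hO
    simp [br, pt, s]
  · refine mem_gens (.inl i) (.inl j) (.inr 1) (.inr 2) (by simpa using hij) 1 one_ne_zero ?_ hO
    simp [br, pt, s]
    rw [← neg_sub (t i), ← neg_sub (t j)]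
    exact neg_div_neg_eq _ _

theorem pd_s_zpow (c : ℂ) (i k : Fin m) {δ : ℤ} (hδ : δ = 1 ∨ δ = -1) :
    (δ : Fld m) * pd k (s c i ^ δ) = if i = k then s c i ^ δ / s c i else 0 := by
  have h0 := s_ne_zero c i
  rcases hδ with rfl | rfl
  · simp only [Int.cast_one, one_mul, zpow_one, pd_s]
    split_ifs
    · field_simp
    · rfl
  · rw [zpow_neg_one, Derivation.leibniz_inv, pd_s]
    split_ifs
    · simp
      field_simp
    · simp

theorem pd_s_div (c : ℂ) (i j k : Fin m) (hij : i ≠ j) :
    pd k (s c i / s c j) = (if i = k then (s c j)⁻¹ else 0) -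
      (if j = k then s c i / s c j ^ 2 else 0) := by
  have h0 := s_ne_zero c j
  rw [div_eq_mul_inv, Derivation.leibniz, Derivation.leibniz_inv, pd_s, pd_s]
  split_ifs with h1 h2
  · exact (hij (by simp_all)).elim
  all_goals simp
  all_goals field_simp

theorem reg_arc {O : Subalgebra ℂ (Fld m)} (hO : ∀ x : Fld m, x ∈ O ∨ x⁻¹ ∈ O)
    {f : MvPolynomial (Fin m) (Fld m)} (hf : f ∈ Reg m) {c : ℂ} (hc : c = 0 ∨ c = 1)
    (I : Finset (Fin m)) {i₀ : Fin m} (hi₀ : i₀ ∈ I) {δ : ℤ} (hδ : δ = 1 ∨ δ = -1)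
    (h0 : s c i₀ ^ δ ∈ O) (hI : ∀ i ∈ I, s c i / s c i₀ ∈ O ∧ s c i₀ / s c i ∈ O)
    (hJ : ∀ j, j ∉ I → s c j ∈ O ∧ (s c j)⁻¹ ∈ O) (y : Fin m → ℂ) (h : ℂ) :
    eval (fun k => (if k = i₀ then algebraMap ℂ (Fld m) h * s c i₀ ^ δ -
      ∑ i ∈ I.erase i₀, algebraMap ℂ (Fld m) (y i) else algebraMap ℂ (Fld m) (y k)) / s c k) f
      ∈ O := by
  have hs := s_ne_zero (m := m) c
  let l : Fin m → Fld m := fun i => if i = i₀ then s c i₀ ^ δ else
    if i ∈ I then s c i / s c i₀ else s c i
  let w : Fin m → Fld m := fun i => if i = i₀ then algebraMap ℂ (Fld m) h * δ else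
    if i ∈ I then algebraMap ℂ (Fld m) (y i) * (s c i₀ / s c i) else
      algebraMap ℂ (Fld m) (y i) * (s c i)⁻¹
  have hl : ∀ i, l i ∈ gens O := by
    intro i
    by_cases h1 : i = i₀
    · simp only [l, h1, if_true]
      rcases hδ with rfl | rfl
      · rw [zpow_one] at h0 ⊢
        exact s_mem_gens hc h0
      · rw [zpow_neg_one] at h0 ⊢
        exact s_inv_mem_gens hc h0
    · by_cases h2 : i ∈ I
      · simp only [l, h1, h2, if_true, if_false]
        exact s_div_mem_gens hc h1 (hI i h2).1
      · simp only [l, h1, h2, if_false]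
        exact s_mem_gens hc (hJ i h2).1
  have hw : ∀ i, w i ∈ O := by
    intro i
    by_cases h1 : i = i₀
    · simp only [w, h1, if_true]
      refine mul_mem (O.algebraMap_mem h) ?_
      rw [← map_intCast (algebraMap ℂ (Fld m))]
      exact O.algebraMap_mem _
    · by_cases h2 : i ∈ I
      · simp only [w, h1, h2, if_true, if_false]
        exact mul_mem (O.algebraMap_mem _) (hI i h2).2
      · simp only [w, h1, h2, if_false]
        exact mul_mem (O.algebraMap_mem _) (hJ i h2).2
  have h1 := reg_eval' hO hf hl hw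
  convert h1 using 3
  ext k
  have h2 : ∀ i, w i * pd k (l i) =
      (if i = i₀ then (if i₀ = k then algebraMap ℂ (Fld m) h * s c i₀ ^ δ / s c i₀ else 0)
        else 0) +
      ((if i ∈ I.erase i₀ then (if i₀ = k then - (algebraMap ℂ (Fld m) (y i) / s c i₀) else 0)
        else 0) +
      (if i = k then (if k = i₀ then 0 else algebraMap ℂ (Fld m) (y k) / s c k) else 0)) := by
    intro i
    by_cases h1 : i = i₀
    · subst h1
      simp only [w, l, if_true, Finset.mem_erase, ne_eq, not_true_eq_false, false_and, if_false,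
        zero_add]
      rw [mul_assoc, pd_s_zpow c i k hδ]
      by_cases h3 : i = k
      · subst h3
        simp [mul_div_assoc]
      · simp [h3]
    · by_cases h2 : i ∈ I
      · simp only [w, l, h1, h2, if_true, if_false, Finset.mem_erase, ne_eq, not_false_eq_true,
          true_and, zero_add]
        rw [pd_s_div c i i₀ k h1]
        by_cases h3 : i = k
        · subst h3
          have h4 : ¬ i₀ = i := fun h => h1 h.symm
          simp only [h4, h1, if_true, if_false]
          have := hs i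
          have := hs i₀
          field_simp
          ring
        · by_cases h4 : i₀ = k
          · subst h4
            simp only [h1, if_true, if_false]
            have := hs i
            have := hs i₀
            field_simp
            ring
          · simp [h3, h4]
      · simp only [w, l, h1, h2, if_false, Finset.mem_erase, and_false, zero_add]
        rw [pd_s]
        by_cases h3 : i = k
        · subst h3
          simp [h1, div_eq_mul_inv]
        · simp [h3]
  simp only [h2]
  rw [Finset.sum_add_distrib, Finset.sum_add_distrib, Finset.sum_ite_eq' Finset.univ i₀,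
    Finset.sum_ite_eq' Finset.univ k, Finset.sum_ite_mem, Finset.univ_inter]
  simp only [Finset.mem_univ, if_true]
  by_cases h3 : k = i₀
  · subst h3
    simp only [if_true, add_zero]
    rw [Finset.sum_neg_distrib, ← Finset.sum_div, sub_div, sub_eq_add_neg]
  · have h4 : ¬ i₀ = k := fun h => h3 h.symm
    simp [h3, h4]

end

end M0n
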