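import Pool.Agent.M0n.Main

/-!
# MP_cc45c1_ag: the Krull dimension is at most the transcendence degree
-/

set_option autoImplicit false

open MvPolynomial

namespace M0n

noncomputable section

/-- The evaluation of a polynomial in one more variable. -/
theorem aeval_cons {k R : Type*} [Field k] [CommRing R] [Algebra k R] {d : ℕ} (y : R)
    (x : Fin d → R) (P : MvPolynomial (Fin (d + 1)) k) :
    aeval (Fin.cons y x : Fin (d + 1) → R) P =
      (finSuccEquiv k d P).eval₂ (aeval x : MvPolynomial (Fin d) k →ₐ[k] R).toRingHom y := by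
  induction P using MvPolynomial.induction_on with
  | C a =>
    rw [finSuccEquiv_apply]
    simp
  | add P Q hP hQ => rw [map_add, hP, hQ, map_add, Polynomial.eval₂_add]
  | mul_X P i hP =>
    rw [map_mul, hP, map_mul, Polynomial.eval₂_mul, aeval_X]
    congr 1
    refine Fin.cases ?_ (fun i => ?_) i
    · rw [finSuccEquiv_X_zero]
      simp
    · rw [finSuccEquiv_X_succ]
      simp

/-- A chain of `d + 1` prime ideals gives `d` elements which are independent modulo the first
one. -/
theorem exists_indep {k R : Type*} [Field k] [CommRing R] [Algebra k R] :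
    ∀ (d : ℕ) (p : Fin (d + 1) → Ideal R), (∀ i, (p i).IsPrime) → StrictMono p →
      ∃ x : Fin d → R, ∀ P : MvPolynomial (Fin d) k, aeval x P ∈ p 0 → P = 0 := by
  intro d
  induction d with
  | zero =>
    intro p hp _
    refine ⟨Fin.elim0, fun P hP => ?_⟩
    obtain ⟨c, rfl⟩ := C_surjective (Fin 0) P
    by_contra hc
    have hc' : c ≠ 0 := by
      rintro rfl
      exact hc (map_zero _)
    apply (hp 0).ne_top
    rw [algHom_C] at hP
    exact Ideal.eq_top_of_isUnit_mem _ hP ((IsUnit.mk0 c hc').map (algebraMap k R))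
  | succ d ih =>
    intro p hp hlt
    obtain ⟨x', hx'⟩ := ih (fun i => p i.succ) (fun i => hp i.succ)
      (fun i j hij => hlt (Fin.succ_lt_succ_iff.mpr hij))
    have h01 : p 0 < p 1 := hlt (by simp)
    obtain ⟨y, hy1, hy0⟩ := Set.exists_of_ssubset h01
    refine ⟨Fin.cons y x', fun P hP => ?_⟩
    rw [aeval_cons] at hP
    have h1 : (Fin.succ 0 : Fin (d + 2)) = 1 := rfl
    simp only [h1] at hx'
    set Q := finSuccEquiv k d P with hQ
    by_contra hP0
    have hQ0 : Q ≠ 0 := by
      intro h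
      apply hP0
      rw [hQ] at h
      exact (map_eq_zero_iff _ (finSuccEquiv k d).injective).mp h
    set f := (aeval x' : MvPolynomial (Fin d) k →ₐ[k] R).toRingHom with hf
    have h2 : Polynomial.X ^ Q.natTrailingDegree ∣ Q := by
      rw [Polynomial.X_pow_dvd_iff]
      intro e he
      exact Polynomial.coeff_eq_zero_of_lt_natTrailingDegree he
    obtain ⟨Q', hQ'⟩ := h2
    have h3 : Q'.coeff 0 ≠ 0 := by
      have h4 : Q.coeff Q.natTrailingDegree ≠ 0 := by
        exact Polynomial.trailingCoeff_nonzero_iff_nonzero.mpr hQ0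
      intro h5
      apply h4
      generalize Q.natTrailingDegree = e at *
      rw [hQ', Polynomial.coeff_X_pow_mul', if_pos le_rfl, Nat.sub_self, h5]
    have h6 : Q'.eval₂ f y ∈ p 0 := by
      rw [hQ', Polynomial.eval₂_mul, Polynomial.eval₂_X_pow] at hP
      rcases (hp 0).mem_or_mem hP with h | h
      · exact absurd ((hp 0).mem_of_pow_mem _ h) hy0
      · exact h
    have h7 : Q'.eval₂ f y ∈ p 1 := h01.le h6
    have h8 : Q'.eval₂ f y = Q'.divX.eval₂ f y * y + f (Q'.coeff 0) := by
      conv_lhs => rw [← Polynomial.divX_mul_X_add Q']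
      rw [Polynomial.eval₂_add, Polynomial.eval₂_mul, Polynomial.eval₂_X, Polynomial.eval₂_C]
    rw [h8] at h7
    have h9 : f (Q'.coeff 0) ∈ p 1 :=
      (Ideal.add_mem_iff_right _ (Ideal.mul_mem_left _ _ hy1)).mp h7
    exact h3 (hx' _ h9)

/-- The Krull dimension of a subalgebra of a polynomial ring. -/
theorem krull_le {σ : Type} [Fintype σ] {R : Type} [CommRing R] [Algebra ℂ R]
    (φ : R →ₐ[ℂ] MvPolynomial σ ℂ) (hφ : Function.Injective φ) :
    ringKrullDim R ≤ Fintype.card σ := by
  refine iSup_le fun s => ?_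
  obtain ⟨x, hx⟩ := exists_indep (k := ℂ) s.length (fun i => (s i).asIdeal)
    (fun i => (s i).isPrime) (fun i j hij => s.strictMono hij)
  have h1 : AlgebraicIndependent ℂ x := by
    rw [algebraicIndependent_iff]
    intro P hP
    exact hx P (by rw [hP]; exact zero_mem _)
  have h2 : AlgebraicIndependent ℂ (φ ∘ x) := h1.map' hφ
  have h3 := h2.cardinalMk_le_trdeg
  rw [MvPolynomial.trdeg_of_isDomain] at h3
  simp only [Cardinal.lift_id, Cardinal.mk_fintype, Nat.cast_le, Fintype.card_fin] at h3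
  exact_mod_cast h3

theorem krull_le' {σ : Type} [Fintype σ] {A : Type} [CommRing A] [Algebra ℂ A]
    (R : Subalgebra ℂ A) (φ : R →ₐ[ℂ] MvPolynomial σ ℂ) (hφ : Function.Injective φ) :
    ringKrullDim R ≤ Fintype.card σ :=
  krull_le φ hφ

variable {m : ℕ}

/-- The polynomials in `t` and in the fibre coordinates, as tensors. -/
def Lam (m : ℕ) : MvPolynomial (Fin m ⊕ Fin m) ℂ →ₐ[ℂ] MvPolynomial (Fin m) (Fld m) :=
  aeval (Sum.elim (fun i => C (t i)) X)

theorem eval_Lam (G : MvPolynomial (Fin m ⊕ Fin m) ℂ) (p : Fin m → Fld m) :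
    eval p (Lam m G) = aeval (Sum.elim (s 0) p) G := by
  have h1 : ((aeval p : MvPolynomial (Fin m) (Fld m) →ₐ[Fld m] Fld m).restrictScalars ℂ).comp
      (Lam m) = (aeval (Sum.elim (s 0) p) : MvPolynomial (Fin m ⊕ Fin m) ℂ →ₐ[ℂ] Fld m) := by
    ext w
    rcases w with i | i
    · simp [Lam, s]
    · simp [Lam]
  exact DFunLike.congr_fun h1 G

theorem Lam_injective : Function.Injective (Lam m) := by
  have h1 : Lam m = (MvPolynomial.mapAlgHom (IsScalarTower.toAlgHom ℂ
      (MvPolynomial (Fin m) ℂ) (Fld m))).comp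
        ((sumAlgEquiv ℂ (Fin m) (Fin m)).toAlgHom.comp (rename Sum.swap)) := by
    ext1 w
    rcases w with i | i
    · simp [Lam, t]
    · simp [Lam]
  rw [h1]
  have h2 : Function.Injective (MvPolynomial.mapAlgHom (σ := Fin m)
      (IsScalarTower.toAlgHom ℂ (MvPolynomial (Fin m) ℂ) (Fld m))) :=
    map_injective _ (IsFractionRing.injective (MvPolynomial (Fin m) ℂ) (Fld m))
  exact h2.comp ((sumAlgEquiv ℂ (Fin m) (Fin m)).injective.comp
    (rename_injective _ Sum.swap_leftInverse.injective))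

theorem Reg_le : Reg m ≤ (Lam m).range := by
  intro f hf
  obtain ⟨G, hG⟩ := exists_poly hf
  refine ⟨G, ?_⟩
  apply MvPolynomial.funext
  intro p
  rw [← hG p]
  exact eval_Lam G p

/-- The tensors of `Reg m` as polynomials. -/
def toPoly (m : ℕ) : Reg m →ₐ[ℂ] MvPolynomial (Fin m ⊕ Fin m) ℂ :=
  ((AlgEquiv.ofInjective (Lam m) Lam_injective).symm.toAlgHom).comp (Subalgebra.inclusion Reg_le)

theorem Lam_toPoly (f : Reg m) : Lam m (toPoly m f) = f := by
  have h1 := (AlgEquiv.ofInjective (Lam m) Lam_injective).apply_symm_apply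
    (Subalgebra.inclusion Reg_le f)
  exact congrArg Subtype.val h1

theorem toPoly_injective : Function.Injective (toPoly m) := by
  intro f g h
  apply Subtype.ext
  rw [← Lam_toPoly f, ← Lam_toPoly g, h]

theorem toPoly_eq {G : MvPolynomial (Fin m ⊕ Fin m) ℂ} (hG : Lam m G ∈ Reg m) :
    toPoly m ⟨Lam m G, hG⟩ = G := by
  apply Lam_injective
  rw [Lam_toPoly]

/-- The standard bound `dim R_{0,n} ≤ 2 (n - 3)`. -/
theorem krull_reg_le (m : ℕ) : ringKrullDim (Reg m) ≤ (2 * m : ℕ) := by
  have h1 : ringKrullDim (Reg m) ≤ Fintype.card (Fin m ⊕ Fin m) :=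
    krull_le' (A := MvPolynomial (Fin m) (Fld m)) (Reg m) (toPoly m) toPoly_injective
  rw [Fintype.card_sum, Fintype.card_fin, ← two_mul] at h1
  exact h1

end

end M0n
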