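import Pool.Agent.M0n.Arc

/-!
# MP_cc45c1_ag: the divisibility relations given by the boundary divisors
-/

set_option autoImplicit false

open MvPolynomial

namespace M0n

noncomputable section

variable {m : ℕ}

theorem arc_prod (c : ℂ) (I : Finset (Fin m)) (δ : ℤ) (χ : Fin m → ℤ) :
    arc c I δ (∏ i, s c i ^ χ i) =
      HahnSeries.single (∑ i, χ i * dl I δ i) (∏ i, s c i ^ χ i) := by
  rw [map_prod, ← prod_single]
  exact Finset.prod_congr rfl fun i _ => arc_s_zpow c I δ i (χ i)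

/-- The Laurent monomials in `t_i - c` are linearly independent. -/
theorem indep (c : ℂ) (T : Finset (Fin m → ℤ)) (b : (Fin m → ℤ) → ℂ)
    (h : ∑ χ ∈ T, algebraMap ℂ (Fld m) (b χ) * ∏ i, s c i ^ χ i = 0) : ∀ χ ∈ T, b χ = 0 := by
  classical
  intro χ hχ
  obtain ⟨N, hN⟩ : ∃ N : ℕ, ∀ χ ∈ T, ∀ i, 0 ≤ χ i + N := by
    refine ⟨∑ χ ∈ T, ∑ i, (χ i).natAbs, fun χ hχ i => ?_⟩
    have h1 : (χ i).natAbs ≤ ∑ i, (χ i).natAbs :=
      Finset.single_le_sum (f := fun i => (χ i).natAbs) (fun _ _ => Nat.zero_le _)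
        (Finset.mem_univ i)
    have h2 : ∑ i, (χ i).natAbs ≤ ∑ χ ∈ T, ∑ i, (χ i).natAbs :=
      Finset.single_le_sum (f := fun χ : Fin m → ℤ => ∑ i, (χ i).natAbs)
        (fun _ _ => Nat.zero_le _) hχ
    omega
  let e : (Fin m → ℤ) → (Fin m →₀ ℕ) := fun χ => Finsupp.equivFunOnFinite.symm
    fun i => (χ i + N).toNat
  have he : ∀ χ₁ ∈ T, ∀ χ₂ ∈ T, e χ₁ = e χ₂ → χ₁ = χ₂ := by
    intro χ₁ h₁ χ₂ h₂ h₁₂
    ext i
    have h3 := DFunLike.congr_fun h₁₂ i
    simp only [e, Finsupp.equivFunOnFinite_symm_apply_apply] at h3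
    have := hN χ₁ h₁ i
    have := hN χ₂ h₂ i
    omega
  let P : MvPolynomial (Fin m) ℂ := ∑ χ ∈ T, monomial (e χ) (b χ)
  have hP : aeval (s c) P = 0 := by
    have h1 : aeval (s c) P = (∏ i, s c i ^ N) *
        ∑ χ ∈ T, algebraMap ℂ (Fld m) (b χ) * ∏ i, s c i ^ χ i := by
      rw [Finset.mul_sum, map_sum]
      refine Finset.sum_congr rfl fun χ hχ => ?_
      rw [aeval_monomial, Finsupp.prod_fintype _ _ (fun i => pow_zero _), mul_left_comm,
        ← Finset.prod_mul_distrib]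
      congr 1
      refine Finset.prod_congr rfl fun i _ => ?_
      rw [← zpow_natCast, ← zpow_natCast, ← zpow_add₀ (s_ne_zero c i)]
      congr 1
      simp only [e, Finsupp.equivFunOnFinite_symm_apply_apply]
      have := hN χ hχ i
      omega
    rw [h1, h, mul_zero]
  have hP' : P = 0 := aeval_s_injective c (by rw [hP, map_zero])
  have h2 : coeff (e χ) P = b χ := by
    simp only [P, coeff_sum, coeff_monomial]
    rw [Finset.sum_eq_single_of_mem χ hχ]
    · simp
    · intro χ' h' hne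
      rw [if_neg]
      intro h3
      exact hne (he _ h' _ hχ h3)
  rw [hP', coeff_zero] at h2
  exact h2.symm

theorem extract (c : ℂ) (I : Finset (Fin m)) (δ : ℤ) (T : Finset (Fin m → ℤ))
    (b : (Fin m → ℤ) → ℂ) (N : ℤ)
    (h : (N : WithTop ℤ) ≤ (arc c I δ
      (∑ χ ∈ T, algebraMap ℂ (Fld m) (b χ) * ∏ i, s c i ^ χ i)).orderTop) :
    ∀ χ ∈ T, (∑ i, χ i * dl I δ i) < N → b χ = 0 := by
  classical
  intro χ hχ hlt
  have h1 : (arc c I δ (∑ χ ∈ T, algebraMap ℂ (Fld m) (b χ) * ∏ i, s c i ^ χ i)) =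
      ∑ χ ∈ T, HahnSeries.single (∑ i, χ i * dl I δ i)
        (algebraMap ℂ (Fld m) (b χ) * ∏ i, s c i ^ χ i) := by
    rw [map_sum]
    refine Finset.sum_congr rfl fun χ _ => ?_
    rw [map_mul, arc_prod, arc_const, HahnSeries.single_mul_single, zero_add]
  have h2 : (arc c I δ (∑ χ ∈ T, algebraMap ℂ (Fld m) (b χ) *
      ∏ i, s c i ^ χ i)).coeff (∑ i, χ i * dl I δ i) = 0 := by
    apply HahnSeries.coeff_eq_zero_of_lt_orderTop
    exact lt_of_lt_of_le (by exact_mod_cast hlt) h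
  rw [h1, coeff_sum_single] at h2
  exact indep c _ b h2 χ (by simp [hχ])

theorem vf1 {V : Type*} [AddCommGroup V] [Module ℂ V] (O : Submodule ℂ V) (D : ℕ) (v : ℕ → V)
    (h : ∀ a : ℂ, ∑ k ∈ Finset.range D, a ^ k • v k ∈ O) : ∀ k < D, v k ∈ O := by
  intro k hk
  by_contra hn
  obtain ⟨φ, hφ, hO⟩ := O.exists_le_ker_of_notMem hn
  let P : Polynomial ℂ := ∑ k ∈ Finset.range D, Polynomial.monomial k (φ (v k))
  have hP : P = 0 := by
    apply Polynomial.funext
    intro a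
    have h1 : P.eval a = φ (∑ k ∈ Finset.range D, a ^ k • v k) := by
      simp only [P, Polynomial.eval_finsetSum, Polynomial.eval_monomial, map_sum, map_smul,
        smul_eq_mul]
      exact Finset.sum_congr rfl fun k _ => mul_comm _ _
    rw [h1, Polynomial.eval_zero]
    exact hO (h a)
  have h2 : P.coeff k = φ (v k) := by
    simp only [P, Polynomial.finsetSum_coeff, Polynomial.coeff_monomial]
    rw [Finset.sum_ite_eq' (Finset.range D) k]
    simp [hk]
  rw [hP, Polynomial.coeff_zero] at h2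
  exact hφ h2.symm

/-- The weight of a monomial. -/
def chi (γ : Fin m ⊕ Fin m →₀ ℕ) : Fin m → ℤ := fun i => (γ (Sum.inl i) : ℤ) - γ (Sum.inr i)

/-- The exponent in the fibre coordinates. -/
def fib (γ : Fin m ⊕ Fin m →₀ ℕ) : Fin m →₀ ℕ :=
  Finsupp.equivFunOnFinite.symm fun i => γ (Sum.inr i)

theorem fib_apply (γ : Fin m ⊕ Fin m →₀ ℕ) (i : Fin m) : fib γ i = γ (Sum.inr i) := rfl

open Classical in
/-- The part of weight `χ`, as a polynomial in `y_i = t_i p_i`. -/
def gchi (G : MvPolynomial (Fin m ⊕ Fin m) ℂ) (χ : Fin m → ℤ) : MvPolynomial (Fin m) ℂ :=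
  ∑ γ ∈ G.support with chi γ = χ, monomial (fib γ) (coeff γ G)

open Classical in
theorem expand {L : Type*} [Field L] [Algebra ℂ L] (G : MvPolynomial (Fin m ⊕ Fin m) ℂ)
    (s y : Fin m → L) (hs : ∀ i, s i ≠ 0) :
    aeval (Sum.elim s fun k => y k / s k) G =
      ∑ χ ∈ G.support.image chi, (∏ i, s i ^ χ i) * aeval y (gchi G χ) := by
  have h1 : ∀ γ ∈ G.support, chi γ ∈ G.support.image chi := fun γ hγ =>
    Finset.mem_image_of_mem _ hγ
  conv_lhs => rw [G.as_sum, map_sum]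
  rw [← Finset.sum_fiberwise_of_maps_to h1]
  refine Finset.sum_congr rfl fun χ _ => ?_
  rw [gchi, map_sum, Finset.mul_sum]
  refine Finset.sum_congr rfl fun γ hγ => ?_
  have h2 := (Finset.mem_filter.mp hγ).2
  rw [aeval_monomial, aeval_monomial, Finsupp.prod_fintype _ _ (fun i => pow_zero _),
    Finsupp.prod_fintype _ _ (fun i => pow_zero _), Fintype.prod_sum_type]
  have h3 : (∏ i, Sum.elim s (fun k => y k / s k) (Sum.inl i) ^ γ (Sum.inl i)) *
      (∏ i, Sum.elim s (fun k => y k / s k) (Sum.inr i) ^ γ (Sum.inr i)) =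
      (∏ i, s i ^ χ i) * ∏ i, y i ^ (fib γ) i := by
    rw [← Finset.prod_mul_distrib, ← Finset.prod_mul_distrib]
    refine Finset.prod_congr rfl fun i _ => ?_
    rw [← h2]
    simp only [Sum.elim_inl, Sum.elim_inr, chi, fib_apply]
    rw [zpow_sub₀ (hs i), zpow_natCast, zpow_natCast, div_pow]
    have := pow_ne_zero (γ (Sum.inr i)) (hs i)
    field_simp
  rw [h3, mul_left_comm]

/-- `g` as a polynomial in the variable `i₀`, for numerical values `y` of the other ones. -/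
def ghat (g : MvPolynomial (Fin m) ℂ) (i₀ : Fin m) (y : Fin m → ℂ) : Polynomial ℂ :=
  aeval (fun k => if k = i₀ then Polynomial.X else Polynomial.C (y k)) g

theorem aeval_ghat {L : Type*} [Field L] [Algebra ℂ L] (g : MvPolynomial (Fin m) ℂ)
    (i₀ : Fin m) (y : Fin m → ℂ) (z : L) :
    aeval (fun k => if k = i₀ then z else algebraMap ℂ L (y k)) g =
      Polynomial.aeval z (ghat g i₀ y) := by
  have h1 : (aeval (fun k => if k = i₀ then z else algebraMap ℂ L (y k)) :
      MvPolynomial (Fin m) ℂ →ₐ[ℂ] L) = (Polynomial.aeval z).comp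
        (aeval (fun k => if k = i₀ then Polynomial.X else Polynomial.C (y k))) := by
    ext k
    by_cases hk : k = i₀
    · simp [hk]
    · simp [hk]
  exact DFunLike.congr_fun h1 g

theorem dl_sq {I : Finset (Fin m)} {δ : ℤ} (hδ : δ = 1 ∨ δ = -1) {i : Fin m} (hi : i ∈ I) :
    δ * dl I δ i = 1 := by
  rw [dl, if_pos hi]
  rcases hδ with rfl | rfl <;> norm_num

theorem div_mem_ring (c : ℂ) (I : Finset (Fin m)) (δ : ℤ) (i j : Fin m)
    (h : 0 ≤ dl I δ i - dl I δ j) : s c i / s c j ∈ ring c I δ := by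
  have h1 : arc c I δ (s c i / s c j) =
      HahnSeries.single (dl I δ i - dl I δ j) (s c i / s c j) := by
    rw [div_eq_mul_inv, map_mul]
    have h2 := arc_s_zpow c I δ j (-1)
    rw [zpow_neg_one] at h2
    rw [h2, arc_s, HahnSeries.single_mul_single, neg_one_mul, ← sub_eq_add_neg]
  rw [mem_ring, h1]
  refine le_trans ?_ HahnSeries.orderTop_single_le
  exact_mod_cast h

open Classical in
/-- The divisibility relation given by a boundary divisor. -/
theorem arc_dvd {f : MvPolynomial (Fin m) (Fld m)} (hf : f ∈ Reg m) {c : ℂ}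
    (hc : c = 0 ∨ c = 1) {G : MvPolynomial (Fin m ⊕ Fin m) ℂ}
    (hG : ∀ p, aeval (Sum.elim (s c) p) G = eval p f) (I : Finset (Fin m)) {i₀ : Fin m}
    (hi₀ : i₀ ∈ I) {δ : ℤ} (hδ : δ = 1 ∨ δ = -1) (y : Fin m → ℂ) (χ : Fin m → ℤ) :
    (Polynomial.X - Polynomial.C (-∑ i ∈ I.erase i₀, y i)) ^ (-(δ * ∑ i ∈ I, χ i)).toNat ∣
      ghat (gchi G χ) i₀ y := by
  by_cases hχ : χ ∈ G.support.image chi
  swap
  · have h1 : gchi G χ = 0 := by
      rw [gchi, Finset.filter_eq_empty_iff.mpr, Finset.sum_empty]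
      intro γ hγ h2
      exact hχ (Finset.mem_image.mpr ⟨γ, hγ, h2⟩)
    rw [h1, ghat, map_zero]
    exact dvd_zero _
  set ℓ : ℂ := ∑ i ∈ I.erase i₀, y i with hℓ
  let q : (Fin m → ℤ) → Polynomial ℂ := fun χ =>
    (ghat (gchi G χ) i₀ y).comp (Polynomial.X + Polynomial.C (-ℓ))
  let D : ℕ := (G.support.image chi).sup (fun χ => (q χ).natDegree) + 1
  have hD : ∀ χ ∈ G.support.image chi, (q χ).natDegree < D := fun χ hχ =>
    Nat.lt_succ_of_le (Finset.le_sup (f := fun χ => (q χ).natDegree) hχ)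
  let u : ℕ → Fld m := fun k => ∑ χ ∈ G.support.image chi,
    (∏ i, s c i ^ χ i) * (algebraMap ℂ (Fld m) ((q χ).coeff k) * (s c i₀ ^ δ) ^ k)
  have hu : ∀ k < D, u k ∈ Subalgebra.toSubmodule (ring c I δ) := by
    apply vf1
    intro h
    have h1 := reg_arc (ring_mem_or c I δ) hf hc I hi₀ hδ
      (zpow_mem_ring c I δ i₀ δ (by rw [dl_sq hδ hi₀]; norm_num))
      (fun i hi => ⟨div_mem_ring c I δ i i₀ (by simp [dl, hi, hi₀]),
        div_mem_ring c I δ i₀ i (by simp [dl, hi, hi₀])⟩)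
      (fun j hj => by
        have h2 := zpow_mem_ring c I δ j 1 (by simp [dl, hj])
        have h3 := zpow_mem_ring c I δ j (-1) (by simp [dl, hj])
        rw [zpow_one] at h2
        rw [zpow_neg_one] at h3
        exact ⟨h2, h3⟩) y h
    rw [← hG, expand G (s c) _ (s_ne_zero c)] at h1
    rw [Subalgebra.mem_toSubmodule]
    convert h1 using 1
    simp only [u, Finset.smul_sum]
    rw [Finset.sum_comm]
    refine Finset.sum_congr rfl fun χ hχ => ?_
    rw [aeval_ghat]
    have h2 : Polynomial.aeval (algebraMap ℂ (Fld m) h * s c i₀ ^ δ -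
        ∑ i ∈ I.erase i₀, algebraMap ℂ (Fld m) (y i)) (ghat (gchi G χ) i₀ y) =
        Polynomial.aeval (algebraMap ℂ (Fld m) h * s c i₀ ^ δ) (q χ) := by
      simp only [q]
      rw [Polynomial.aeval_comp]
      congr 2
      rw [map_add, Polynomial.aeval_X, Polynomial.aeval_C, map_neg, hℓ, map_sum, sub_eq_add_neg]
    rw [h2, Polynomial.aeval_eq_sum_range' (hD χ hχ), Finset.mul_sum]
    refine Finset.sum_congr rfl fun k _ => ?_
    rw [Algebra.smul_def, Algebra.smul_def, map_pow, mul_pow]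
    ring
  rw [Polynomial.X_sub_C_pow_dvd_iff, Polynomial.X_pow_dvd_iff]
  intro k hk
  by_cases hkD : k < D
  swap
  · exact Polynomial.coeff_eq_zero_of_natDegree_lt (lt_of_lt_of_le (hD χ hχ) (not_lt.mp hkD))
  have h3 := hu k hkD
  rw [Subalgebra.mem_toSubmodule, mem_ring] at h3
  refine extract c I δ (G.support.image chi) (fun χ => (q χ).coeff k) (-k) ?_ χ hχ ?_
  · have h4 : ∑ χ ∈ G.support.image chi, algebraMap ℂ (Fld m) ((q χ).coeff k) *
        ∏ i, s c i ^ χ i = u k * s c i₀ ^ (-(δ * k)) := by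
      simp only [u]
      rw [Finset.sum_mul]
      refine Finset.sum_congr rfl fun χ _ => ?_
      rw [zpow_neg, zpow_mul, zpow_natCast]
      have := pow_ne_zero k (zpow_ne_zero δ (s_ne_zero c i₀))
      field_simp
    rw [h4, map_mul, HahnSeries.orderTop_mul, arc_s_zpow]
    have h5 : -(δ * (k : ℤ)) * dl I δ i₀ = -k := by
      have := dl_sq hδ hi₀
      linear_combination (-(k : ℤ)) * this
    rw [h5]
    have h6 : ((-(k : ℤ) : ℤ) : WithTop ℤ) ≤
      (HahnSeries.single (-(k : ℤ)) (s c i₀ ^ (-(δ * (k : ℤ))))).orderTop :=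
      HahnSeries.orderTop_single_le
    calc ((-(k : ℤ) : ℤ) : WithTop ℤ) = 0 + ((-(k : ℤ) : ℤ) : WithTop ℤ) := (zero_add _).symm
      _ ≤ _ := add_le_add h3 h6
  · have h7 : ∑ i, χ i * dl I δ i = δ * ∑ i ∈ I, χ i := by
      simp only [dl, mul_ite, mul_zero]
      rw [Finset.sum_ite_mem, Finset.univ_inter, Finset.mul_sum]
      exact Finset.sum_congr rfl fun i _ => mul_comm _ _
    rw [h7]
    omega

end

end M0n
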