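import Pool.Agent.M0n.Scale

/-!
# MP_cc45c1_ag: the leading coefficient vanishes
-/

set_option autoImplicit false

open MvPolynomial

namespace M0n

noncomputable section

variable {m : ℕ}

/-- The translation of a point. -/
def trl (c : ℂ) (u : Fin m ⊕ Fin m → ℂ) : Fin m ⊕ Fin m → ℂ :=
  Sum.elim (fun i => u (Sum.inl i) + c) (fun i => u (Sum.inr i))

theorem num_shift (c : ℂ) (i₀ : Fin m) (B : MvPolynomial (Fin m ⊕ Fin m) ℂ)
    (u : Fin m ⊕ Fin m → ℂ) :
    num (Sum.inl i₀) u (shift c B) =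
      (num (Sum.inl i₀) (trl c u) B).comp (Polynomial.X + Polynomial.C c) := by
  classical
  apply Polynomial.funext
  intro x
  rw [Polynomial.eval_comp, num_eval, num_eval, eval_shift]
  simp only [Polynomial.eval_add, Polynomial.eval_X, Polynomial.eval_C]
  congr 2
  ext w
  rcases w with i | i
  · by_cases hi : i = i₀
    · subst hi
      simp
    · simp [hi, trl]
  · simp [trl]

theorem X_pow_dvd {κ M : ℕ} {i₀ i₁ : Fin m} {B : MvPolynomial (Fin m ⊕ Fin m) ℂ}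
    (hB : Good κ i₀ i₁ B) (hM : 2 * M ≤ κ + 1) (u : Fin m ⊕ Fin m → ℂ) :
    Polynomial.X ^ M ∣ num (Sum.inl i₀) u B := by
  rw [B.as_sum, map_sum]
  apply Finset.dvd_sum
  intro γ hγ
  rw [num_monomial, ← Polynomial.C_mul_X_pow_eq_monomial]
  apply Dvd.dvd.mul_left
  apply pow_dvd_pow
  have h1 := hB.w γ hγ
  rw [WOk] at h1
  omega

theorem sub_pow_dvd {κ M : ℕ} {i₀ i₁ : Fin m} {B : MvPolynomial (Fin m ⊕ Fin m) ℂ} {c : ℂ}
    (hB : Good κ i₀ i₁ (shift c B)) (hM : 2 * M ≤ κ + 1) (u : Fin m ⊕ Fin m → ℂ) :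
    (Polynomial.X - Polynomial.C c) ^ M ∣ num (Sum.inl i₀) u B := by
  have h1 : B = shift (-c) (shift c B) := by
    rw [shift_shift, neg_add_cancel, shift_zero]
  rw [h1, num_shift]
  obtain ⟨Q, hQ⟩ := X_pow_dvd hB hM (trl (-c) u)
  rw [hQ, Polynomial.mul_comp, Polynomial.X_pow_comp, map_neg, ← sub_eq_add_neg]
  exact dvd_mul_right _ _

/-- The invariance of the leading coefficient under translations. -/
theorem translation {κ M : ℕ} {i₀ i₁ : Fin m} (h01 : i₁ ≠ i₀)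
    {B : MvPolynomial (Fin m ⊕ Fin m) ℂ} (hB : Good κ i₀ i₁ B)
    (hB' : Good κ i₀ i₁ (shift 1 B)) (hκ : κ ≤ 2 * M) (hM : 2 * M ≤ κ + 1)
    (u : Fin m ⊕ Fin m → ℂ) {s : ℂ} (hs : s ≠ 1) (x : ℂ) :
    (num (Sum.inl i₀) (trl s u) B).eval (x + 2 * s - s ^ 2) * (x * (x - 1)) ^ M =
      ((x + 2 * s - s ^ 2) * (x + 2 * s - s ^ 2 - 1)) ^ M *
        (num (Sum.inl i₀) u B).eval x := by
  have h1s : 1 - s ≠ 0 := sub_ne_zero.mpr hs.symm
  set l : ℂ := (1 - s)⁻¹ with hl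
  have hl0 : l ≠ 0 := inv_ne_zero h1s
  have hls : l * (1 - s) = 1 := inv_mul_cancel₀ h1s
  -- the scaling at the point `0`
  have e0 := scaling h01 hB hκ one_ne_zero (sub_pow_dvd hB' hM) u hl0 x
  -- the scaling at the point `1`
  have hB0 : Good κ i₀ i₁ (shift (-1) (shift 1 B)) := by
    rwa [shift_shift, neg_add_cancel, shift_zero]
  have e1 := scaling h01 hB' hκ (neg_ne_zero.mpr one_ne_zero) (sub_pow_dvd hB0 hM)
    (trl (-1) (scl l u)) (inv_ne_zero hl0) (l ^ 2 * x - 1)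
  rw [num_shift, num_shift, Polynomial.eval_comp, Polynomial.eval_comp] at e1
  simp only [Polynomial.eval_add, Polynomial.eval_X, Polynomial.eval_C] at e1
  have h2 : trl 1 (trl (-1) (scl l u)) = scl l u := by
    ext w
    rcases w with i | i
    · simp [trl]
    · simp [trl]
  have h3 : trl 1 (scl l⁻¹ (trl (-1) (scl l u))) = trl s u := by
    ext w
    rcases w with i | i
    · simp only [trl, scl, Sum.elim_inl]
      have : l⁻¹ = 1 - s := by rw [hl, inv_inv]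
      rw [this]
      linear_combination (u (Sum.inl i)) * hls
    · simp only [trl, scl, Sum.elim_inr]
      rw [inv_inv]
      field_simp
  have h4 : l⁻¹ ^ 2 * (l ^ 2 * x - 1) + 1 = x + 2 * s - s ^ 2 := by
    have : l⁻¹ = 1 - s := by rw [hl, inv_inv]
    rw [this]
    linear_combination x * (l * (1 - s) + 1) * hls
  have h5 : l ^ 2 * x - 1 + 1 = l ^ 2 * x := by ring
  have h6 : l⁻¹ ^ 2 * (l ^ 2 * x - 1) - -1 = x + 2 * s - s ^ 2 := by
    rw [sub_neg_eq_add, h4]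
  have h7 : l ^ 2 * x - 1 - -1 = l ^ 2 * x := by ring
  rw [h2, h3, h4, h5, h6, h7] at e1
  have h8 : l ^ 2 * x - 1 = l ^ 2 * (x + 2 * s - s ^ 2 - 1) := by
    linear_combination (l * (1 - s) + 1) * hls
  rw [h8] at e0
  -- combine
  have hlM : l ^ (2 * M) ≠ 0 := pow_ne_zero _ hl0
  apply mul_left_cancel₀ hlM
  generalize (num (Sum.inl i₀) (trl s u) B).eval (x + 2 * s - s ^ 2) = A at *
  generalize (num (Sum.inl i₀) (scl l u) B).eval (l ^ 2 * x) = A' at *
  generalize (num (Sum.inl i₀) u B).eval x = A'' at *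
  generalize x + 2 * s - s ^ 2 = x₂ at *
  have h9 : l⁻¹ ^ (3 * M) * l ^ (3 * M) = 1 := by
    rw [← mul_pow, inv_mul_cancel₀ hl0, one_pow]
  calc l ^ (2 * M) * (A * (x * (x - 1)) ^ M)
      = (A * (l ^ 2 * x) ^ M) * (x - 1) ^ M := by
        rw [mul_pow, mul_pow, pow_mul]
        ring
    _ = l⁻¹ ^ (3 * M) * x₂ ^ M * (A' * (x - 1) ^ M) := by
        rw [e1]
        ring
    _ = (l⁻¹ ^ (3 * M) * l ^ (3 * M)) * (x₂ ^ M * (l ^ 2 * (x₂ - 1)) ^ M * A'') := by
        rw [e0]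
        ring
    _ = l ^ (2 * M) * ((x₂ * (x₂ - 1)) ^ M * A'') := by
        rw [h9, one_mul, mul_pow, mul_pow, pow_mul]
        ring

end

end M0n
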