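import Pool.Agent.M0n.Quad

/-!
# MP_cc45c1_ag: the quadratic tensors of `M̄_{0,5}`
-/

set_option autoImplicit false

open MvPolynomial

namespace M0n

noncomputable section

/-- The reference quadruples. -/
def ref : Fin 5 → (Fin 4 ↪ Fin 2 ⊕ Fin 3) :=
  ![quad (.inl 0) (.inr 1) (.inr 0) (.inr 2) (by decide),
    quad (.inl 1) (.inr 1) (.inr 0) (.inr 2) (by decide),
    quad (.inl 0) (.inl 1) (.inr 0) (.inr 2) (by decide),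
    quad (.inl 0) (.inl 1) (.inr 1) (.inr 2) (by decide),
    quad (.inl 0) (.inl 1) (.inr 0) (.inr 1) (by decide)]

/-- Their cross ratios. -/
def lam : Fin 5 → Fld 2 :=
  ![t 0, t 1, t 0 / t 1, (t 0 - 1) / (t 1 - 1), t 0 * (t 1 - 1) / ((t 0 - 1) * t 1)]

theorem t_ne (i : Fin 2) : (t i : Fld 2) ≠ 0 := by
  have := s_ne_zero 0 i
  simpa [s] using this

theorem t_sub_one_ne (i : Fin 2) : (t i : Fld 2) - 1 ≠ 0 := by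
  have := s_ne_zero 1 i
  simpa [s] using this

theorem cr_ref (k : Fin 5) : cr (ref k) = lam k := by
  have h0 := t_ne 0
  have h1 := t_ne 1
  have h2 := t_sub_one_ne 0
  have h3 := t_sub_one_ne 1
  fin_cases k
  · refine (cr_quad (.inl 0) (.inr 1) (.inr 0) (.inr 2) (by decide)).trans ?_
    simp [br, pt, lam]
  · refine (cr_quad (.inl 1) (.inr 1) (.inr 0) (.inr 2) (by decide)).trans ?_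
    simp [br, pt, lam]
  · refine (cr_quad (.inl 0) (.inl 1) (.inr 0) (.inr 2) (by decide)).trans ?_
    simp [br, pt, lam]
  · refine (cr_quad (.inl 0) (.inl 1) (.inr 1) (.inr 2) (by decide)).trans ?_
    simp [br, pt, lam]
    rw [← neg_sub (t 0), ← neg_sub (t 1)]
    exact neg_div_neg_eq _ _
  · refine (cr_quad (.inl 0) (.inl 1) (.inr 0) (.inr 1) (by decide)).trans ?_
    simp [br, pt, lam]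

/-- The gradients of the cross ratios. -/
def grad : Fin 5 → Fin 2 → Fld 2 :=
  ![![1, 0], ![0, 1], ![1 / t 1, -t 0 / t 1 ^ 2], ![1 / (t 1 - 1), -(t 0 - 1) / (t 1 - 1) ^ 2],
    ![-(t 1 - 1) / (t 1 * (t 0 - 1) ^ 2), t 0 / ((t 0 - 1) * t 1 ^ 2)]]

theorem pd_lam (k : Fin 5) (i : Fin 2) : pd i (lam k) = grad k i := by
  have h0 := t_ne 0
  have h1 := t_ne 1
  have h2 := t_sub_one_ne 0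
  have h3 := t_sub_one_ne 1
  have d : ∀ (i : Fin 2) (a b : Fld 2), pd i (a / b) = (b * pd i a - a * pd i b) / b ^ 2 := by
    intro i a b
    rw [Derivation.leibniz_div]
    simp
    ring
  fin_cases k <;> fin_cases i
  · show pd 0 (t 0) = 1
    simp [pd_t]
  · show pd 1 (t 0) = 0
    simp [pd_t]
  · show pd 0 (t 1) = 0
    simp [pd_t]
  · show pd 1 (t 1) = 1
    simp [pd_t]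
  · show pd 0 (t 0 / t 1) = 1 / t 1
    rw [d, pd_t, pd_t]
    simp
    field_simp
  · show pd 1 (t 0 / t 1) = -t 0 / t 1 ^ 2
    rw [d, pd_t, pd_t]
    simp
  · show pd 0 ((t 0 - 1) / (t 1 - 1)) = 1 / (t 1 - 1)
    rw [d, map_sub, map_sub, pd_t, pd_t]
    simp
    field_simp
  · show pd 1 ((t 0 - 1) / (t 1 - 1)) = -(t 0 - 1) / (t 1 - 1) ^ 2
    rw [d, map_sub, map_sub, pd_t, pd_t]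
    simp
  · show pd 0 (t 0 * (t 1 - 1) / ((t 0 - 1) * t 1)) = -(t 1 - 1) / (t 1 * (t 0 - 1) ^ 2)
    rw [d, Derivation.leibniz, Derivation.leibniz, map_sub, map_sub, pd_t, pd_t]
    simp
    field_simp
    ring
  · show pd 1 (t 0 * (t 1 - 1) / ((t 0 - 1) * t 1)) = t 0 / ((t 0 - 1) * t 1 ^ 2)
    rw [d, Derivation.leibniz, Derivation.leibniz, map_sub, map_sub, pd_t, pd_t]
    simp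
    field_simp
    ring

theorem bil_lam (T : Fin 2 → Fin 2 → Fld 2) (k l : Fin 5) :
    bil T (lam k) (lam l) = T 0 0 * grad k 0 * grad l 0 + T 0 1 * grad k 0 * grad l 1 +
      (T 1 0 * grad k 1 * grad l 0 + T 1 1 * grad k 1 * grad l 1) := by
  simp only [bil, pd_lam, Fin.sum_univ_two]

theorem quad_of {T : Fin 2 → Fin 2 → Fld 2} {k l : Fin 5} (a₀ a₁ a₂ b₀ b₁ b₂ c₀ c₁ c₂ : ℤ)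
    (h : bil T (lam k) (lam l) =
      (a₀ : Fld 2) + a₁ * lam l + a₂ * lam l ^ 2 +
      (b₀ * lam k + b₁ * lam k * lam l + b₂ * lam k * lam l ^ 2) +
      (c₀ * lam k ^ 2 + c₁ * lam k ^ 2 * lam l + c₂ * lam k ^ 2 * lam l ^ 2)) :
    Quad T (lam k) (lam l) := by
  refine ⟨fun i j => (![![a₀, a₁, a₂], ![b₀, b₁, b₂], ![c₀, c₁, c₂]] i j : ℤ), ?_⟩
  rw [h]
  simp [Fin.sum_univ_three]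

/-- The matrix of a quadratic tensor. -/
def Txy : Fin 2 → Fin 2 → Fld 2 := ![![0, (t 0 - t 1) ^ 2], ![(t 0 - t 1) ^ 2, 0]]

theorem Txy_symm (i j : Fin 2) : Txy i j = Txy j i := by
  fin_cases i <;> fin_cases j <;> rfl

theorem Txy_00 : Quad Txy (lam 0) (lam 0) := by
  have h0 := t_ne 0
  have h1 := t_ne 1
  have h2 := t_sub_one_ne 0
  have h3 := t_sub_one_ne 1
  refine quad_of 0 0 0 0 0 0 0 0 0 ?_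
  rw [bil_lam]
  show (0) * 1 * 1 + ((t 0 - t 1) ^ 2) * 1 * 0 + (((t 0 - t 1) ^ 2) * 0 * 1 + (0) * 0 * 0) =
    ((0 : ℤ) : Fld 2) + ((0 : ℤ) : Fld 2) * (t 0) + ((0 : ℤ) : Fld 2) * (t 0) ^ 2 +
      (((0 : ℤ) : Fld 2) * (t 0) + ((0 : ℤ) : Fld 2) * (t 0) * (t 0) + ((0 : ℤ) : Fld 2) * (t 0) * (t 0) ^ 2) +
      (((0 : ℤ) : Fld 2) * (t 0) ^ 2 + ((0 : ℤ) : Fld 2) * (t 0) ^ 2 * (t 0) + ((0 : ℤ) : Fld 2) * (t 0) ^ 2 * (t 0) ^ 2)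
  push_cast
  try field_simp
  try ring

theorem Txy_01 : Quad Txy (lam 0) (lam 1) := by
  have h0 := t_ne 0
  have h1 := t_ne 1
  have h2 := t_sub_one_ne 0
  have h3 := t_sub_one_ne 1
  refine quad_of 0 0 1 0 (-2) 0 1 0 0 ?_
  rw [bil_lam]
  show (0) * 1 * 0 + ((t 0 - t 1) ^ 2) * 1 * 1 + (((t 0 - t 1) ^ 2) * 0 * 0 + (0) * 0 * 1) =
    ((0 : ℤ) : Fld 2) + ((0 : ℤ) : Fld 2) * (t 1) + ((1 : ℤ) : Fld 2) * (t 1) ^ 2 +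
      (((0 : ℤ) : Fld 2) * (t 0) + ((-2 : ℤ) : Fld 2) * (t 0) * (t 1) + ((0 : ℤ) : Fld 2) * (t 0) * (t 1) ^ 2) +
      (((1 : ℤ) : Fld 2) * (t 0) ^ 2 + ((0 : ℤ) : Fld 2) * (t 0) ^ 2 * (t 1) + ((0 : ℤ) : Fld 2) * (t 0) ^ 2 * (t 1) ^ 2)
  push_cast
  try field_simp
  try ring

theorem Txy_02 : Quad Txy (lam 0) (lam 2) := by
  have h0 := t_ne 0
  have h1 := t_ne 1
  have h2 := t_sub_one_ne 0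
  have h3 := t_sub_one_ne 1
  refine quad_of 0 0 0 (-1) 2 (-1) 0 0 0 ?_
  rw [bil_lam]
  show (0) * 1 * (1 / t 1) + ((t 0 - t 1) ^ 2) * 1 * (-t 0 / t 1 ^ 2) + (((t 0 - t 1) ^ 2) * 0 * (1 / t 1) + (0) * 0 * (-t 0 / t 1 ^ 2)) =
    ((0 : ℤ) : Fld 2) + ((0 : ℤ) : Fld 2) * (t 0 / t 1) + ((0 : ℤ) : Fld 2) * (t 0 / t 1) ^ 2 +
      (((-1 : ℤ) : Fld 2) * (t 0) + ((2 : ℤ) : Fld 2) * (t 0) * (t 0 / t 1) + ((-1 : ℤ) : Fld 2) * (t 0) * (t 0 / t 1) ^ 2) +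
      (((0 : ℤ) : Fld 2) * (t 0) ^ 2 + ((0 : ℤ) : Fld 2) * (t 0) ^ 2 * (t 0 / t 1) + ((0 : ℤ) : Fld 2) * (t 0) ^ 2 * (t 0 / t 1) ^ 2)
  push_cast
  try field_simp
  try ring

theorem Txy_03 : Quad Txy (lam 0) (lam 3) := by
  have h0 := t_ne 0
  have h1 := t_ne 1
  have h2 := t_sub_one_ne 0
  have h3 := t_sub_one_ne 1
  refine quad_of 1 (-2) 1 (-1) 2 (-1) 0 0 0 ?_
  rw [bil_lam]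
  show (0) * 1 * (1 / (t 1 - 1)) + ((t 0 - t 1) ^ 2) * 1 * (-(t 0 - 1) / (t 1 - 1) ^ 2) + (((t 0 - t 1) ^ 2) * 0 * (1 / (t 1 - 1)) + (0) * 0 * (-(t 0 - 1) / (t 1 - 1) ^ 2)) =
    ((1 : ℤ) : Fld 2) + ((-2 : ℤ) : Fld 2) * ((t 0 - 1) / (t 1 - 1)) + ((1 : ℤ) : Fld 2) * ((t 0 - 1) / (t 1 - 1)) ^ 2 +
      (((-1 : ℤ) : Fld 2) * (t 0) + ((2 : ℤ) : Fld 2) * (t 0) * ((t 0 - 1) / (t 1 - 1)) + ((-1 : ℤ) : Fld 2) * (t 0) * ((t 0 - 1) / (t 1 - 1)) ^ 2) +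
      (((0 : ℤ) : Fld 2) * (t 0) ^ 2 + ((0 : ℤ) : Fld 2) * (t 0) ^ 2 * ((t 0 - 1) / (t 1 - 1)) + ((0 : ℤ) : Fld 2) * (t 0) ^ 2 * ((t 0 - 1) / (t 1 - 1)) ^ 2)
  push_cast
  try field_simp
  try ring

theorem Txy_04 : Quad Txy (lam 0) (lam 4) := by
  have h0 := t_ne 0
  have h1 := t_ne 1
  have h2 := t_sub_one_ne 0
  have h3 := t_sub_one_ne 1
  refine quad_of 0 0 0 (-1) 2 (-1) 1 (-2) 1 ?_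
  rw [bil_lam]
  show (0) * 1 * (-(t 1 - 1) / (t 1 * (t 0 - 1) ^ 2)) + ((t 0 - t 1) ^ 2) * 1 * (t 0 / ((t 0 - 1) * t 1 ^ 2)) + (((t 0 - t 1) ^ 2) * 0 * (-(t 1 - 1) / (t 1 * (t 0 - 1) ^ 2)) + (0) * 0 * (t 0 / ((t 0 - 1) * t 1 ^ 2))) =
    ((0 : ℤ) : Fld 2) + ((0 : ℤ) : Fld 2) * (t 0 * (t 1 - 1) / ((t 0 - 1) * t 1)) + ((0 : ℤ) : Fld 2) * (t 0 * (t 1 - 1) / ((t 0 - 1) * t 1)) ^ 2 +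
      (((-1 : ℤ) : Fld 2) * (t 0) + ((2 : ℤ) : Fld 2) * (t 0) * (t 0 * (t 1 - 1) / ((t 0 - 1) * t 1)) + ((-1 : ℤ) : Fld 2) * (t 0) * (t 0 * (t 1 - 1) / ((t 0 - 1) * t 1)) ^ 2) +
      (((1 : ℤ) : Fld 2) * (t 0) ^ 2 + ((-2 : ℤ) : Fld 2) * (t 0) ^ 2 * (t 0 * (t 1 - 1) / ((t 0 - 1) * t 1)) + ((1 : ℤ) : Fld 2) * (t 0) ^ 2 * (t 0 * (t 1 - 1) / ((t 0 - 1) * t 1)) ^ 2)
  push_cast
  try field_simp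
  try ring

theorem Txy_11 : Quad Txy (lam 1) (lam 1) := by
  have h0 := t_ne 0
  have h1 := t_ne 1
  have h2 := t_sub_one_ne 0
  have h3 := t_sub_one_ne 1
  refine quad_of 0 0 0 0 0 0 0 0 0 ?_
  rw [bil_lam]
  show (0) * 0 * 0 + ((t 0 - t 1) ^ 2) * 0 * 1 + (((t 0 - t 1) ^ 2) * 1 * 0 + (0) * 1 * 1) =
    ((0 : ℤ) : Fld 2) + ((0 : ℤ) : Fld 2) * (t 1) + ((0 : ℤ) : Fld 2) * (t 1) ^ 2 +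
      (((0 : ℤ) : Fld 2) * (t 1) + ((0 : ℤ) : Fld 2) * (t 1) * (t 1) + ((0 : ℤ) : Fld 2) * (t 1) * (t 1) ^ 2) +
      (((0 : ℤ) : Fld 2) * (t 1) ^ 2 + ((0 : ℤ) : Fld 2) * (t 1) ^ 2 * (t 1) + ((0 : ℤ) : Fld 2) * (t 1) ^ 2 * (t 1) ^ 2)
  push_cast
  try field_simp
  try ring

theorem Txy_12 : Quad Txy (lam 1) (lam 2) := by
  have h0 := t_ne 0
  have h1 := t_ne 1
  have h2 := t_sub_one_ne 0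
  have h3 := t_sub_one_ne 1
  refine quad_of 0 0 0 1 (-2) 1 0 0 0 ?_
  rw [bil_lam]
  show (0) * 0 * (1 / t 1) + ((t 0 - t 1) ^ 2) * 0 * (-t 0 / t 1 ^ 2) + (((t 0 - t 1) ^ 2) * 1 * (1 / t 1) + (0) * 1 * (-t 0 / t 1 ^ 2)) =
    ((0 : ℤ) : Fld 2) + ((0 : ℤ) : Fld 2) * (t 0 / t 1) + ((0 : ℤ) : Fld 2) * (t 0 / t 1) ^ 2 +
      (((1 : ℤ) : Fld 2) * (t 1) + ((-2 : ℤ) : Fld 2) * (t 1) * (t 0 / t 1) + ((1 : ℤ) : Fld 2) * (t 1) * (t 0 / t 1) ^ 2) +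
      (((0 : ℤ) : Fld 2) * (t 1) ^ 2 + ((0 : ℤ) : Fld 2) * (t 1) ^ 2 * (t 0 / t 1) + ((0 : ℤ) : Fld 2) * (t 1) ^ 2 * (t 0 / t 1) ^ 2)
  push_cast
  try field_simp
  try ring

theorem Txy_13 : Quad Txy (lam 1) (lam 3) := by
  have h0 := t_ne 0
  have h1 := t_ne 1
  have h2 := t_sub_one_ne 0
  have h3 := t_sub_one_ne 1
  refine quad_of (-1) 2 (-1) 1 (-2) 1 0 0 0 ?_
  rw [bil_lam]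
  show (0) * 0 * (1 / (t 1 - 1)) + ((t 0 - t 1) ^ 2) * 0 * (-(t 0 - 1) / (t 1 - 1) ^ 2) + (((t 0 - t 1) ^ 2) * 1 * (1 / (t 1 - 1)) + (0) * 1 * (-(t 0 - 1) / (t 1 - 1) ^ 2)) =
    ((-1 : ℤ) : Fld 2) + ((2 : ℤ) : Fld 2) * ((t 0 - 1) / (t 1 - 1)) + ((-1 : ℤ) : Fld 2) * ((t 0 - 1) / (t 1 - 1)) ^ 2 +
      (((1 : ℤ) : Fld 2) * (t 1) + ((-2 : ℤ) : Fld 2) * (t 1) * ((t 0 - 1) / (t 1 - 1)) + ((1 : ℤ) : Fld 2) * (t 1) * ((t 0 - 1) / (t 1 - 1)) ^ 2) +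
      (((0 : ℤ) : Fld 2) * (t 1) ^ 2 + ((0 : ℤ) : Fld 2) * (t 1) ^ 2 * ((t 0 - 1) / (t 1 - 1)) + ((0 : ℤ) : Fld 2) * (t 1) ^ 2 * ((t 0 - 1) / (t 1 - 1)) ^ 2)
  push_cast
  try field_simp
  try ring

theorem Txy_14 : Quad Txy (lam 1) (lam 4) := by
  have h0 := t_ne 0
  have h1 := t_ne 1
  have h2 := t_sub_one_ne 0
  have h3 := t_sub_one_ne 1
  refine quad_of 0 0 0 1 (-2) 1 (-1) 2 (-1) ?_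
  rw [bil_lam]
  show (0) * 0 * (-(t 1 - 1) / (t 1 * (t 0 - 1) ^ 2)) + ((t 0 - t 1) ^ 2) * 0 * (t 0 / ((t 0 - 1) * t 1 ^ 2)) + (((t 0 - t 1) ^ 2) * 1 * (-(t 1 - 1) / (t 1 * (t 0 - 1) ^ 2)) + (0) * 1 * (t 0 / ((t 0 - 1) * t 1 ^ 2))) =
    ((0 : ℤ) : Fld 2) + ((0 : ℤ) : Fld 2) * (t 0 * (t 1 - 1) / ((t 0 - 1) * t 1)) + ((0 : ℤ) : Fld 2) * (t 0 * (t 1 - 1) / ((t 0 - 1) * t 1)) ^ 2 +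
      (((1 : ℤ) : Fld 2) * (t 1) + ((-2 : ℤ) : Fld 2) * (t 1) * (t 0 * (t 1 - 1) / ((t 0 - 1) * t 1)) + ((1 : ℤ) : Fld 2) * (t 1) * (t 0 * (t 1 - 1) / ((t 0 - 1) * t 1)) ^ 2) +
      (((-1 : ℤ) : Fld 2) * (t 1) ^ 2 + ((2 : ℤ) : Fld 2) * (t 1) ^ 2 * (t 0 * (t 1 - 1) / ((t 0 - 1) * t 1)) + ((-1 : ℤ) : Fld 2) * (t 1) ^ 2 * (t 0 * (t 1 - 1) / ((t 0 - 1) * t 1)) ^ 2)
  push_cast
  try field_simp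
  try ring

theorem Txy_22 : Quad Txy (lam 2) (lam 2) := by
  have h0 := t_ne 0
  have h1 := t_ne 1
  have h2 := t_sub_one_ne 0
  have h3 := t_sub_one_ne 1
  refine quad_of 0 (-2) 4 0 0 (-2) 0 0 0 ?_
  rw [bil_lam]
  show (0) * (1 / t 1) * (1 / t 1) + ((t 0 - t 1) ^ 2) * (1 / t 1) * (-t 0 / t 1 ^ 2) + (((t 0 - t 1) ^ 2) * (-t 0 / t 1 ^ 2) * (1 / t 1) + (0) * (-t 0 / t 1 ^ 2) * (-t 0 / t 1 ^ 2)) =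
    ((0 : ℤ) : Fld 2) + ((-2 : ℤ) : Fld 2) * (t 0 / t 1) + ((4 : ℤ) : Fld 2) * (t 0 / t 1) ^ 2 +
      (((0 : ℤ) : Fld 2) * (t 0 / t 1) + ((0 : ℤ) : Fld 2) * (t 0 / t 1) * (t 0 / t 1) + ((-2 : ℤ) : Fld 2) * (t 0 / t 1) * (t 0 / t 1) ^ 2) +
      (((0 : ℤ) : Fld 2) * (t 0 / t 1) ^ 2 + ((0 : ℤ) : Fld 2) * (t 0 / t 1) ^ 2 * (t 0 / t 1) + ((0 : ℤ) : Fld 2) * (t 0 / t 1) ^ 2 * (t 0 / t 1) ^ 2)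
  push_cast
  try field_simp
  try ring

theorem Txy_23 : Quad Txy (lam 2) (lam 3) := by
  have h0 := t_ne 0
  have h1 := t_ne 1
  have h2 := t_sub_one_ne 0
  have h3 := t_sub_one_ne 1
  refine quad_of 0 (-1) 1 (-1) 2 (-1) 1 (-1) 0 ?_
  rw [bil_lam]
  show (0) * (1 / t 1) * (1 / (t 1 - 1)) + ((t 0 - t 1) ^ 2) * (1 / t 1) * (-(t 0 - 1) / (t 1 - 1) ^ 2) + (((t 0 - t 1) ^ 2) * (-t 0 / t 1 ^ 2) * (1 / (t 1 - 1)) + (0) * (-t 0 / t 1 ^ 2) * (-(t 0 - 1) / (t 1 - 1) ^ 2)) =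
    ((0 : ℤ) : Fld 2) + ((-1 : ℤ) : Fld 2) * ((t 0 - 1) / (t 1 - 1)) + ((1 : ℤ) : Fld 2) * ((t 0 - 1) / (t 1 - 1)) ^ 2 +
      (((-1 : ℤ) : Fld 2) * (t 0 / t 1) + ((2 : ℤ) : Fld 2) * (t 0 / t 1) * ((t 0 - 1) / (t 1 - 1)) + ((-1 : ℤ) : Fld 2) * (t 0 / t 1) * ((t 0 - 1) / (t 1 - 1)) ^ 2) +
      (((1 : ℤ) : Fld 2) * (t 0 / t 1) ^ 2 + ((-1 : ℤ) : Fld 2) * (t 0 / t 1) ^ 2 * ((t 0 - 1) / (t 1 - 1)) + ((0 : ℤ) : Fld 2) * (t 0 / t 1) ^ 2 * ((t 0 - 1) / (t 1 - 1)) ^ 2)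
  push_cast
  try field_simp
  try ring

theorem Txy_24 : Quad Txy (lam 2) (lam 4) := by
  have h0 := t_ne 0
  have h1 := t_ne 1
  have h2 := t_sub_one_ne 0
  have h3 := t_sub_one_ne 1
  refine quad_of 0 (-1) 1 (-1) 2 (-1) 1 (-1) 0 ?_
  rw [bil_lam]
  show (0) * (1 / t 1) * (-(t 1 - 1) / (t 1 * (t 0 - 1) ^ 2)) + ((t 0 - t 1) ^ 2) * (1 / t 1) * (t 0 / ((t 0 - 1) * t 1 ^ 2)) + (((t 0 - t 1) ^ 2) * (-t 0 / t 1 ^ 2) * (-(t 1 - 1) / (t 1 * (t 0 - 1) ^ 2)) + (0) * (-t 0 / t 1 ^ 2) * (t 0 / ((t 0 - 1) * t 1 ^ 2))) =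
    ((0 : ℤ) : Fld 2) + ((-1 : ℤ) : Fld 2) * (t 0 * (t 1 - 1) / ((t 0 - 1) * t 1)) + ((1 : ℤ) : Fld 2) * (t 0 * (t 1 - 1) / ((t 0 - 1) * t 1)) ^ 2 +
      (((-1 : ℤ) : Fld 2) * (t 0 / t 1) + ((2 : ℤ) : Fld 2) * (t 0 / t 1) * (t 0 * (t 1 - 1) / ((t 0 - 1) * t 1)) + ((-1 : ℤ) : Fld 2) * (t 0 / t 1) * (t 0 * (t 1 - 1) / ((t 0 - 1) * t 1)) ^ 2) +
      (((1 : ℤ) : Fld 2) * (t 0 / t 1) ^ 2 + ((-1 : ℤ) : Fld 2) * (t 0 / t 1) ^ 2 * (t 0 * (t 1 - 1) / ((t 0 - 1) * t 1)) + ((0 : ℤ) : Fld 2) * (t 0 / t 1) ^ 2 * (t 0 * (t 1 - 1) / ((t 0 - 1) * t 1)) ^ 2)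
  push_cast
  try field_simp
  try ring

theorem Txy_33 : Quad Txy (lam 3) (lam 3) := by
  have h0 := t_ne 0
  have h1 := t_ne 1
  have h2 := t_sub_one_ne 0
  have h3 := t_sub_one_ne 1
  refine quad_of 0 (-2) 4 0 0 (-2) 0 0 0 ?_
  rw [bil_lam]
  show (0) * (1 / (t 1 - 1)) * (1 / (t 1 - 1)) + ((t 0 - t 1) ^ 2) * (1 / (t 1 - 1)) * (-(t 0 - 1) / (t 1 - 1) ^ 2) + (((t 0 - t 1) ^ 2) * (-(t 0 - 1) / (t 1 - 1) ^ 2) * (1 / (t 1 - 1)) + (0) * (-(t 0 - 1) / (t 1 - 1) ^ 2) * (-(t 0 - 1) / (t 1 - 1) ^ 2)) =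
    ((0 : ℤ) : Fld 2) + ((-2 : ℤ) : Fld 2) * ((t 0 - 1) / (t 1 - 1)) + ((4 : ℤ) : Fld 2) * ((t 0 - 1) / (t 1 - 1)) ^ 2 +
      (((0 : ℤ) : Fld 2) * ((t 0 - 1) / (t 1 - 1)) + ((0 : ℤ) : Fld 2) * ((t 0 - 1) / (t 1 - 1)) * ((t 0 - 1) / (t 1 - 1)) + ((-2 : ℤ) : Fld 2) * ((t 0 - 1) / (t 1 - 1)) * ((t 0 - 1) / (t 1 - 1)) ^ 2) +
      (((0 : ℤ) : Fld 2) * ((t 0 - 1) / (t 1 - 1)) ^ 2 + ((0 : ℤ) : Fld 2) * ((t 0 - 1) / (t 1 - 1)) ^ 2 * ((t 0 - 1) / (t 1 - 1)) + ((0 : ℤ) : Fld 2) * ((t 0 - 1) / (t 1 - 1)) ^ 2 * ((t 0 - 1) / (t 1 - 1)) ^ 2)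
  push_cast
  try field_simp
  try ring

theorem Txy_34 : Quad Txy (lam 3) (lam 4) := by
  have h0 := t_ne 0
  have h1 := t_ne 1
  have h2 := t_sub_one_ne 0
  have h3 := t_sub_one_ne 1
  refine quad_of (-1) 1 0 1 (-2) 1 0 1 (-1) ?_
  rw [bil_lam]
  show (0) * (1 / (t 1 - 1)) * (-(t 1 - 1) / (t 1 * (t 0 - 1) ^ 2)) + ((t 0 - t 1) ^ 2) * (1 / (t 1 - 1)) * (t 0 / ((t 0 - 1) * t 1 ^ 2)) + (((t 0 - t 1) ^ 2) * (-(t 0 - 1) / (t 1 - 1) ^ 2) * (-(t 1 - 1) / (t 1 * (t 0 - 1) ^ 2)) + (0) * (-(t 0 - 1) / (t 1 - 1) ^ 2) * (t 0 / ((t 0 - 1) * t 1 ^ 2))) =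
    ((-1 : ℤ) : Fld 2) + ((1 : ℤ) : Fld 2) * (t 0 * (t 1 - 1) / ((t 0 - 1) * t 1)) + ((0 : ℤ) : Fld 2) * (t 0 * (t 1 - 1) / ((t 0 - 1) * t 1)) ^ 2 +
      (((1 : ℤ) : Fld 2) * ((t 0 - 1) / (t 1 - 1)) + ((-2 : ℤ) : Fld 2) * ((t 0 - 1) / (t 1 - 1)) * (t 0 * (t 1 - 1) / ((t 0 - 1) * t 1)) + ((1 : ℤ) : Fld 2) * ((t 0 - 1) / (t 1 - 1)) * (t 0 * (t 1 - 1) / ((t 0 - 1) * t 1)) ^ 2) +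
      (((0 : ℤ) : Fld 2) * ((t 0 - 1) / (t 1 - 1)) ^ 2 + ((1 : ℤ) : Fld 2) * ((t 0 - 1) / (t 1 - 1)) ^ 2 * (t 0 * (t 1 - 1) / ((t 0 - 1) * t 1)) + ((-1 : ℤ) : Fld 2) * ((t 0 - 1) / (t 1 - 1)) ^ 2 * (t 0 * (t 1 - 1) / ((t 0 - 1) * t 1)) ^ 2)
  push_cast
  try field_simp
  try ring

theorem Txy_44 : Quad Txy (lam 4) (lam 4) := by
  have h0 := t_ne 0
  have h1 := t_ne 1
  have h2 := t_sub_one_ne 0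
  have h3 := t_sub_one_ne 1
  refine quad_of 0 (-2) 4 0 0 (-2) 0 0 0 ?_
  rw [bil_lam]
  show (0) * (-(t 1 - 1) / (t 1 * (t 0 - 1) ^ 2)) * (-(t 1 - 1) / (t 1 * (t 0 - 1) ^ 2)) + ((t 0 - t 1) ^ 2) * (-(t 1 - 1) / (t 1 * (t 0 - 1) ^ 2)) * (t 0 / ((t 0 - 1) * t 1 ^ 2)) + (((t 0 - t 1) ^ 2) * (t 0 / ((t 0 - 1) * t 1 ^ 2)) * (-(t 1 - 1) / (t 1 * (t 0 - 1) ^ 2)) + (0) * (t 0 / ((t 0 - 1) * t 1 ^ 2)) * (t 0 / ((t 0 - 1) * t 1 ^ 2))) =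
    ((0 : ℤ) : Fld 2) + ((-2 : ℤ) : Fld 2) * (t 0 * (t 1 - 1) / ((t 0 - 1) * t 1)) + ((4 : ℤ) : Fld 2) * (t 0 * (t 1 - 1) / ((t 0 - 1) * t 1)) ^ 2 +
      (((0 : ℤ) : Fld 2) * (t 0 * (t 1 - 1) / ((t 0 - 1) * t 1)) + ((0 : ℤ) : Fld 2) * (t 0 * (t 1 - 1) / ((t 0 - 1) * t 1)) * (t 0 * (t 1 - 1) / ((t 0 - 1) * t 1)) + ((-2 : ℤ) : Fld 2) * (t 0 * (t 1 - 1) / ((t 0 - 1) * t 1)) * (t 0 * (t 1 - 1) / ((t 0 - 1) * t 1)) ^ 2) +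
      (((0 : ℤ) : Fld 2) * (t 0 * (t 1 - 1) / ((t 0 - 1) * t 1)) ^ 2 + ((0 : ℤ) : Fld 2) * (t 0 * (t 1 - 1) / ((t 0 - 1) * t 1)) ^ 2 * (t 0 * (t 1 - 1) / ((t 0 - 1) * t 1)) + ((0 : ℤ) : Fld 2) * (t 0 * (t 1 - 1) / ((t 0 - 1) * t 1)) ^ 2 * (t 0 * (t 1 - 1) / ((t 0 - 1) * t 1)) ^ 2)
  push_cast
  try field_simp
  try ring

/-- The matrix of a quadratic tensor. -/
def TxI : Fin 2 → Fin 2 → Fld 2 := ![![2 * (t 0 * (t 0 - 1)), t 1 * (t 1 - 1)], ![t 1 * (t 1 - 1), 0]]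

theorem TxI_symm (i j : Fin 2) : TxI i j = TxI j i := by
  fin_cases i <;> fin_cases j <;> rfl

theorem TxI_00 : Quad TxI (lam 0) (lam 0) := by
  have h0 := t_ne 0
  have h1 := t_ne 1
  have h2 := t_sub_one_ne 0
  have h3 := t_sub_one_ne 1
  refine quad_of 0 (-2) 2 0 0 0 0 0 0 ?_
  rw [bil_lam]
  show (2 * (t 0 * (t 0 - 1))) * 1 * 1 + (t 1 * (t 1 - 1)) * 1 * 0 + ((t 1 * (t 1 - 1)) * 0 * 1 + (0) * 0 * 0) =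
    ((0 : ℤ) : Fld 2) + ((-2 : ℤ) : Fld 2) * (t 0) + ((2 : ℤ) : Fld 2) * (t 0) ^ 2 +
      (((0 : ℤ) : Fld 2) * (t 0) + ((0 : ℤ) : Fld 2) * (t 0) * (t 0) + ((0 : ℤ) : Fld 2) * (t 0) * (t 0) ^ 2) +
      (((0 : ℤ) : Fld 2) * (t 0) ^ 2 + ((0 : ℤ) : Fld 2) * (t 0) ^ 2 * (t 0) + ((0 : ℤ) : Fld 2) * (t 0) ^ 2 * (t 0) ^ 2)
  push_cast
  try field_simp
  try ring

theorem TxI_01 : Quad TxI (lam 0) (lam 1) := by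
  have h0 := t_ne 0
  have h1 := t_ne 1
  have h2 := t_sub_one_ne 0
  have h3 := t_sub_one_ne 1
  refine quad_of 0 (-1) 1 0 0 0 0 0 0 ?_
  rw [bil_lam]
  show (2 * (t 0 * (t 0 - 1))) * 1 * 0 + (t 1 * (t 1 - 1)) * 1 * 1 + ((t 1 * (t 1 - 1)) * 0 * 0 + (0) * 0 * 1) =
    ((0 : ℤ) : Fld 2) + ((-1 : ℤ) : Fld 2) * (t 1) + ((1 : ℤ) : Fld 2) * (t 1) ^ 2 +
      (((0 : ℤ) : Fld 2) * (t 0) + ((0 : ℤ) : Fld 2) * (t 0) * (t 1) + ((0 : ℤ) : Fld 2) * (t 0) * (t 1) ^ 2) +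
      (((0 : ℤ) : Fld 2) * (t 0) ^ 2 + ((0 : ℤ) : Fld 2) * (t 0) ^ 2 * (t 1) + ((0 : ℤ) : Fld 2) * (t 0) ^ 2 * (t 1) ^ 2)
  push_cast
  try field_simp
  try ring

theorem TxI_02 : Quad TxI (lam 0) (lam 2) := by
  have h0 := t_ne 0
  have h1 := t_ne 1
  have h2 := t_sub_one_ne 0
  have h3 := t_sub_one_ne 1
  refine quad_of 0 (-1) 0 (-1) 2 0 0 0 0 ?_
  rw [bil_lam]
  show (2 * (t 0 * (t 0 - 1))) * 1 * (1 / t 1) + (t 1 * (t 1 - 1)) * 1 * (-t 0 / t 1 ^ 2) + ((t 1 * (t 1 - 1)) * 0 * (1 / t 1) + (0) * 0 * (-t 0 / t 1 ^ 2)) =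
    ((0 : ℤ) : Fld 2) + ((-1 : ℤ) : Fld 2) * (t 0 / t 1) + ((0 : ℤ) : Fld 2) * (t 0 / t 1) ^ 2 +
      (((-1 : ℤ) : Fld 2) * (t 0) + ((2 : ℤ) : Fld 2) * (t 0) * (t 0 / t 1) + ((0 : ℤ) : Fld 2) * (t 0) * (t 0 / t 1) ^ 2) +
      (((0 : ℤ) : Fld 2) * (t 0) ^ 2 + ((0 : ℤ) : Fld 2) * (t 0) ^ 2 * (t 0 / t 1) + ((0 : ℤ) : Fld 2) * (t 0) ^ 2 * (t 0 / t 1) ^ 2)
  push_cast
  try field_simp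
  try ring

theorem TxI_03 : Quad TxI (lam 0) (lam 3) := by
  have h0 := t_ne 0
  have h1 := t_ne 1
  have h2 := t_sub_one_ne 0
  have h3 := t_sub_one_ne 1
  refine quad_of 1 (-1) 0 (-1) 2 0 0 0 0 ?_
  rw [bil_lam]
  show (2 * (t 0 * (t 0 - 1))) * 1 * (1 / (t 1 - 1)) + (t 1 * (t 1 - 1)) * 1 * (-(t 0 - 1) / (t 1 - 1) ^ 2) + ((t 1 * (t 1 - 1)) * 0 * (1 / (t 1 - 1)) + (0) * 0 * (-(t 0 - 1) / (t 1 - 1) ^ 2)) =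
    ((1 : ℤ) : Fld 2) + ((-1 : ℤ) : Fld 2) * ((t 0 - 1) / (t 1 - 1)) + ((0 : ℤ) : Fld 2) * ((t 0 - 1) / (t 1 - 1)) ^ 2 +
      (((-1 : ℤ) : Fld 2) * (t 0) + ((2 : ℤ) : Fld 2) * (t 0) * ((t 0 - 1) / (t 1 - 1)) + ((0 : ℤ) : Fld 2) * (t 0) * ((t 0 - 1) / (t 1 - 1)) ^ 2) +
      (((0 : ℤ) : Fld 2) * (t 0) ^ 2 + ((0 : ℤ) : Fld 2) * (t 0) ^ 2 * ((t 0 - 1) / (t 1 - 1)) + ((0 : ℤ) : Fld 2) * (t 0) ^ 2 * ((t 0 - 1) / (t 1 - 1)) ^ 2)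
  push_cast
  try field_simp
  try ring

theorem TxI_04 : Quad TxI (lam 0) (lam 4) := by
  have h0 := t_ne 0
  have h1 := t_ne 1
  have h2 := t_sub_one_ne 0
  have h3 := t_sub_one_ne 1
  refine quad_of 0 (-1) 0 0 0 0 0 0 0 ?_
  rw [bil_lam]
  show (2 * (t 0 * (t 0 - 1))) * 1 * (-(t 1 - 1) / (t 1 * (t 0 - 1) ^ 2)) + (t 1 * (t 1 - 1)) * 1 * (t 0 / ((t 0 - 1) * t 1 ^ 2)) + ((t 1 * (t 1 - 1)) * 0 * (-(t 1 - 1) / (t 1 * (t 0 - 1) ^ 2)) + (0) * 0 * (t 0 / ((t 0 - 1) * t 1 ^ 2))) =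
    ((0 : ℤ) : Fld 2) + ((-1 : ℤ) : Fld 2) * (t 0 * (t 1 - 1) / ((t 0 - 1) * t 1)) + ((0 : ℤ) : Fld 2) * (t 0 * (t 1 - 1) / ((t 0 - 1) * t 1)) ^ 2 +
      (((0 : ℤ) : Fld 2) * (t 0) + ((0 : ℤ) : Fld 2) * (t 0) * (t 0 * (t 1 - 1) / ((t 0 - 1) * t 1)) + ((0 : ℤ) : Fld 2) * (t 0) * (t 0 * (t 1 - 1) / ((t 0 - 1) * t 1)) ^ 2) +
      (((0 : ℤ) : Fld 2) * (t 0) ^ 2 + ((0 : ℤ) : Fld 2) * (t 0) ^ 2 * (t 0 * (t 1 - 1) / ((t 0 - 1) * t 1)) + ((0 : ℤ) : Fld 2) * (t 0) ^ 2 * (t 0 * (t 1 - 1) / ((t 0 - 1) * t 1)) ^ 2)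
  push_cast
  try field_simp
  try ring

theorem TxI_11 : Quad TxI (lam 1) (lam 1) := by
  have h0 := t_ne 0
  have h1 := t_ne 1
  have h2 := t_sub_one_ne 0
  have h3 := t_sub_one_ne 1
  refine quad_of 0 0 0 0 0 0 0 0 0 ?_
  rw [bil_lam]
  show (2 * (t 0 * (t 0 - 1))) * 0 * 0 + (t 1 * (t 1 - 1)) * 0 * 1 + ((t 1 * (t 1 - 1)) * 1 * 0 + (0) * 1 * 1) =
    ((0 : ℤ) : Fld 2) + ((0 : ℤ) : Fld 2) * (t 1) + ((0 : ℤ) : Fld 2) * (t 1) ^ 2 +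
      (((0 : ℤ) : Fld 2) * (t 1) + ((0 : ℤ) : Fld 2) * (t 1) * (t 1) + ((0 : ℤ) : Fld 2) * (t 1) * (t 1) ^ 2) +
      (((0 : ℤ) : Fld 2) * (t 1) ^ 2 + ((0 : ℤ) : Fld 2) * (t 1) ^ 2 * (t 1) + ((0 : ℤ) : Fld 2) * (t 1) ^ 2 * (t 1) ^ 2)
  push_cast
  try field_simp
  try ring

theorem TxI_12 : Quad TxI (lam 1) (lam 2) := by
  have h0 := t_ne 0
  have h1 := t_ne 1
  have h2 := t_sub_one_ne 0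
  have h3 := t_sub_one_ne 1
  refine quad_of (-1) 0 0 1 0 0 0 0 0 ?_
  rw [bil_lam]
  show (2 * (t 0 * (t 0 - 1))) * 0 * (1 / t 1) + (t 1 * (t 1 - 1)) * 0 * (-t 0 / t 1 ^ 2) + ((t 1 * (t 1 - 1)) * 1 * (1 / t 1) + (0) * 1 * (-t 0 / t 1 ^ 2)) =
    ((-1 : ℤ) : Fld 2) + ((0 : ℤ) : Fld 2) * (t 0 / t 1) + ((0 : ℤ) : Fld 2) * (t 0 / t 1) ^ 2 +
      (((1 : ℤ) : Fld 2) * (t 1) + ((0 : ℤ) : Fld 2) * (t 1) * (t 0 / t 1) + ((0 : ℤ) : Fld 2) * (t 1) * (t 0 / t 1) ^ 2) +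
      (((0 : ℤ) : Fld 2) * (t 1) ^ 2 + ((0 : ℤ) : Fld 2) * (t 1) ^ 2 * (t 0 / t 1) + ((0 : ℤ) : Fld 2) * (t 1) ^ 2 * (t 0 / t 1) ^ 2)
  push_cast
  try field_simp
  try ring

theorem TxI_13 : Quad TxI (lam 1) (lam 3) := by
  have h0 := t_ne 0
  have h1 := t_ne 1
  have h2 := t_sub_one_ne 0
  have h3 := t_sub_one_ne 1
  refine quad_of 0 0 0 1 0 0 0 0 0 ?_
  rw [bil_lam]
  show (2 * (t 0 * (t 0 - 1))) * 0 * (1 / (t 1 - 1)) + (t 1 * (t 1 - 1)) * 0 * (-(t 0 - 1) / (t 1 - 1) ^ 2) + ((t 1 * (t 1 - 1)) * 1 * (1 / (t 1 - 1)) + (0) * 1 * (-(t 0 - 1) / (t 1 - 1) ^ 2)) =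
    ((0 : ℤ) : Fld 2) + ((0 : ℤ) : Fld 2) * ((t 0 - 1) / (t 1 - 1)) + ((0 : ℤ) : Fld 2) * ((t 0 - 1) / (t 1 - 1)) ^ 2 +
      (((1 : ℤ) : Fld 2) * (t 1) + ((0 : ℤ) : Fld 2) * (t 1) * ((t 0 - 1) / (t 1 - 1)) + ((0 : ℤ) : Fld 2) * (t 1) * ((t 0 - 1) / (t 1 - 1)) ^ 2) +
      (((0 : ℤ) : Fld 2) * (t 1) ^ 2 + ((0 : ℤ) : Fld 2) * (t 1) ^ 2 * ((t 0 - 1) / (t 1 - 1)) + ((0 : ℤ) : Fld 2) * (t 1) ^ 2 * ((t 0 - 1) / (t 1 - 1)) ^ 2)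
  push_cast
  try field_simp
  try ring

theorem TxI_14 : Quad TxI (lam 1) (lam 4) := by
  have h0 := t_ne 0
  have h1 := t_ne 1
  have h2 := t_sub_one_ne 0
  have h3 := t_sub_one_ne 1
  refine quad_of (-1) 0 0 2 (-2) 0 (-1) 2 (-1) ?_
  rw [bil_lam]
  show (2 * (t 0 * (t 0 - 1))) * 0 * (-(t 1 - 1) / (t 1 * (t 0 - 1) ^ 2)) + (t 1 * (t 1 - 1)) * 0 * (t 0 / ((t 0 - 1) * t 1 ^ 2)) + ((t 1 * (t 1 - 1)) * 1 * (-(t 1 - 1) / (t 1 * (t 0 - 1) ^ 2)) + (0) * 1 * (t 0 / ((t 0 - 1) * t 1 ^ 2))) =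
    ((-1 : ℤ) : Fld 2) + ((0 : ℤ) : Fld 2) * (t 0 * (t 1 - 1) / ((t 0 - 1) * t 1)) + ((0 : ℤ) : Fld 2) * (t 0 * (t 1 - 1) / ((t 0 - 1) * t 1)) ^ 2 +
      (((2 : ℤ) : Fld 2) * (t 1) + ((-2 : ℤ) : Fld 2) * (t 1) * (t 0 * (t 1 - 1) / ((t 0 - 1) * t 1)) + ((0 : ℤ) : Fld 2) * (t 1) * (t 0 * (t 1 - 1) / ((t 0 - 1) * t 1)) ^ 2) +
      (((-1 : ℤ) : Fld 2) * (t 1) ^ 2 + ((2 : ℤ) : Fld 2) * (t 1) ^ 2 * (t 0 * (t 1 - 1) / ((t 0 - 1) * t 1)) + ((-1 : ℤ) : Fld 2) * (t 1) ^ 2 * (t 0 * (t 1 - 1) / ((t 0 - 1) * t 1)) ^ 2)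
  push_cast
  try field_simp
  try ring

theorem TxI_22 : Quad TxI (lam 2) (lam 2) := by
  have h0 := t_ne 0
  have h1 := t_ne 1
  have h2 := t_sub_one_ne 0
  have h3 := t_sub_one_ne 1
  refine quad_of 0 (-2) 2 0 0 0 0 0 0 ?_
  rw [bil_lam]
  show (2 * (t 0 * (t 0 - 1))) * (1 / t 1) * (1 / t 1) + (t 1 * (t 1 - 1)) * (1 / t 1) * (-t 0 / t 1 ^ 2) + ((t 1 * (t 1 - 1)) * (-t 0 / t 1 ^ 2) * (1 / t 1) + (0) * (-t 0 / t 1 ^ 2) * (-t 0 / t 1 ^ 2)) =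
    ((0 : ℤ) : Fld 2) + ((-2 : ℤ) : Fld 2) * (t 0 / t 1) + ((2 : ℤ) : Fld 2) * (t 0 / t 1) ^ 2 +
      (((0 : ℤ) : Fld 2) * (t 0 / t 1) + ((0 : ℤ) : Fld 2) * (t 0 / t 1) * (t 0 / t 1) + ((0 : ℤ) : Fld 2) * (t 0 / t 1) * (t 0 / t 1) ^ 2) +
      (((0 : ℤ) : Fld 2) * (t 0 / t 1) ^ 2 + ((0 : ℤ) : Fld 2) * (t 0 / t 1) ^ 2 * (t 0 / t 1) + ((0 : ℤ) : Fld 2) * (t 0 / t 1) ^ 2 * (t 0 / t 1) ^ 2)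
  push_cast
  try field_simp
  try ring

theorem TxI_23 : Quad TxI (lam 2) (lam 3) := by
  have h0 := t_ne 0
  have h1 := t_ne 1
  have h2 := t_sub_one_ne 0
  have h3 := t_sub_one_ne 1
  refine quad_of 0 (-1) 0 (-1) 2 0 0 0 0 ?_
  rw [bil_lam]
  show (2 * (t 0 * (t 0 - 1))) * (1 / t 1) * (1 / (t 1 - 1)) + (t 1 * (t 1 - 1)) * (1 / t 1) * (-(t 0 - 1) / (t 1 - 1) ^ 2) + ((t 1 * (t 1 - 1)) * (-t 0 / t 1 ^ 2) * (1 / (t 1 - 1)) + (0) * (-t 0 / t 1 ^ 2) * (-(t 0 - 1) / (t 1 - 1) ^ 2)) =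
    ((0 : ℤ) : Fld 2) + ((-1 : ℤ) : Fld 2) * ((t 0 - 1) / (t 1 - 1)) + ((0 : ℤ) : Fld 2) * ((t 0 - 1) / (t 1 - 1)) ^ 2 +
      (((-1 : ℤ) : Fld 2) * (t 0 / t 1) + ((2 : ℤ) : Fld 2) * (t 0 / t 1) * ((t 0 - 1) / (t 1 - 1)) + ((0 : ℤ) : Fld 2) * (t 0 / t 1) * ((t 0 - 1) / (t 1 - 1)) ^ 2) +
      (((0 : ℤ) : Fld 2) * (t 0 / t 1) ^ 2 + ((0 : ℤ) : Fld 2) * (t 0 / t 1) ^ 2 * ((t 0 - 1) / (t 1 - 1)) + ((0 : ℤ) : Fld 2) * (t 0 / t 1) ^ 2 * ((t 0 - 1) / (t 1 - 1)) ^ 2)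
  push_cast
  try field_simp
  try ring

theorem TxI_24 : Quad TxI (lam 2) (lam 4) := by
  have h0 := t_ne 0
  have h1 := t_ne 1
  have h2 := t_sub_one_ne 0
  have h3 := t_sub_one_ne 1
  refine quad_of 0 (-1) 1 0 0 0 0 0 0 ?_
  rw [bil_lam]
  show (2 * (t 0 * (t 0 - 1))) * (1 / t 1) * (-(t 1 - 1) / (t 1 * (t 0 - 1) ^ 2)) + (t 1 * (t 1 - 1)) * (1 / t 1) * (t 0 / ((t 0 - 1) * t 1 ^ 2)) + ((t 1 * (t 1 - 1)) * (-t 0 / t 1 ^ 2) * (-(t 1 - 1) / (t 1 * (t 0 - 1) ^ 2)) + (0) * (-t 0 / t 1 ^ 2) * (t 0 / ((t 0 - 1) * t 1 ^ 2))) =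
    ((0 : ℤ) : Fld 2) + ((-1 : ℤ) : Fld 2) * (t 0 * (t 1 - 1) / ((t 0 - 1) * t 1)) + ((1 : ℤ) : Fld 2) * (t 0 * (t 1 - 1) / ((t 0 - 1) * t 1)) ^ 2 +
      (((0 : ℤ) : Fld 2) * (t 0 / t 1) + ((0 : ℤ) : Fld 2) * (t 0 / t 1) * (t 0 * (t 1 - 1) / ((t 0 - 1) * t 1)) + ((0 : ℤ) : Fld 2) * (t 0 / t 1) * (t 0 * (t 1 - 1) / ((t 0 - 1) * t 1)) ^ 2) +
      (((0 : ℤ) : Fld 2) * (t 0 / t 1) ^ 2 + ((0 : ℤ) : Fld 2) * (t 0 / t 1) ^ 2 * (t 0 * (t 1 - 1) / ((t 0 - 1) * t 1)) + ((0 : ℤ) : Fld 2) * (t 0 / t 1) ^ 2 * (t 0 * (t 1 - 1) / ((t 0 - 1) * t 1)) ^ 2)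
  push_cast
  try field_simp
  try ring

theorem TxI_33 : Quad TxI (lam 3) (lam 3) := by
  have h0 := t_ne 0
  have h1 := t_ne 1
  have h2 := t_sub_one_ne 0
  have h3 := t_sub_one_ne 1
  refine quad_of 0 (-2) 2 0 0 0 0 0 0 ?_
  rw [bil_lam]
  show (2 * (t 0 * (t 0 - 1))) * (1 / (t 1 - 1)) * (1 / (t 1 - 1)) + (t 1 * (t 1 - 1)) * (1 / (t 1 - 1)) * (-(t 0 - 1) / (t 1 - 1) ^ 2) + ((t 1 * (t 1 - 1)) * (-(t 0 - 1) / (t 1 - 1) ^ 2) * (1 / (t 1 - 1)) + (0) * (-(t 0 - 1) / (t 1 - 1) ^ 2) * (-(t 0 - 1) / (t 1 - 1) ^ 2)) =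
    ((0 : ℤ) : Fld 2) + ((-2 : ℤ) : Fld 2) * ((t 0 - 1) / (t 1 - 1)) + ((2 : ℤ) : Fld 2) * ((t 0 - 1) / (t 1 - 1)) ^ 2 +
      (((0 : ℤ) : Fld 2) * ((t 0 - 1) / (t 1 - 1)) + ((0 : ℤ) : Fld 2) * ((t 0 - 1) / (t 1 - 1)) * ((t 0 - 1) / (t 1 - 1)) + ((0 : ℤ) : Fld 2) * ((t 0 - 1) / (t 1 - 1)) * ((t 0 - 1) / (t 1 - 1)) ^ 2) +
      (((0 : ℤ) : Fld 2) * ((t 0 - 1) / (t 1 - 1)) ^ 2 + ((0 : ℤ) : Fld 2) * ((t 0 - 1) / (t 1 - 1)) ^ 2 * ((t 0 - 1) / (t 1 - 1)) + ((0 : ℤ) : Fld 2) * ((t 0 - 1) / (t 1 - 1)) ^ 2 * ((t 0 - 1) / (t 1 - 1)) ^ 2)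
  push_cast
  try field_simp
  try ring

theorem TxI_34 : Quad TxI (lam 3) (lam 4) := by
  have h0 := t_ne 0
  have h1 := t_ne 1
  have h2 := t_sub_one_ne 0
  have h3 := t_sub_one_ne 1
  refine quad_of (-1) 1 0 0 0 0 0 0 0 ?_
  rw [bil_lam]
  show (2 * (t 0 * (t 0 - 1))) * (1 / (t 1 - 1)) * (-(t 1 - 1) / (t 1 * (t 0 - 1) ^ 2)) + (t 1 * (t 1 - 1)) * (1 / (t 1 - 1)) * (t 0 / ((t 0 - 1) * t 1 ^ 2)) + ((t 1 * (t 1 - 1)) * (-(t 0 - 1) / (t 1 - 1) ^ 2) * (-(t 1 - 1) / (t 1 * (t 0 - 1) ^ 2)) + (0) * (-(t 0 - 1) / (t 1 - 1) ^ 2) * (t 0 / ((t 0 - 1) * t 1 ^ 2))) =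
    ((-1 : ℤ) : Fld 2) + ((1 : ℤ) : Fld 2) * (t 0 * (t 1 - 1) / ((t 0 - 1) * t 1)) + ((0 : ℤ) : Fld 2) * (t 0 * (t 1 - 1) / ((t 0 - 1) * t 1)) ^ 2 +
      (((0 : ℤ) : Fld 2) * ((t 0 - 1) / (t 1 - 1)) + ((0 : ℤ) : Fld 2) * ((t 0 - 1) / (t 1 - 1)) * (t 0 * (t 1 - 1) / ((t 0 - 1) * t 1)) + ((0 : ℤ) : Fld 2) * ((t 0 - 1) / (t 1 - 1)) * (t 0 * (t 1 - 1) / ((t 0 - 1) * t 1)) ^ 2) +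
      (((0 : ℤ) : Fld 2) * ((t 0 - 1) / (t 1 - 1)) ^ 2 + ((0 : ℤ) : Fld 2) * ((t 0 - 1) / (t 1 - 1)) ^ 2 * (t 0 * (t 1 - 1) / ((t 0 - 1) * t 1)) + ((0 : ℤ) : Fld 2) * ((t 0 - 1) / (t 1 - 1)) ^ 2 * (t 0 * (t 1 - 1) / ((t 0 - 1) * t 1)) ^ 2)
  push_cast
  try field_simp
  try ring

theorem TxI_44 : Quad TxI (lam 4) (lam 4) := by
  have h0 := t_ne 0
  have h1 := t_ne 1
  have h2 := t_sub_one_ne 0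
  have h3 := t_sub_one_ne 1
  refine quad_of 0 0 0 0 0 0 0 0 0 ?_
  rw [bil_lam]
  show (2 * (t 0 * (t 0 - 1))) * (-(t 1 - 1) / (t 1 * (t 0 - 1) ^ 2)) * (-(t 1 - 1) / (t 1 * (t 0 - 1) ^ 2)) + (t 1 * (t 1 - 1)) * (-(t 1 - 1) / (t 1 * (t 0 - 1) ^ 2)) * (t 0 / ((t 0 - 1) * t 1 ^ 2)) + ((t 1 * (t 1 - 1)) * (t 0 / ((t 0 - 1) * t 1 ^ 2)) * (-(t 1 - 1) / (t 1 * (t 0 - 1) ^ 2)) + (0) * (t 0 / ((t 0 - 1) * t 1 ^ 2)) * (t 0 / ((t 0 - 1) * t 1 ^ 2))) =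
    ((0 : ℤ) : Fld 2) + ((0 : ℤ) : Fld 2) * (t 0 * (t 1 - 1) / ((t 0 - 1) * t 1)) + ((0 : ℤ) : Fld 2) * (t 0 * (t 1 - 1) / ((t 0 - 1) * t 1)) ^ 2 +
      (((0 : ℤ) : Fld 2) * (t 0 * (t 1 - 1) / ((t 0 - 1) * t 1)) + ((0 : ℤ) : Fld 2) * (t 0 * (t 1 - 1) / ((t 0 - 1) * t 1)) * (t 0 * (t 1 - 1) / ((t 0 - 1) * t 1)) + ((0 : ℤ) : Fld 2) * (t 0 * (t 1 - 1) / ((t 0 - 1) * t 1)) * (t 0 * (t 1 - 1) / ((t 0 - 1) * t 1)) ^ 2) +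
      (((0 : ℤ) : Fld 2) * (t 0 * (t 1 - 1) / ((t 0 - 1) * t 1)) ^ 2 + ((0 : ℤ) : Fld 2) * (t 0 * (t 1 - 1) / ((t 0 - 1) * t 1)) ^ 2 * (t 0 * (t 1 - 1) / ((t 0 - 1) * t 1)) + ((0 : ℤ) : Fld 2) * (t 0 * (t 1 - 1) / ((t 0 - 1) * t 1)) ^ 2 * (t 0 * (t 1 - 1) / ((t 0 - 1) * t 1)) ^ 2)
  push_cast
  try field_simp
  try ring

/-- The matrix of a quadratic tensor. -/
def TyI : Fin 2 → Fin 2 → Fld 2 := ![![0, t 0 * (t 0 - 1)], ![t 0 * (t 0 - 1), 2 * (t 1 * (t 1 - 1))]]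

theorem TyI_symm (i j : Fin 2) : TyI i j = TyI j i := by
  fin_cases i <;> fin_cases j <;> rfl

theorem TyI_00 : Quad TyI (lam 0) (lam 0) := by
  have h0 := t_ne 0
  have h1 := t_ne 1
  have h2 := t_sub_one_ne 0
  have h3 := t_sub_one_ne 1
  refine quad_of 0 0 0 0 0 0 0 0 0 ?_
  rw [bil_lam]
  show (0) * 1 * 1 + (t 0 * (t 0 - 1)) * 1 * 0 + ((t 0 * (t 0 - 1)) * 0 * 1 + (2 * (t 1 * (t 1 - 1))) * 0 * 0) =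
    ((0 : ℤ) : Fld 2) + ((0 : ℤ) : Fld 2) * (t 0) + ((0 : ℤ) : Fld 2) * (t 0) ^ 2 +
      (((0 : ℤ) : Fld 2) * (t 0) + ((0 : ℤ) : Fld 2) * (t 0) * (t 0) + ((0 : ℤ) : Fld 2) * (t 0) * (t 0) ^ 2) +
      (((0 : ℤ) : Fld 2) * (t 0) ^ 2 + ((0 : ℤ) : Fld 2) * (t 0) ^ 2 * (t 0) + ((0 : ℤ) : Fld 2) * (t 0) ^ 2 * (t 0) ^ 2)
  push_cast
  try field_simp
  try ring

theorem TyI_01 : Quad TyI (lam 0) (lam 1) := by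
  have h0 := t_ne 0
  have h1 := t_ne 1
  have h2 := t_sub_one_ne 0
  have h3 := t_sub_one_ne 1
  refine quad_of 0 0 0 (-1) 0 0 1 0 0 ?_
  rw [bil_lam]
  show (0) * 1 * 0 + (t 0 * (t 0 - 1)) * 1 * 1 + ((t 0 * (t 0 - 1)) * 0 * 0 + (2 * (t 1 * (t 1 - 1))) * 0 * 1) =
    ((0 : ℤ) : Fld 2) + ((0 : ℤ) : Fld 2) * (t 1) + ((0 : ℤ) : Fld 2) * (t 1) ^ 2 +
      (((-1 : ℤ) : Fld 2) * (t 0) + ((0 : ℤ) : Fld 2) * (t 0) * (t 1) + ((0 : ℤ) : Fld 2) * (t 0) * (t 1) ^ 2) +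
      (((1 : ℤ) : Fld 2) * (t 0) ^ 2 + ((0 : ℤ) : Fld 2) * (t 0) ^ 2 * (t 1) + ((0 : ℤ) : Fld 2) * (t 0) ^ 2 * (t 1) ^ 2)
  push_cast
  try field_simp
  try ring

theorem TyI_02 : Quad TyI (lam 0) (lam 2) := by
  have h0 := t_ne 0
  have h1 := t_ne 1
  have h2 := t_sub_one_ne 0
  have h3 := t_sub_one_ne 1
  refine quad_of 0 0 1 0 0 (-1) 0 0 0 ?_
  rw [bil_lam]
  show (0) * 1 * (1 / t 1) + (t 0 * (t 0 - 1)) * 1 * (-t 0 / t 1 ^ 2) + ((t 0 * (t 0 - 1)) * 0 * (1 / t 1) + (2 * (t 1 * (t 1 - 1))) * 0 * (-t 0 / t 1 ^ 2)) =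
    ((0 : ℤ) : Fld 2) + ((0 : ℤ) : Fld 2) * (t 0 / t 1) + ((1 : ℤ) : Fld 2) * (t 0 / t 1) ^ 2 +
      (((0 : ℤ) : Fld 2) * (t 0) + ((0 : ℤ) : Fld 2) * (t 0) * (t 0 / t 1) + ((-1 : ℤ) : Fld 2) * (t 0) * (t 0 / t 1) ^ 2) +
      (((0 : ℤ) : Fld 2) * (t 0) ^ 2 + ((0 : ℤ) : Fld 2) * (t 0) ^ 2 * (t 0 / t 1) + ((0 : ℤ) : Fld 2) * (t 0) ^ 2 * (t 0 / t 1) ^ 2)
  push_cast
  try field_simp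
  try ring

theorem TyI_03 : Quad TyI (lam 0) (lam 3) := by
  have h0 := t_ne 0
  have h1 := t_ne 1
  have h2 := t_sub_one_ne 0
  have h3 := t_sub_one_ne 1
  refine quad_of 0 0 0 0 0 (-1) 0 0 0 ?_
  rw [bil_lam]
  show (0) * 1 * (1 / (t 1 - 1)) + (t 0 * (t 0 - 1)) * 1 * (-(t 0 - 1) / (t 1 - 1) ^ 2) + ((t 0 * (t 0 - 1)) * 0 * (1 / (t 1 - 1)) + (2 * (t 1 * (t 1 - 1))) * 0 * (-(t 0 - 1) / (t 1 - 1) ^ 2)) =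
    ((0 : ℤ) : Fld 2) + ((0 : ℤ) : Fld 2) * ((t 0 - 1) / (t 1 - 1)) + ((0 : ℤ) : Fld 2) * ((t 0 - 1) / (t 1 - 1)) ^ 2 +
      (((0 : ℤ) : Fld 2) * (t 0) + ((0 : ℤ) : Fld 2) * (t 0) * ((t 0 - 1) / (t 1 - 1)) + ((-1 : ℤ) : Fld 2) * (t 0) * ((t 0 - 1) / (t 1 - 1)) ^ 2) +
      (((0 : ℤ) : Fld 2) * (t 0) ^ 2 + ((0 : ℤ) : Fld 2) * (t 0) ^ 2 * ((t 0 - 1) / (t 1 - 1)) + ((0 : ℤ) : Fld 2) * (t 0) ^ 2 * ((t 0 - 1) / (t 1 - 1)) ^ 2)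
  push_cast
  try field_simp
  try ring

theorem TyI_04 : Quad TyI (lam 0) (lam 4) := by
  have h0 := t_ne 0
  have h1 := t_ne 1
  have h2 := t_sub_one_ne 0
  have h3 := t_sub_one_ne 1
  refine quad_of 0 0 1 0 2 (-2) 1 (-2) 1 ?_
  rw [bil_lam]
  show (0) * 1 * (-(t 1 - 1) / (t 1 * (t 0 - 1) ^ 2)) + (t 0 * (t 0 - 1)) * 1 * (t 0 / ((t 0 - 1) * t 1 ^ 2)) + ((t 0 * (t 0 - 1)) * 0 * (-(t 1 - 1) / (t 1 * (t 0 - 1) ^ 2)) + (2 * (t 1 * (t 1 - 1))) * 0 * (t 0 / ((t 0 - 1) * t 1 ^ 2))) =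
    ((0 : ℤ) : Fld 2) + ((0 : ℤ) : Fld 2) * (t 0 * (t 1 - 1) / ((t 0 - 1) * t 1)) + ((1 : ℤ) : Fld 2) * (t 0 * (t 1 - 1) / ((t 0 - 1) * t 1)) ^ 2 +
      (((0 : ℤ) : Fld 2) * (t 0) + ((2 : ℤ) : Fld 2) * (t 0) * (t 0 * (t 1 - 1) / ((t 0 - 1) * t 1)) + ((-2 : ℤ) : Fld 2) * (t 0) * (t 0 * (t 1 - 1) / ((t 0 - 1) * t 1)) ^ 2) +
      (((1 : ℤ) : Fld 2) * (t 0) ^ 2 + ((-2 : ℤ) : Fld 2) * (t 0) ^ 2 * (t 0 * (t 1 - 1) / ((t 0 - 1) * t 1)) + ((1 : ℤ) : Fld 2) * (t 0) ^ 2 * (t 0 * (t 1 - 1) / ((t 0 - 1) * t 1)) ^ 2)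
  push_cast
  try field_simp
  try ring

theorem TyI_11 : Quad TyI (lam 1) (lam 1) := by
  have h0 := t_ne 0
  have h1 := t_ne 1
  have h2 := t_sub_one_ne 0
  have h3 := t_sub_one_ne 1
  refine quad_of 0 (-2) 2 0 0 0 0 0 0 ?_
  rw [bil_lam]
  show (0) * 0 * 0 + (t 0 * (t 0 - 1)) * 0 * 1 + ((t 0 * (t 0 - 1)) * 1 * 0 + (2 * (t 1 * (t 1 - 1))) * 1 * 1) =
    ((0 : ℤ) : Fld 2) + ((-2 : ℤ) : Fld 2) * (t 1) + ((2 : ℤ) : Fld 2) * (t 1) ^ 2 +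
      (((0 : ℤ) : Fld 2) * (t 1) + ((0 : ℤ) : Fld 2) * (t 1) * (t 1) + ((0 : ℤ) : Fld 2) * (t 1) * (t 1) ^ 2) +
      (((0 : ℤ) : Fld 2) * (t 1) ^ 2 + ((0 : ℤ) : Fld 2) * (t 1) ^ 2 * (t 1) + ((0 : ℤ) : Fld 2) * (t 1) ^ 2 * (t 1) ^ 2)
  push_cast
  try field_simp
  try ring

theorem TyI_12 : Quad TyI (lam 1) (lam 2) := by
  have h0 := t_ne 0
  have h1 := t_ne 1
  have h2 := t_sub_one_ne 0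
  have h3 := t_sub_one_ne 1
  refine quad_of 0 1 0 0 (-2) 1 0 0 0 ?_
  rw [bil_lam]
  show (0) * 0 * (1 / t 1) + (t 0 * (t 0 - 1)) * 0 * (-t 0 / t 1 ^ 2) + ((t 0 * (t 0 - 1)) * 1 * (1 / t 1) + (2 * (t 1 * (t 1 - 1))) * 1 * (-t 0 / t 1 ^ 2)) =
    ((0 : ℤ) : Fld 2) + ((1 : ℤ) : Fld 2) * (t 0 / t 1) + ((0 : ℤ) : Fld 2) * (t 0 / t 1) ^ 2 +
      (((0 : ℤ) : Fld 2) * (t 1) + ((-2 : ℤ) : Fld 2) * (t 1) * (t 0 / t 1) + ((1 : ℤ) : Fld 2) * (t 1) * (t 0 / t 1) ^ 2) +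
      (((0 : ℤ) : Fld 2) * (t 1) ^ 2 + ((0 : ℤ) : Fld 2) * (t 1) ^ 2 * (t 0 / t 1) + ((0 : ℤ) : Fld 2) * (t 1) ^ 2 * (t 0 / t 1) ^ 2)
  push_cast
  try field_simp
  try ring

theorem TyI_13 : Quad TyI (lam 1) (lam 3) := by
  have h0 := t_ne 0
  have h1 := t_ne 1
  have h2 := t_sub_one_ne 0
  have h3 := t_sub_one_ne 1
  refine quad_of 0 1 (-1) 0 (-2) 1 0 0 0 ?_
  rw [bil_lam]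
  show (0) * 0 * (1 / (t 1 - 1)) + (t 0 * (t 0 - 1)) * 0 * (-(t 0 - 1) / (t 1 - 1) ^ 2) + ((t 0 * (t 0 - 1)) * 1 * (1 / (t 1 - 1)) + (2 * (t 1 * (t 1 - 1))) * 1 * (-(t 0 - 1) / (t 1 - 1) ^ 2)) =
    ((0 : ℤ) : Fld 2) + ((1 : ℤ) : Fld 2) * ((t 0 - 1) / (t 1 - 1)) + ((-1 : ℤ) : Fld 2) * ((t 0 - 1) / (t 1 - 1)) ^ 2 +
      (((0 : ℤ) : Fld 2) * (t 1) + ((-2 : ℤ) : Fld 2) * (t 1) * ((t 0 - 1) / (t 1 - 1)) + ((1 : ℤ) : Fld 2) * (t 1) * ((t 0 - 1) / (t 1 - 1)) ^ 2) +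
      (((0 : ℤ) : Fld 2) * (t 1) ^ 2 + ((0 : ℤ) : Fld 2) * (t 1) ^ 2 * ((t 0 - 1) / (t 1 - 1)) + ((0 : ℤ) : Fld 2) * (t 1) ^ 2 * ((t 0 - 1) / (t 1 - 1)) ^ 2)
  push_cast
  try field_simp
  try ring

theorem TyI_14 : Quad TyI (lam 1) (lam 4) := by
  have h0 := t_ne 0
  have h1 := t_ne 1
  have h2 := t_sub_one_ne 0
  have h3 := t_sub_one_ne 1
  refine quad_of 0 1 0 0 0 0 0 0 0 ?_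
  rw [bil_lam]
  show (0) * 0 * (-(t 1 - 1) / (t 1 * (t 0 - 1) ^ 2)) + (t 0 * (t 0 - 1)) * 0 * (t 0 / ((t 0 - 1) * t 1 ^ 2)) + ((t 0 * (t 0 - 1)) * 1 * (-(t 1 - 1) / (t 1 * (t 0 - 1) ^ 2)) + (2 * (t 1 * (t 1 - 1))) * 1 * (t 0 / ((t 0 - 1) * t 1 ^ 2))) =
    ((0 : ℤ) : Fld 2) + ((1 : ℤ) : Fld 2) * (t 0 * (t 1 - 1) / ((t 0 - 1) * t 1)) + ((0 : ℤ) : Fld 2) * (t 0 * (t 1 - 1) / ((t 0 - 1) * t 1)) ^ 2 +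
      (((0 : ℤ) : Fld 2) * (t 1) + ((0 : ℤ) : Fld 2) * (t 1) * (t 0 * (t 1 - 1) / ((t 0 - 1) * t 1)) + ((0 : ℤ) : Fld 2) * (t 1) * (t 0 * (t 1 - 1) / ((t 0 - 1) * t 1)) ^ 2) +
      (((0 : ℤ) : Fld 2) * (t 1) ^ 2 + ((0 : ℤ) : Fld 2) * (t 1) ^ 2 * (t 0 * (t 1 - 1) / ((t 0 - 1) * t 1)) + ((0 : ℤ) : Fld 2) * (t 1) ^ 2 * (t 0 * (t 1 - 1) / ((t 0 - 1) * t 1)) ^ 2)
  push_cast
  try field_simp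
  try ring

theorem TyI_22 : Quad TyI (lam 2) (lam 2) := by
  have h0 := t_ne 0
  have h1 := t_ne 1
  have h2 := t_sub_one_ne 0
  have h3 := t_sub_one_ne 1
  refine quad_of 0 0 2 0 0 (-2) 0 0 0 ?_
  rw [bil_lam]
  show (0) * (1 / t 1) * (1 / t 1) + (t 0 * (t 0 - 1)) * (1 / t 1) * (-t 0 / t 1 ^ 2) + ((t 0 * (t 0 - 1)) * (-t 0 / t 1 ^ 2) * (1 / t 1) + (2 * (t 1 * (t 1 - 1))) * (-t 0 / t 1 ^ 2) * (-t 0 / t 1 ^ 2)) =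
    ((0 : ℤ) : Fld 2) + ((0 : ℤ) : Fld 2) * (t 0 / t 1) + ((2 : ℤ) : Fld 2) * (t 0 / t 1) ^ 2 +
      (((0 : ℤ) : Fld 2) * (t 0 / t 1) + ((0 : ℤ) : Fld 2) * (t 0 / t 1) * (t 0 / t 1) + ((-2 : ℤ) : Fld 2) * (t 0 / t 1) * (t 0 / t 1) ^ 2) +
      (((0 : ℤ) : Fld 2) * (t 0 / t 1) ^ 2 + ((0 : ℤ) : Fld 2) * (t 0 / t 1) ^ 2 * (t 0 / t 1) + ((0 : ℤ) : Fld 2) * (t 0 / t 1) ^ 2 * (t 0 / t 1) ^ 2)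
  push_cast
  try field_simp
  try ring

theorem TyI_23 : Quad TyI (lam 2) (lam 3) := by
  have h0 := t_ne 0
  have h1 := t_ne 1
  have h2 := t_sub_one_ne 0
  have h3 := t_sub_one_ne 1
  refine quad_of 0 0 0 0 2 (-1) 0 (-1) 0 ?_
  rw [bil_lam]
  show (0) * (1 / t 1) * (1 / (t 1 - 1)) + (t 0 * (t 0 - 1)) * (1 / t 1) * (-(t 0 - 1) / (t 1 - 1) ^ 2) + ((t 0 * (t 0 - 1)) * (-t 0 / t 1 ^ 2) * (1 / (t 1 - 1)) + (2 * (t 1 * (t 1 - 1))) * (-t 0 / t 1 ^ 2) * (-(t 0 - 1) / (t 1 - 1) ^ 2)) =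
    ((0 : ℤ) : Fld 2) + ((0 : ℤ) : Fld 2) * ((t 0 - 1) / (t 1 - 1)) + ((0 : ℤ) : Fld 2) * ((t 0 - 1) / (t 1 - 1)) ^ 2 +
      (((0 : ℤ) : Fld 2) * (t 0 / t 1) + ((2 : ℤ) : Fld 2) * (t 0 / t 1) * ((t 0 - 1) / (t 1 - 1)) + ((-1 : ℤ) : Fld 2) * (t 0 / t 1) * ((t 0 - 1) / (t 1 - 1)) ^ 2) +
      (((0 : ℤ) : Fld 2) * (t 0 / t 1) ^ 2 + ((-1 : ℤ) : Fld 2) * (t 0 / t 1) ^ 2 * ((t 0 - 1) / (t 1 - 1)) + ((0 : ℤ) : Fld 2) * (t 0 / t 1) ^ 2 * ((t 0 - 1) / (t 1 - 1)) ^ 2)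
  push_cast
  try field_simp
  try ring

theorem TyI_24 : Quad TyI (lam 2) (lam 4) := by
  have h0 := t_ne 0
  have h1 := t_ne 1
  have h2 := t_sub_one_ne 0
  have h3 := t_sub_one_ne 1
  refine quad_of 0 0 0 0 0 0 1 (-1) 0 ?_
  rw [bil_lam]
  show (0) * (1 / t 1) * (-(t 1 - 1) / (t 1 * (t 0 - 1) ^ 2)) + (t 0 * (t 0 - 1)) * (1 / t 1) * (t 0 / ((t 0 - 1) * t 1 ^ 2)) + ((t 0 * (t 0 - 1)) * (-t 0 / t 1 ^ 2) * (-(t 1 - 1) / (t 1 * (t 0 - 1) ^ 2)) + (2 * (t 1 * (t 1 - 1))) * (-t 0 / t 1 ^ 2) * (t 0 / ((t 0 - 1) * t 1 ^ 2))) =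
    ((0 : ℤ) : Fld 2) + ((0 : ℤ) : Fld 2) * (t 0 * (t 1 - 1) / ((t 0 - 1) * t 1)) + ((0 : ℤ) : Fld 2) * (t 0 * (t 1 - 1) / ((t 0 - 1) * t 1)) ^ 2 +
      (((0 : ℤ) : Fld 2) * (t 0 / t 1) + ((0 : ℤ) : Fld 2) * (t 0 / t 1) * (t 0 * (t 1 - 1) / ((t 0 - 1) * t 1)) + ((0 : ℤ) : Fld 2) * (t 0 / t 1) * (t 0 * (t 1 - 1) / ((t 0 - 1) * t 1)) ^ 2) +
      (((1 : ℤ) : Fld 2) * (t 0 / t 1) ^ 2 + ((-1 : ℤ) : Fld 2) * (t 0 / t 1) ^ 2 * (t 0 * (t 1 - 1) / ((t 0 - 1) * t 1)) + ((0 : ℤ) : Fld 2) * (t 0 / t 1) ^ 2 * (t 0 * (t 1 - 1) / ((t 0 - 1) * t 1)) ^ 2)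
  push_cast
  try field_simp
  try ring

theorem TyI_33 : Quad TyI (lam 3) (lam 3) := by
  have h0 := t_ne 0
  have h1 := t_ne 1
  have h2 := t_sub_one_ne 0
  have h3 := t_sub_one_ne 1
  refine quad_of 0 0 2 0 0 (-2) 0 0 0 ?_
  rw [bil_lam]
  show (0) * (1 / (t 1 - 1)) * (1 / (t 1 - 1)) + (t 0 * (t 0 - 1)) * (1 / (t 1 - 1)) * (-(t 0 - 1) / (t 1 - 1) ^ 2) + ((t 0 * (t 0 - 1)) * (-(t 0 - 1) / (t 1 - 1) ^ 2) * (1 / (t 1 - 1)) + (2 * (t 1 * (t 1 - 1))) * (-(t 0 - 1) / (t 1 - 1) ^ 2) * (-(t 0 - 1) / (t 1 - 1) ^ 2)) =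
    ((0 : ℤ) : Fld 2) + ((0 : ℤ) : Fld 2) * ((t 0 - 1) / (t 1 - 1)) + ((2 : ℤ) : Fld 2) * ((t 0 - 1) / (t 1 - 1)) ^ 2 +
      (((0 : ℤ) : Fld 2) * ((t 0 - 1) / (t 1 - 1)) + ((0 : ℤ) : Fld 2) * ((t 0 - 1) / (t 1 - 1)) * ((t 0 - 1) / (t 1 - 1)) + ((-2 : ℤ) : Fld 2) * ((t 0 - 1) / (t 1 - 1)) * ((t 0 - 1) / (t 1 - 1)) ^ 2) +
      (((0 : ℤ) : Fld 2) * ((t 0 - 1) / (t 1 - 1)) ^ 2 + ((0 : ℤ) : Fld 2) * ((t 0 - 1) / (t 1 - 1)) ^ 2 * ((t 0 - 1) / (t 1 - 1)) + ((0 : ℤ) : Fld 2) * ((t 0 - 1) / (t 1 - 1)) ^ 2 * ((t 0 - 1) / (t 1 - 1)) ^ 2)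
  push_cast
  try field_simp
  try ring

theorem TyI_34 : Quad TyI (lam 3) (lam 4) := by
  have h0 := t_ne 0
  have h1 := t_ne 1
  have h2 := t_sub_one_ne 0
  have h3 := t_sub_one_ne 1
  refine quad_of 0 0 0 0 0 0 0 1 (-1) ?_
  rw [bil_lam]
  show (0) * (1 / (t 1 - 1)) * (-(t 1 - 1) / (t 1 * (t 0 - 1) ^ 2)) + (t 0 * (t 0 - 1)) * (1 / (t 1 - 1)) * (t 0 / ((t 0 - 1) * t 1 ^ 2)) + ((t 0 * (t 0 - 1)) * (-(t 0 - 1) / (t 1 - 1) ^ 2) * (-(t 1 - 1) / (t 1 * (t 0 - 1) ^ 2)) + (2 * (t 1 * (t 1 - 1))) * (-(t 0 - 1) / (t 1 - 1) ^ 2) * (t 0 / ((t 0 - 1) * t 1 ^ 2))) =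
    ((0 : ℤ) : Fld 2) + ((0 : ℤ) : Fld 2) * (t 0 * (t 1 - 1) / ((t 0 - 1) * t 1)) + ((0 : ℤ) : Fld 2) * (t 0 * (t 1 - 1) / ((t 0 - 1) * t 1)) ^ 2 +
      (((0 : ℤ) : Fld 2) * ((t 0 - 1) / (t 1 - 1)) + ((0 : ℤ) : Fld 2) * ((t 0 - 1) / (t 1 - 1)) * (t 0 * (t 1 - 1) / ((t 0 - 1) * t 1)) + ((0 : ℤ) : Fld 2) * ((t 0 - 1) / (t 1 - 1)) * (t 0 * (t 1 - 1) / ((t 0 - 1) * t 1)) ^ 2) +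
      (((0 : ℤ) : Fld 2) * ((t 0 - 1) / (t 1 - 1)) ^ 2 + ((1 : ℤ) : Fld 2) * ((t 0 - 1) / (t 1 - 1)) ^ 2 * (t 0 * (t 1 - 1) / ((t 0 - 1) * t 1)) + ((-1 : ℤ) : Fld 2) * ((t 0 - 1) / (t 1 - 1)) ^ 2 * (t 0 * (t 1 - 1) / ((t 0 - 1) * t 1)) ^ 2)
  push_cast
  try field_simp
  try ring

theorem TyI_44 : Quad TyI (lam 4) (lam 4) := by
  have h0 := t_ne 0
  have h1 := t_ne 1
  have h2 := t_sub_one_ne 0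
  have h3 := t_sub_one_ne 1
  refine quad_of 0 0 0 0 0 0 0 0 0 ?_
  rw [bil_lam]
  show (0) * (-(t 1 - 1) / (t 1 * (t 0 - 1) ^ 2)) * (-(t 1 - 1) / (t 1 * (t 0 - 1) ^ 2)) + (t 0 * (t 0 - 1)) * (-(t 1 - 1) / (t 1 * (t 0 - 1) ^ 2)) * (t 0 / ((t 0 - 1) * t 1 ^ 2)) + ((t 0 * (t 0 - 1)) * (t 0 / ((t 0 - 1) * t 1 ^ 2)) * (-(t 1 - 1) / (t 1 * (t 0 - 1) ^ 2)) + (2 * (t 1 * (t 1 - 1))) * (t 0 / ((t 0 - 1) * t 1 ^ 2)) * (t 0 / ((t 0 - 1) * t 1 ^ 2))) =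
    ((0 : ℤ) : Fld 2) + ((0 : ℤ) : Fld 2) * (t 0 * (t 1 - 1) / ((t 0 - 1) * t 1)) + ((0 : ℤ) : Fld 2) * (t 0 * (t 1 - 1) / ((t 0 - 1) * t 1)) ^ 2 +
      (((0 : ℤ) : Fld 2) * (t 0 * (t 1 - 1) / ((t 0 - 1) * t 1)) + ((0 : ℤ) : Fld 2) * (t 0 * (t 1 - 1) / ((t 0 - 1) * t 1)) * (t 0 * (t 1 - 1) / ((t 0 - 1) * t 1)) + ((0 : ℤ) : Fld 2) * (t 0 * (t 1 - 1) / ((t 0 - 1) * t 1)) * (t 0 * (t 1 - 1) / ((t 0 - 1) * t 1)) ^ 2) +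
      (((0 : ℤ) : Fld 2) * (t 0 * (t 1 - 1) / ((t 0 - 1) * t 1)) ^ 2 + ((0 : ℤ) : Fld 2) * (t 0 * (t 1 - 1) / ((t 0 - 1) * t 1)) ^ 2 * (t 0 * (t 1 - 1) / ((t 0 - 1) * t 1)) + ((0 : ℤ) : Fld 2) * (t 0 * (t 1 - 1) / ((t 0 - 1) * t 1)) ^ 2 * (t 0 * (t 1 - 1) / ((t 0 - 1) * t 1)) ^ 2)
  push_cast
  try field_simp
  try ring

/-- The matrix of a quadratic tensor. -/
def Tx0 : Fin 2 → Fin 2 → Fld 2 := ![![2 * (t 0 ^ 2 * (t 0 - 1)), t 0 ^ 2 * (t 1 - 1)], ![t 0 ^ 2 * (t 1 - 1), 0]]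

theorem Tx0_symm (i j : Fin 2) : Tx0 i j = Tx0 j i := by
  fin_cases i <;> fin_cases j <;> rfl

theorem Tx0_00 : Quad Tx0 (lam 0) (lam 0) := by
  have h0 := t_ne 0
  have h1 := t_ne 1
  have h2 := t_sub_one_ne 0
  have h3 := t_sub_one_ne 1
  refine quad_of 0 0 (-2) 0 0 2 0 0 0 ?_
  rw [bil_lam]
  show (2 * (t 0 ^ 2 * (t 0 - 1))) * 1 * 1 + (t 0 ^ 2 * (t 1 - 1)) * 1 * 0 + ((t 0 ^ 2 * (t 1 - 1)) * 0 * 1 + (0) * 0 * 0) =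
    ((0 : ℤ) : Fld 2) + ((0 : ℤ) : Fld 2) * (t 0) + ((-2 : ℤ) : Fld 2) * (t 0) ^ 2 +
      (((0 : ℤ) : Fld 2) * (t 0) + ((0 : ℤ) : Fld 2) * (t 0) * (t 0) + ((2 : ℤ) : Fld 2) * (t 0) * (t 0) ^ 2) +
      (((0 : ℤ) : Fld 2) * (t 0) ^ 2 + ((0 : ℤ) : Fld 2) * (t 0) ^ 2 * (t 0) + ((0 : ℤ) : Fld 2) * (t 0) ^ 2 * (t 0) ^ 2)
  push_cast
  try field_simp
  try ring

theorem Tx0_01 : Quad Tx0 (lam 0) (lam 1) := by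
  have h0 := t_ne 0
  have h1 := t_ne 1
  have h2 := t_sub_one_ne 0
  have h3 := t_sub_one_ne 1
  refine quad_of 0 0 0 0 0 0 (-1) 1 0 ?_
  rw [bil_lam]
  show (2 * (t 0 ^ 2 * (t 0 - 1))) * 1 * 0 + (t 0 ^ 2 * (t 1 - 1)) * 1 * 1 + ((t 0 ^ 2 * (t 1 - 1)) * 0 * 0 + (0) * 0 * 1) =
    ((0 : ℤ) : Fld 2) + ((0 : ℤ) : Fld 2) * (t 1) + ((0 : ℤ) : Fld 2) * (t 1) ^ 2 +
      (((0 : ℤ) : Fld 2) * (t 0) + ((0 : ℤ) : Fld 2) * (t 0) * (t 1) + ((0 : ℤ) : Fld 2) * (t 0) * (t 1) ^ 2) +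
      (((-1 : ℤ) : Fld 2) * (t 0) ^ 2 + ((1 : ℤ) : Fld 2) * (t 0) ^ 2 * (t 1) + ((0 : ℤ) : Fld 2) * (t 0) ^ 2 * (t 1) ^ 2)
  push_cast
  try field_simp
  try ring

theorem Tx0_02 : Quad Tx0 (lam 0) (lam 2) := by
  have h0 := t_ne 0
  have h1 := t_ne 1
  have h2 := t_sub_one_ne 0
  have h3 := t_sub_one_ne 1
  refine quad_of 0 0 0 0 (-2) 1 0 1 0 ?_
  rw [bil_lam]
  show (2 * (t 0 ^ 2 * (t 0 - 1))) * 1 * (1 / t 1) + (t 0 ^ 2 * (t 1 - 1)) * 1 * (-t 0 / t 1 ^ 2) + ((t 0 ^ 2 * (t 1 - 1)) * 0 * (1 / t 1) + (0) * 0 * (-t 0 / t 1 ^ 2)) =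
    ((0 : ℤ) : Fld 2) + ((0 : ℤ) : Fld 2) * (t 0 / t 1) + ((0 : ℤ) : Fld 2) * (t 0 / t 1) ^ 2 +
      (((0 : ℤ) : Fld 2) * (t 0) + ((-2 : ℤ) : Fld 2) * (t 0) * (t 0 / t 1) + ((1 : ℤ) : Fld 2) * (t 0) * (t 0 / t 1) ^ 2) +
      (((0 : ℤ) : Fld 2) * (t 0) ^ 2 + ((1 : ℤ) : Fld 2) * (t 0) ^ 2 * (t 0 / t 1) + ((0 : ℤ) : Fld 2) * (t 0) ^ 2 * (t 0 / t 1) ^ 2)
  push_cast
  try field_simp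
  try ring

theorem Tx0_03 : Quad Tx0 (lam 0) (lam 3) := by
  have h0 := t_ne 0
  have h1 := t_ne 1
  have h2 := t_sub_one_ne 0
  have h3 := t_sub_one_ne 1
  refine quad_of 0 0 0 0 0 0 0 1 0 ?_
  rw [bil_lam]
  show (2 * (t 0 ^ 2 * (t 0 - 1))) * 1 * (1 / (t 1 - 1)) + (t 0 ^ 2 * (t 1 - 1)) * 1 * (-(t 0 - 1) / (t 1 - 1) ^ 2) + ((t 0 ^ 2 * (t 1 - 1)) * 0 * (1 / (t 1 - 1)) + (0) * 0 * (-(t 0 - 1) / (t 1 - 1) ^ 2)) =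
    ((0 : ℤ) : Fld 2) + ((0 : ℤ) : Fld 2) * ((t 0 - 1) / (t 1 - 1)) + ((0 : ℤ) : Fld 2) * ((t 0 - 1) / (t 1 - 1)) ^ 2 +
      (((0 : ℤ) : Fld 2) * (t 0) + ((0 : ℤ) : Fld 2) * (t 0) * ((t 0 - 1) / (t 1 - 1)) + ((0 : ℤ) : Fld 2) * (t 0) * ((t 0 - 1) / (t 1 - 1)) ^ 2) +
      (((0 : ℤ) : Fld 2) * (t 0) ^ 2 + ((1 : ℤ) : Fld 2) * (t 0) ^ 2 * ((t 0 - 1) / (t 1 - 1)) + ((0 : ℤ) : Fld 2) * (t 0) ^ 2 * ((t 0 - 1) / (t 1 - 1)) ^ 2)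
  push_cast
  try field_simp
  try ring

theorem Tx0_04 : Quad Tx0 (lam 0) (lam 4) := by
  have h0 := t_ne 0
  have h1 := t_ne 1
  have h2 := t_sub_one_ne 0
  have h3 := t_sub_one_ne 1
  refine quad_of 0 0 0 0 (-2) 1 0 1 (-1) ?_
  rw [bil_lam]
  show (2 * (t 0 ^ 2 * (t 0 - 1))) * 1 * (-(t 1 - 1) / (t 1 * (t 0 - 1) ^ 2)) + (t 0 ^ 2 * (t 1 - 1)) * 1 * (t 0 / ((t 0 - 1) * t 1 ^ 2)) + ((t 0 ^ 2 * (t 1 - 1)) * 0 * (-(t 1 - 1) / (t 1 * (t 0 - 1) ^ 2)) + (0) * 0 * (t 0 / ((t 0 - 1) * t 1 ^ 2))) =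
    ((0 : ℤ) : Fld 2) + ((0 : ℤ) : Fld 2) * (t 0 * (t 1 - 1) / ((t 0 - 1) * t 1)) + ((0 : ℤ) : Fld 2) * (t 0 * (t 1 - 1) / ((t 0 - 1) * t 1)) ^ 2 +
      (((0 : ℤ) : Fld 2) * (t 0) + ((-2 : ℤ) : Fld 2) * (t 0) * (t 0 * (t 1 - 1) / ((t 0 - 1) * t 1)) + ((1 : ℤ) : Fld 2) * (t 0) * (t 0 * (t 1 - 1) / ((t 0 - 1) * t 1)) ^ 2) +
      (((0 : ℤ) : Fld 2) * (t 0) ^ 2 + ((1 : ℤ) : Fld 2) * (t 0) ^ 2 * (t 0 * (t 1 - 1) / ((t 0 - 1) * t 1)) + ((-1 : ℤ) : Fld 2) * (t 0) ^ 2 * (t 0 * (t 1 - 1) / ((t 0 - 1) * t 1)) ^ 2)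
  push_cast
  try field_simp
  try ring

theorem Tx0_11 : Quad Tx0 (lam 1) (lam 1) := by
  have h0 := t_ne 0
  have h1 := t_ne 1
  have h2 := t_sub_one_ne 0
  have h3 := t_sub_one_ne 1
  refine quad_of 0 0 0 0 0 0 0 0 0 ?_
  rw [bil_lam]
  show (2 * (t 0 ^ 2 * (t 0 - 1))) * 0 * 0 + (t 0 ^ 2 * (t 1 - 1)) * 0 * 1 + ((t 0 ^ 2 * (t 1 - 1)) * 1 * 0 + (0) * 1 * 1) =
    ((0 : ℤ) : Fld 2) + ((0 : ℤ) : Fld 2) * (t 1) + ((0 : ℤ) : Fld 2) * (t 1) ^ 2 +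
      (((0 : ℤ) : Fld 2) * (t 1) + ((0 : ℤ) : Fld 2) * (t 1) * (t 1) + ((0 : ℤ) : Fld 2) * (t 1) * (t 1) ^ 2) +
      (((0 : ℤ) : Fld 2) * (t 1) ^ 2 + ((0 : ℤ) : Fld 2) * (t 1) ^ 2 * (t 1) + ((0 : ℤ) : Fld 2) * (t 1) ^ 2 * (t 1) ^ 2)
  push_cast
  try field_simp
  try ring

theorem Tx0_12 : Quad Tx0 (lam 1) (lam 2) := by
  have h0 := t_ne 0
  have h1 := t_ne 1
  have h2 := t_sub_one_ne 0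
  have h3 := t_sub_one_ne 1
  refine quad_of 0 0 0 0 0 (-1) 0 0 1 ?_
  rw [bil_lam]
  show (2 * (t 0 ^ 2 * (t 0 - 1))) * 0 * (1 / t 1) + (t 0 ^ 2 * (t 1 - 1)) * 0 * (-t 0 / t 1 ^ 2) + ((t 0 ^ 2 * (t 1 - 1)) * 1 * (1 / t 1) + (0) * 1 * (-t 0 / t 1 ^ 2)) =
    ((0 : ℤ) : Fld 2) + ((0 : ℤ) : Fld 2) * (t 0 / t 1) + ((0 : ℤ) : Fld 2) * (t 0 / t 1) ^ 2 +
      (((0 : ℤ) : Fld 2) * (t 1) + ((0 : ℤ) : Fld 2) * (t 1) * (t 0 / t 1) + ((-1 : ℤ) : Fld 2) * (t 1) * (t 0 / t 1) ^ 2) +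
      (((0 : ℤ) : Fld 2) * (t 1) ^ 2 + ((0 : ℤ) : Fld 2) * (t 1) ^ 2 * (t 0 / t 1) + ((1 : ℤ) : Fld 2) * (t 1) ^ 2 * (t 0 / t 1) ^ 2)
  push_cast
  try field_simp
  try ring

theorem Tx0_13 : Quad Tx0 (lam 1) (lam 3) := by
  have h0 := t_ne 0
  have h1 := t_ne 1
  have h2 := t_sub_one_ne 0
  have h3 := t_sub_one_ne 1
  refine quad_of 1 (-2) 1 0 2 (-2) 0 0 1 ?_
  rw [bil_lam]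
  show (2 * (t 0 ^ 2 * (t 0 - 1))) * 0 * (1 / (t 1 - 1)) + (t 0 ^ 2 * (t 1 - 1)) * 0 * (-(t 0 - 1) / (t 1 - 1) ^ 2) + ((t 0 ^ 2 * (t 1 - 1)) * 1 * (1 / (t 1 - 1)) + (0) * 1 * (-(t 0 - 1) / (t 1 - 1) ^ 2)) =
    ((1 : ℤ) : Fld 2) + ((-2 : ℤ) : Fld 2) * ((t 0 - 1) / (t 1 - 1)) + ((1 : ℤ) : Fld 2) * ((t 0 - 1) / (t 1 - 1)) ^ 2 +
      (((0 : ℤ) : Fld 2) * (t 1) + ((2 : ℤ) : Fld 2) * (t 1) * ((t 0 - 1) / (t 1 - 1)) + ((-2 : ℤ) : Fld 2) * (t 1) * ((t 0 - 1) / (t 1 - 1)) ^ 2) +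
      (((0 : ℤ) : Fld 2) * (t 1) ^ 2 + ((0 : ℤ) : Fld 2) * (t 1) ^ 2 * ((t 0 - 1) / (t 1 - 1)) + ((1 : ℤ) : Fld 2) * (t 1) ^ 2 * ((t 0 - 1) / (t 1 - 1)) ^ 2)
  push_cast
  try field_simp
  try ring

theorem Tx0_14 : Quad Tx0 (lam 1) (lam 4) := by
  have h0 := t_ne 0
  have h1 := t_ne 1
  have h2 := t_sub_one_ne 0
  have h3 := t_sub_one_ne 1
  refine quad_of 0 0 0 0 0 (-1) 0 0 0 ?_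
  rw [bil_lam]
  show (2 * (t 0 ^ 2 * (t 0 - 1))) * 0 * (-(t 1 - 1) / (t 1 * (t 0 - 1) ^ 2)) + (t 0 ^ 2 * (t 1 - 1)) * 0 * (t 0 / ((t 0 - 1) * t 1 ^ 2)) + ((t 0 ^ 2 * (t 1 - 1)) * 1 * (-(t 1 - 1) / (t 1 * (t 0 - 1) ^ 2)) + (0) * 1 * (t 0 / ((t 0 - 1) * t 1 ^ 2))) =
    ((0 : ℤ) : Fld 2) + ((0 : ℤ) : Fld 2) * (t 0 * (t 1 - 1) / ((t 0 - 1) * t 1)) + ((0 : ℤ) : Fld 2) * (t 0 * (t 1 - 1) / ((t 0 - 1) * t 1)) ^ 2 +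
      (((0 : ℤ) : Fld 2) * (t 1) + ((0 : ℤ) : Fld 2) * (t 1) * (t 0 * (t 1 - 1) / ((t 0 - 1) * t 1)) + ((-1 : ℤ) : Fld 2) * (t 1) * (t 0 * (t 1 - 1) / ((t 0 - 1) * t 1)) ^ 2) +
      (((0 : ℤ) : Fld 2) * (t 1) ^ 2 + ((0 : ℤ) : Fld 2) * (t 1) ^ 2 * (t 0 * (t 1 - 1) / ((t 0 - 1) * t 1)) + ((0 : ℤ) : Fld 2) * (t 1) ^ 2 * (t 0 * (t 1 - 1) / ((t 0 - 1) * t 1)) ^ 2)
  push_cast
  try field_simp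
  try ring

theorem Tx0_22 : Quad Tx0 (lam 2) (lam 2) := by
  have h0 := t_ne 0
  have h1 := t_ne 1
  have h2 := t_sub_one_ne 0
  have h3 := t_sub_one_ne 1
  refine quad_of 0 0 (-2) 0 0 2 0 0 0 ?_
  rw [bil_lam]
  show (2 * (t 0 ^ 2 * (t 0 - 1))) * (1 / t 1) * (1 / t 1) + (t 0 ^ 2 * (t 1 - 1)) * (1 / t 1) * (-t 0 / t 1 ^ 2) + ((t 0 ^ 2 * (t 1 - 1)) * (-t 0 / t 1 ^ 2) * (1 / t 1) + (0) * (-t 0 / t 1 ^ 2) * (-t 0 / t 1 ^ 2)) =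
    ((0 : ℤ) : Fld 2) + ((0 : ℤ) : Fld 2) * (t 0 / t 1) + ((-2 : ℤ) : Fld 2) * (t 0 / t 1) ^ 2 +
      (((0 : ℤ) : Fld 2) * (t 0 / t 1) + ((0 : ℤ) : Fld 2) * (t 0 / t 1) * (t 0 / t 1) + ((2 : ℤ) : Fld 2) * (t 0 / t 1) * (t 0 / t 1) ^ 2) +
      (((0 : ℤ) : Fld 2) * (t 0 / t 1) ^ 2 + ((0 : ℤ) : Fld 2) * (t 0 / t 1) ^ 2 * (t 0 / t 1) + ((0 : ℤ) : Fld 2) * (t 0 / t 1) ^ 2 * (t 0 / t 1) ^ 2)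
  push_cast
  try field_simp
  try ring

theorem Tx0_23 : Quad Tx0 (lam 2) (lam 3) := by
  have h0 := t_ne 0
  have h1 := t_ne 1
  have h2 := t_sub_one_ne 0
  have h3 := t_sub_one_ne 1
  refine quad_of 0 0 0 0 0 0 (-1) 1 0 ?_
  rw [bil_lam]
  show (2 * (t 0 ^ 2 * (t 0 - 1))) * (1 / t 1) * (1 / (t 1 - 1)) + (t 0 ^ 2 * (t 1 - 1)) * (1 / t 1) * (-(t 0 - 1) / (t 1 - 1) ^ 2) + ((t 0 ^ 2 * (t 1 - 1)) * (-t 0 / t 1 ^ 2) * (1 / (t 1 - 1)) + (0) * (-t 0 / t 1 ^ 2) * (-(t 0 - 1) / (t 1 - 1) ^ 2)) =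
    ((0 : ℤ) : Fld 2) + ((0 : ℤ) : Fld 2) * ((t 0 - 1) / (t 1 - 1)) + ((0 : ℤ) : Fld 2) * ((t 0 - 1) / (t 1 - 1)) ^ 2 +
      (((0 : ℤ) : Fld 2) * (t 0 / t 1) + ((0 : ℤ) : Fld 2) * (t 0 / t 1) * ((t 0 - 1) / (t 1 - 1)) + ((0 : ℤ) : Fld 2) * (t 0 / t 1) * ((t 0 - 1) / (t 1 - 1)) ^ 2) +
      (((-1 : ℤ) : Fld 2) * (t 0 / t 1) ^ 2 + ((1 : ℤ) : Fld 2) * (t 0 / t 1) ^ 2 * ((t 0 - 1) / (t 1 - 1)) + ((0 : ℤ) : Fld 2) * (t 0 / t 1) ^ 2 * ((t 0 - 1) / (t 1 - 1)) ^ 2)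
  push_cast
  try field_simp
  try ring

theorem Tx0_24 : Quad Tx0 (lam 2) (lam 4) := by
  have h0 := t_ne 0
  have h1 := t_ne 1
  have h2 := t_sub_one_ne 0
  have h3 := t_sub_one_ne 1
  refine quad_of 0 0 0 0 (-2) 1 0 1 0 ?_
  rw [bil_lam]
  show (2 * (t 0 ^ 2 * (t 0 - 1))) * (1 / t 1) * (-(t 1 - 1) / (t 1 * (t 0 - 1) ^ 2)) + (t 0 ^ 2 * (t 1 - 1)) * (1 / t 1) * (t 0 / ((t 0 - 1) * t 1 ^ 2)) + ((t 0 ^ 2 * (t 1 - 1)) * (-t 0 / t 1 ^ 2) * (-(t 1 - 1) / (t 1 * (t 0 - 1) ^ 2)) + (0) * (-t 0 / t 1 ^ 2) * (t 0 / ((t 0 - 1) * t 1 ^ 2))) =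
    ((0 : ℤ) : Fld 2) + ((0 : ℤ) : Fld 2) * (t 0 * (t 1 - 1) / ((t 0 - 1) * t 1)) + ((0 : ℤ) : Fld 2) * (t 0 * (t 1 - 1) / ((t 0 - 1) * t 1)) ^ 2 +
      (((0 : ℤ) : Fld 2) * (t 0 / t 1) + ((-2 : ℤ) : Fld 2) * (t 0 / t 1) * (t 0 * (t 1 - 1) / ((t 0 - 1) * t 1)) + ((1 : ℤ) : Fld 2) * (t 0 / t 1) * (t 0 * (t 1 - 1) / ((t 0 - 1) * t 1)) ^ 2) +
      (((0 : ℤ) : Fld 2) * (t 0 / t 1) ^ 2 + ((1 : ℤ) : Fld 2) * (t 0 / t 1) ^ 2 * (t 0 * (t 1 - 1) / ((t 0 - 1) * t 1)) + ((0 : ℤ) : Fld 2) * (t 0 / t 1) ^ 2 * (t 0 * (t 1 - 1) / ((t 0 - 1) * t 1)) ^ 2)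
  push_cast
  try field_simp
  try ring

theorem Tx0_33 : Quad Tx0 (lam 3) (lam 3) := by
  have h0 := t_ne 0
  have h1 := t_ne 1
  have h2 := t_sub_one_ne 0
  have h3 := t_sub_one_ne 1
  refine quad_of 0 0 0 0 0 0 0 0 0 ?_
  rw [bil_lam]
  show (2 * (t 0 ^ 2 * (t 0 - 1))) * (1 / (t 1 - 1)) * (1 / (t 1 - 1)) + (t 0 ^ 2 * (t 1 - 1)) * (1 / (t 1 - 1)) * (-(t 0 - 1) / (t 1 - 1) ^ 2) + ((t 0 ^ 2 * (t 1 - 1)) * (-(t 0 - 1) / (t 1 - 1) ^ 2) * (1 / (t 1 - 1)) + (0) * (-(t 0 - 1) / (t 1 - 1) ^ 2) * (-(t 0 - 1) / (t 1 - 1) ^ 2)) =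
    ((0 : ℤ) : Fld 2) + ((0 : ℤ) : Fld 2) * ((t 0 - 1) / (t 1 - 1)) + ((0 : ℤ) : Fld 2) * ((t 0 - 1) / (t 1 - 1)) ^ 2 +
      (((0 : ℤ) : Fld 2) * ((t 0 - 1) / (t 1 - 1)) + ((0 : ℤ) : Fld 2) * ((t 0 - 1) / (t 1 - 1)) * ((t 0 - 1) / (t 1 - 1)) + ((0 : ℤ) : Fld 2) * ((t 0 - 1) / (t 1 - 1)) * ((t 0 - 1) / (t 1 - 1)) ^ 2) +
      (((0 : ℤ) : Fld 2) * ((t 0 - 1) / (t 1 - 1)) ^ 2 + ((0 : ℤ) : Fld 2) * ((t 0 - 1) / (t 1 - 1)) ^ 2 * ((t 0 - 1) / (t 1 - 1)) + ((0 : ℤ) : Fld 2) * ((t 0 - 1) / (t 1 - 1)) ^ 2 * ((t 0 - 1) / (t 1 - 1)) ^ 2)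
  push_cast
  try field_simp
  try ring

theorem Tx0_34 : Quad Tx0 (lam 3) (lam 4) := by
  have h0 := t_ne 0
  have h1 := t_ne 1
  have h2 := t_sub_one_ne 0
  have h3 := t_sub_one_ne 1
  refine quad_of 0 0 0 0 0 (-1) 0 0 1 ?_
  rw [bil_lam]
  show (2 * (t 0 ^ 2 * (t 0 - 1))) * (1 / (t 1 - 1)) * (-(t 1 - 1) / (t 1 * (t 0 - 1) ^ 2)) + (t 0 ^ 2 * (t 1 - 1)) * (1 / (t 1 - 1)) * (t 0 / ((t 0 - 1) * t 1 ^ 2)) + ((t 0 ^ 2 * (t 1 - 1)) * (-(t 0 - 1) / (t 1 - 1) ^ 2) * (-(t 1 - 1) / (t 1 * (t 0 - 1) ^ 2)) + (0) * (-(t 0 - 1) / (t 1 - 1) ^ 2) * (t 0 / ((t 0 - 1) * t 1 ^ 2))) =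
    ((0 : ℤ) : Fld 2) + ((0 : ℤ) : Fld 2) * (t 0 * (t 1 - 1) / ((t 0 - 1) * t 1)) + ((0 : ℤ) : Fld 2) * (t 0 * (t 1 - 1) / ((t 0 - 1) * t 1)) ^ 2 +
      (((0 : ℤ) : Fld 2) * ((t 0 - 1) / (t 1 - 1)) + ((0 : ℤ) : Fld 2) * ((t 0 - 1) / (t 1 - 1)) * (t 0 * (t 1 - 1) / ((t 0 - 1) * t 1)) + ((-1 : ℤ) : Fld 2) * ((t 0 - 1) / (t 1 - 1)) * (t 0 * (t 1 - 1) / ((t 0 - 1) * t 1)) ^ 2) +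
      (((0 : ℤ) : Fld 2) * ((t 0 - 1) / (t 1 - 1)) ^ 2 + ((0 : ℤ) : Fld 2) * ((t 0 - 1) / (t 1 - 1)) ^ 2 * (t 0 * (t 1 - 1) / ((t 0 - 1) * t 1)) + ((1 : ℤ) : Fld 2) * ((t 0 - 1) / (t 1 - 1)) ^ 2 * (t 0 * (t 1 - 1) / ((t 0 - 1) * t 1)) ^ 2)
  push_cast
  try field_simp
  try ring

theorem Tx0_44 : Quad Tx0 (lam 4) (lam 4) := by
  have h0 := t_ne 0
  have h1 := t_ne 1
  have h2 := t_sub_one_ne 0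
  have h3 := t_sub_one_ne 1
  refine quad_of 0 0 (-2) 0 0 2 0 0 0 ?_
  rw [bil_lam]
  show (2 * (t 0 ^ 2 * (t 0 - 1))) * (-(t 1 - 1) / (t 1 * (t 0 - 1) ^ 2)) * (-(t 1 - 1) / (t 1 * (t 0 - 1) ^ 2)) + (t 0 ^ 2 * (t 1 - 1)) * (-(t 1 - 1) / (t 1 * (t 0 - 1) ^ 2)) * (t 0 / ((t 0 - 1) * t 1 ^ 2)) + ((t 0 ^ 2 * (t 1 - 1)) * (t 0 / ((t 0 - 1) * t 1 ^ 2)) * (-(t 1 - 1) / (t 1 * (t 0 - 1) ^ 2)) + (0) * (t 0 / ((t 0 - 1) * t 1 ^ 2)) * (t 0 / ((t 0 - 1) * t 1 ^ 2))) =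
    ((0 : ℤ) : Fld 2) + ((0 : ℤ) : Fld 2) * (t 0 * (t 1 - 1) / ((t 0 - 1) * t 1)) + ((-2 : ℤ) : Fld 2) * (t 0 * (t 1 - 1) / ((t 0 - 1) * t 1)) ^ 2 +
      (((0 : ℤ) : Fld 2) * (t 0 * (t 1 - 1) / ((t 0 - 1) * t 1)) + ((0 : ℤ) : Fld 2) * (t 0 * (t 1 - 1) / ((t 0 - 1) * t 1)) * (t 0 * (t 1 - 1) / ((t 0 - 1) * t 1)) + ((2 : ℤ) : Fld 2) * (t 0 * (t 1 - 1) / ((t 0 - 1) * t 1)) * (t 0 * (t 1 - 1) / ((t 0 - 1) * t 1)) ^ 2) +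
      (((0 : ℤ) : Fld 2) * (t 0 * (t 1 - 1) / ((t 0 - 1) * t 1)) ^ 2 + ((0 : ℤ) : Fld 2) * (t 0 * (t 1 - 1) / ((t 0 - 1) * t 1)) ^ 2 * (t 0 * (t 1 - 1) / ((t 0 - 1) * t 1)) + ((0 : ℤ) : Fld 2) * (t 0 * (t 1 - 1) / ((t 0 - 1) * t 1)) ^ 2 * (t 0 * (t 1 - 1) / ((t 0 - 1) * t 1)) ^ 2)
  push_cast
  try field_simp
  try ring

end

end M0n
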