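import Pool.Agent.M0n.Chain

/-!
# MP_cc45c1_ag: the Krull dimension of `R_{0,n}` for every `n`
-/

set_option autoImplicit false

open MvPolynomial

namespace M0n

noncomputable section

variable {m : ℕ}

/-- The vector field with components `T`. -/
def der (T : Fin m → Fld m) (g : Fld m) : Fld m := ∑ i, T i * pd i g

theorem der_add (T : Fin m → Fld m) (g g' : Fld m) : der T (g + g') = der T g + der T g' := by
  simp only [der, map_add, ← Finset.sum_add_distrib]
  exact Finset.sum_congr rfl fun i _ => by ring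

theorem der_mul (T : Fin m → Fld m) (g g' : Fld m) :
    der T (g * g') = g * der T g' + g' * der T g := by
  simp only [der, Derivation.leibniz, smul_eq_mul, Finset.mul_sum, ← Finset.sum_add_distrib]
  exact Finset.sum_congr rfl fun i _ => by ring

theorem der_algebraMap (T : Fin m → Fld m) (c : ℂ) : der T (algebraMap ℂ (Fld m) c) = 0 := by
  simp only [der, Derivation.map_algebraMap, mul_zero, Finset.sum_const_zero]

theorem der_inv (T : Fin m → Fld m) (g : Fld m) : der T g⁻¹ = -(g⁻¹ ^ 2) * der T g := by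
  simp only [der, Derivation.leibniz_inv, smul_eq_mul, Finset.mul_sum]
  exact Finset.sum_congr rfl fun i _ => by ring

theorem der_one_sub (T : Fin m → Fld m) (g : Fld m) : der T (1 - g) = -der T g := by
  have h1 := der_add T (1 - g) g
  have h2 := der_algebraMap T 1
  rw [sub_add_cancel] at h1
  rw [map_one] at h2
  linear_combination h2 - h1

/-- The derivative is a polynomial of degree at most two in `u`. -/
def Lin (T : Fin m → Fld m) (u : Fld m) : Prop :=
  ∃ c : Fin 3 → ℂ, der T u = ∑ i : Fin 3, algebraMap ℂ (Fld m) (c i) * u ^ (i : ℕ)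

theorem Lin.inv {T : Fin m → Fld m} {u : Fld m} (h0 : u ≠ 0) (h : Lin T u) : Lin T u⁻¹ := by
  obtain ⟨c, hc⟩ := h
  refine ⟨fun i => -c (Fin.rev i), ?_⟩
  rw [der_inv, hc]
  simp only [Fin.sum_univ_three]
  have e0 : Fin.rev (0 : Fin 3) = 2 := rfl
  have e1 : Fin.rev (1 : Fin 3) = 1 := rfl
  have e2 : Fin.rev (2 : Fin 3) = 0 := rfl
  simp only [e0, e1, e2, map_neg, Fin.val_zero, Fin.val_one, Fin.val_two, pow_zero, pow_one,
    mul_one]
  field_simp
  ring

theorem Lin.one_sub {T : Fin m → Fld m} {u : Fld m} (h : Lin T u) : Lin T (1 - u) := by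
  obtain ⟨c, hc⟩ := h
  refine ⟨fun i => ![-(c 0 + c 1 + c 2), c 1 + 2 * c 2, -c 2] i, ?_⟩
  rw [der_one_sub, hc]
  simp only [Fin.sum_univ_three, Matrix.cons_val_zero, Matrix.cons_val_one, Matrix.cons_val,
    map_neg, map_add, map_mul, map_ofNat, Fin.val_zero, Fin.val_one, Fin.val_two, pow_zero,
    pow_one, mul_one]
  ring

theorem Lin.mem {T : Fin m → Fld m} {u : Fld m} (h : Lin T u) {A : Subalgebra ℂ (Fld m)}
    (hu : u ∈ A) : der T u ∈ A := by
  obtain ⟨c, hc⟩ := h
  rw [hc]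
  exact sum_mem fun i _ => mul_mem (A.algebraMap_mem _) (pow_mem hu _)

/-- The tensor of degree one with components `T`. -/
def vec (T : Fin m → Fld m) : MvPolynomial (Fin m) (Fld m) := ∑ i, C (T i) * X i

theorem vec_mem {T : Fin m → Fld m} (h : ∀ q, Lin T (cr q)) : vec T ∈ Reg m := by
  intro S g hg
  have h1 : eval (fun i => pd i g) (vec T) = der T g := by
    rw [vec, der, map_sum]
    refine Finset.sum_congr rfl fun i _ => ?_
    simp
  rw [h1]
  induction hg using Algebra.adjoin_induction with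
  | mem u hu =>
    refine Lin.mem ?_ (Algebra.subset_adjoin hu)
    rcases hu with ⟨q, -, rfl⟩ | ⟨q, -, rfl⟩
    · exact h q
    · show Lin T (cr q)⁻¹
      rw [← cr_per_01 q]
      exact h _
  | algebraMap c =>
    rw [der_algebraMap]
    exact zero_mem _
  | add a b _ _ ha hb =>
    rw [der_add]
    exact add_mem (ha (by simp [vec, der])) (hb (by simp [vec, der]))
  | mul a b ha' hb' ha hb =>
    rw [der_mul]
    exact add_mem (mul_mem ha' (hb (by simp [vec, der])))
      (mul_mem hb' (ha (by simp [vec, der])))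

theorem lin_all {T : Fin 1 → Fld 1} (h : Lin T (t 0)) (q : Fin 4 ↪ Fin 1 ⊕ Fin 3) :
    Lin T (cr q) := by
  have hr : ∀ q : Fin 4 ↪ Fin 1 ⊕ Fin 3, Set.range q = Set.univ := by
    intro q
    rw [Set.range_eq_univ]
    have h1 : Fintype.card (Fin 4) = Fintype.card (Fin 1 ⊕ Fin 3) := by simp
    exact ((Fintype.bijective_iff_injective_and_card q).mpr ⟨q.injective, h1⟩).2
  let r : Fin 4 ↪ Fin 1 ⊕ Fin 3 := quad (.inl 0) (.inr 1) (.inr 0) (.inr 2) (by decide)
  obtain ⟨σ, rfl⟩ := exists_per ((hr q).trans (hr r).symm)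
  refine per_induction (P := fun u => Lin T u) (fun u hu h => h.inv hu)
    (fun u h => h.one_sub) σ r ?_
  have h2 : cr r = t 0 := by
    refine (cr_quad (.inl 0) (.inr 1) (.inr 0) (.inr 2) (by decide)).trans ?_
    simp [br, pt]
  show Lin T (cr r)
  rw [h2]
  exact h

theorem vec_one_mem : vec (fun _ : Fin 1 => (1 : Fld 1)) ∈ Reg 1 := by
  refine vec_mem fun q => lin_all ⟨![1, 0, 0], ?_⟩ q
  simp [der, pd_t, Fin.sum_univ_three]

theorem vec_t_mem : vec (fun _ : Fin 1 => (t 0 : Fld 1)) ∈ Reg 1 := by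
  refine vec_mem fun q => lin_all ⟨![0, 1, 0], ?_⟩ q
  simp [der, pd_t, Fin.sum_univ_three]

/-- The substitutions which define the chain of prime ideals of `R_{0,4}`. -/
def sub4 : Fin 3 → (MvPolynomial (Fin 1 ⊕ Fin 1) ℂ →ₐ[ℂ] MvPolynomial (Fin 1 ⊕ Fin 1) ℂ) :=
  ![AlgHom.id ℂ _, aeval (Sum.elim ![0] ![X (.inr 0)]), aeval (Sum.elim ![0] ![0])]

theorem sub4_comp (i : Fin 2) : (sub4 i.succ).comp (sub4 i.castSucc) = sub4 i.succ := by
  fin_cases i
  · rfl
  · apply algHom_ext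
    rintro (k | k) <;> fin_cases k <;> simp [sub4]

/-- The polynomials of two vector fields. -/
def Gp : MvPolynomial (Fin 1 ⊕ Fin 1) ℂ := X (.inr 0)
def Gtp : MvPolynomial (Fin 1 ⊕ Fin 1) ℂ := X (.inl 0) * X (.inr 0)

theorem Lam_p : Lam 1 Gp = vec (fun _ : Fin 1 => (1 : Fld 1)) := by
  simp [vec, Lam, Gp]

theorem Lam_tp : Lam 1 Gtp = vec (fun _ : Fin 1 => (t 0 : Fld 1)) := by
  simp [vec, Lam, Gtp]

theorem p_mem : Lam 1 Gp ∈ Reg 1 := by
  rw [Lam_p]
  exact vec_one_mem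

theorem tp_mem : Lam 1 Gtp ∈ Reg 1 := by
  rw [Lam_tp]
  exact vec_t_mem

theorem sep4_0 : ∃ G, Lam 1 G ∈ Reg 1 ∧ sub4 1 G = 0 ∧ sub4 0 G ≠ 0 := by
  refine ⟨Gtp, tp_mem, ?_, ?_⟩
  · simp [sub4, Gtp]
  · exact mul_ne_zero (X_ne_zero _) (X_ne_zero _)

theorem sep4_1 : ∃ G, Lam 1 G ∈ Reg 1 ∧ sub4 2 G = 0 ∧ sub4 1 G ≠ 0 := by
  refine ⟨Gp, p_mem, ?_, ?_⟩
  · simp [sub4, Gp]
  · have h1 : sub4 1 Gp = X (.inr 0) := by simp [sub4, Gp]
    rw [h1]
    exact X_ne_zero _

theorem sep4 (i : Fin 2) :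
    ∃ G, Lam 1 G ∈ Reg 1 ∧ sub4 i.succ G = 0 ∧ sub4 i.castSucc G ≠ 0 := by
  match i with
  | 0 => exact sep4_0
  | 1 => exact sep4_1

theorem two_le_krull : (2 : WithBot ℕ∞) ≤ ringKrullDim (Reg 1) :=
  le_krull_reg 1 2 sub4 sub4_comp sep4

theorem krull_one : ringKrullDim (Reg 1) = 2 :=
  le_antisymm (krull_reg_le 1) two_le_krull

theorem krull_zero : ringKrullDim (Reg 0) = 0 := by
  refine le_antisymm (by exact_mod_cast krull_reg_le 0) ?_
  have h := le_krull_reg 0 0 (fun _ => AlgHom.id ℂ _) (fun i => i.elim0) (fun i => i.elim0)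
  exact_mod_cast h

/-- The Krull dimension of `R_{0,n}`, `n = m + 3`. -/
theorem krull_all (m : ℕ) :
    ringKrullDim (Reg m) = if m = 1 then 2 else if m = 2 then 4 else 0 := by
  match m with
  | 0 =>
    rw [if_neg (by norm_num), if_neg (by norm_num)]
    exact krull_zero
  | 1 =>
    rw [if_pos rfl]
    exact krull_one
  | 2 =>
    rw [if_neg (by norm_num), if_pos rfl]
    exact krull_two
  | m + 3 =>
    rw [if_neg (by omega), if_neg (by omega)]
    exact krull_reg (by omega)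

end

end M0n
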