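import Pool.Agent.M0n.Sep

/-!
# MP_cc45c1_ag: the weights of a tensor
-/

set_option autoImplicit false

open MvPolynomial

namespace M0n

noncomputable section

variable {m : ℕ}

/-- The divisibility relations of all the boundary divisors `{t_i = 0, i ∈ I}` and
`{t_i = ∞, i ∈ I}`. -/
def DvdProp (G : MvPolynomial (Fin m ⊕ Fin m) ℂ) : Prop :=
  ∀ (I : Finset (Fin m)) (i₀ : Fin m), i₀ ∈ I → ∀ δ : ℤ, (δ = 1 ∨ δ = -1) →
    ∀ (y : Fin m → ℂ) (χ : Fin m → ℤ),
      (Polynomial.X - Polynomial.C (-∑ i ∈ I.erase i₀, y i)) ^ (-(δ * ∑ i ∈ I, χ i)).toNat ∣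
        ghat (gchi G χ) i₀ y

theorem dvd_natAbs {G : MvPolynomial (Fin m ⊕ Fin m) ℂ} (h : DvdProp G) {I : Finset (Fin m)}
    {i₀ : Fin m} (hi : i₀ ∈ I) (y : Fin m → ℂ) (χ : Fin m → ℤ) {a : ℂ}
    (ha : a = -∑ i ∈ I.erase i₀, y i) :
    (Polynomial.X - Polynomial.C a) ^ (∑ i ∈ I, χ i).natAbs ∣ ghat (gchi G χ) i₀ y := by
  subst ha
  rcases le_total 0 (∑ i ∈ I, χ i) with h1 | h1
  · have h2 := h I i₀ hi (-1) (Or.inr rfl) y χ
    have h3 : (-(-1 * ∑ i ∈ I, χ i)).toNat = (∑ i ∈ I, χ i).natAbs := by omega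
    rwa [h3] at h2
  · have h2 := h I i₀ hi 1 (Or.inl rfl) y χ
    have h3 : (-(1 * ∑ i ∈ I, χ i)).toNat = (∑ i ∈ I, χ i).natAbs := by omega
    rwa [h3] at h2

/-- The sum of the multiplicities of roots is at most the degree. -/
theorem sum_mult_le {P : Polynomial ℂ} (hP : P ≠ 0) (S : Finset ℂ) (n : ℂ → ℕ)
    (h : ∀ a ∈ S, (Polynomial.X - Polynomial.C a) ^ n a ∣ P) : ∑ a ∈ S, n a ≤ P.natDegree := by
  classical
  calc ∑ a ∈ S, n a ≤ ∑ a ∈ S, P.roots.count a := by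
        refine Finset.sum_le_sum fun a ha => ?_
        rw [Polynomial.count_roots]
        exact (Polynomial.le_rootMultiplicity_iff hP).mpr (h a ha)
    _ ≤ ∑ a ∈ P.roots.toFinset, P.roots.count a := by
        apply Finset.sum_le_sum_of_ne_zero
        intro a _ h1
        rw [Multiset.mem_toFinset]
        exact Multiset.count_ne_zero.mp h1
    _ = P.roots.card := Multiset.toFinset_sum_count_eq _
    _ ≤ P.natDegree := Polynomial.card_roots' P

theorem chi_fib_inj {γ γ' : Fin m ⊕ Fin m →₀ ℕ} (h : chi γ = chi γ') (h' : fib γ = fib γ') :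
    γ = γ' := by
  ext w
  rcases w with i | i
  · have h1 := congrFun h i
    have h2 := DFunLike.congr_fun h' i
    simp only [chi, fib_apply] at h1 h2
    omega
  · exact DFunLike.congr_fun h' i

theorem gchi_ne_zero {G : MvPolynomial (Fin m ⊕ Fin m) ℂ} {γ : Fin m ⊕ Fin m →₀ ℕ}
    (hγ : γ ∈ G.support) : gchi G (chi γ) ≠ 0 := by
  classical
  intro h
  have h1 : coeff (fib γ) (gchi G (chi γ)) = coeff γ G := by
    rw [gchi, coeff_sum]
    simp only [coeff_monomial]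
    rw [Finset.sum_eq_single_of_mem γ (by simpa using hγ)]
    · simp
    · intro γ' h' hne
      rw [if_neg]
      intro h3
      exact hne (chi_fib_inj (Finset.mem_filter.mp h').2 h3)
  rw [h, coeff_zero] at h1
  exact (mem_support_iff.mp hγ) h1.symm

theorem natDegree_ghat_le (G : MvPolynomial (Fin m ⊕ Fin m) ℂ) (χ : Fin m → ℤ) (i₀ : Fin m)
    (y : Fin m → ℂ) :
    (ghat (gchi G χ) i₀ y).natDegree ≤ (sep (Sum.inr i₀) G).natDegree := by
  classical
  rw [ghat, gchi, map_sum]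
  apply Polynomial.natDegree_sum_le_of_forall_le
  intro γ hγ
  have h1 : γ ∈ G.support := (Finset.mem_filter.mp hγ).1
  refine le_trans ?_ (le_natDegree_sep (Sum.inr i₀) h1)
  rw [aeval_monomial, Finsupp.prod_fintype _ _ (fun i => pow_zero _),
    ← Finset.mul_prod_erase Finset.univ _ (Finset.mem_univ i₀)]
  simp only [if_true]
  have h2 : (∏ x ∈ Finset.univ.erase i₀,
      (if x = i₀ then Polynomial.X else Polynomial.C (y x)) ^ (fib γ) x) =
      Polynomial.C (∏ x ∈ Finset.univ.erase i₀, y x ^ (fib γ) x) := by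
    rw [map_prod]
    refine Finset.prod_congr rfl fun x hx => ?_
    rw [if_neg (Finset.mem_erase.mp hx).1, map_pow]
  rw [h2]
  have h3 : algebraMap ℂ (Polynomial ℂ) (coeff γ G) = Polynomial.C (coeff γ G) := rfl
  rw [h3]
  refine (Polynomial.natDegree_C_mul_le _ _).trans ?_
  refine (Polynomial.natDegree_mul_C_le _ _).trans ?_
  rw [Polynomial.natDegree_X_pow]
  rfl

theorem eval_ghat (g : MvPolynomial (Fin m) ℂ) (i₀ : Fin m) (y : Fin m → ℂ) :
    (ghat g i₀ y).eval (y i₀) = eval y g := by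
  have h1 := aeval_ghat (L := ℂ) g i₀ y (y i₀)
  have h2 : (fun k => if k = i₀ then y i₀ else algebraMap ℂ ℂ (y k)) = y := by
    ext k
    by_cases hk : k = i₀
    · simp [hk]
    · simp [hk]
  rw [h2] at h1
  simpa using h1.symm

theorem exists_generic {g : MvPolynomial (Fin m) ℂ} (hg : g ≠ 0) {i₁ : Fin m}
    {J : Finset (Fin m)} (hJ : J.Nonempty) (h1 : i₁ ∉ J) :
    ∃ y : Fin m → ℂ, eval y g ≠ 0 ∧ y i₁ ≠ 0 ∧ ∑ j ∈ J, y j ≠ 0 ∧ y i₁ ≠ ∑ j ∈ J, y j ∧
      y i₁ + ∑ j ∈ J, y j ≠ 0 := by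
  classical
  let σ : MvPolynomial (Fin m) ℂ := ∑ j ∈ J, X j
  have hσ : σ ≠ 0 := by
    intro h
    have h2 := congrArg (eval fun _ => (1 : ℂ)) h
    simp only [σ, map_sum, eval_X, map_zero, Finset.sum_const, nsmul_eq_mul, mul_one] at h2
    exact hJ.card_ne_zero (by exact_mod_cast h2)
  have hX : ∀ ε : ℂ, X i₁ + C ε * σ ≠ 0 := by
    intro ε h
    have h2 := congrArg (eval fun k => if k = i₁ then (1 : ℂ) else 0) h
    simp only [σ, map_add, map_mul, map_sum, eval_X, eval_C, map_zero, if_true] at h2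
    rw [Finset.sum_eq_zero (fun j hj => if_neg (fun h3 : j = i₁ => h1 (h3 ▸ hj)))] at h2
    simp at h2
  have hP : g * (X i₁ + C 0 * σ) * σ * (X i₁ + C (-1) * σ) * (X i₁ + C 1 * σ) ≠ 0 :=
    mul_ne_zero (mul_ne_zero (mul_ne_zero (mul_ne_zero hg (hX 0)) hσ) (hX (-1))) (hX 1)
  have h3 : ∃ y, eval y (g * (X i₁ + C 0 * σ) * σ * (X i₁ + C (-1) * σ) * (X i₁ + C 1 * σ)) ≠ 0 := by
    by_contra hn
    push Not at hn
    exact hP (MvPolynomial.funext fun y => by rw [hn y, map_zero])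
  obtain ⟨y, hy⟩ := h3
  refine ⟨y, ?_⟩
  simp only [σ, map_mul, map_add, map_sum, eval_X, eval_C, mul_ne_zero_iff, zero_mul, add_zero,
    one_mul, neg_one_mul, ← sub_eq_add_neg] at hy
  obtain ⟨⟨⟨⟨h4, h5⟩, h6⟩, h7⟩, h8⟩ := hy
  exact ⟨h4, h5, h6, fun h => h7 (sub_eq_zero.mpr h), h8⟩

/-- The indices other than `i₀, i₁`. -/
def rest (i₀ i₁ : Fin m) : Finset (Fin m) := (Finset.univ.erase i₀).erase i₁

theorem weight_le {G : MvPolynomial (Fin m ⊕ Fin m) ℂ} (h : DvdProp G) {i₀ i₁ : Fin m}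
    (h01 : i₁ ≠ i₀) (hJ : (rest i₀ i₁).Nonempty) {γ : Fin m ⊕ Fin m →₀ ℕ}
    (hγ : γ ∈ G.support) :
    (chi γ i₀).natAbs + (chi γ i₀ + chi γ i₁).natAbs +
      (chi γ i₀ + ∑ j ∈ rest i₀ i₁, chi γ j).natAbs +
      (chi γ i₀ + chi γ i₁ + ∑ j ∈ rest i₀ i₁, chi γ j).natAbs ≤
      (sep (Sum.inr i₀) G).natDegree := by
  classical
  have hi₀ : i₀ ∉ rest i₀ i₁ := by simp [rest]
  have hi₁ : i₁ ∉ rest i₀ i₁ := by simp [rest]
  have huniv : (Finset.univ : Finset (Fin m)) = insert i₀ (insert i₁ (rest i₀ i₁)) := by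
    ext k
    simp only [rest, Finset.mem_univ, Finset.mem_insert, Finset.mem_erase, true_iff]
    tauto
  have hi₀' : i₀ ∉ insert i₁ (rest i₀ i₁) := by
    simp only [Finset.mem_insert, not_or]
    exact ⟨h01.symm, hi₀⟩
  obtain ⟨y, hy0, hy1, hy2, hy3, hy4⟩ := exists_generic (gchi_ne_zero hγ) hJ hi₁
  set P := ghat (gchi G (chi γ)) i₀ y with hP
  have hP0 : P ≠ 0 := by
    intro h0
    have h1 := eval_ghat (gchi G (chi γ)) i₀ y
    rw [← hP, h0, Polynomial.eval_zero] at h1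
    exact hy0 h1.symm
  refine le_trans ?_ (natDegree_ghat_le G (chi γ) i₀ y)
  rw [← hP]
  set Y1 := y i₁ with hY1
  set Y2 := ∑ j ∈ rest i₀ i₁, y j with hY2
  have d1 : (Polynomial.X - Polynomial.C (0 : ℂ)) ^ (chi γ i₀).natAbs ∣ P := by
    have := dvd_natAbs h (I := {i₀}) (i₀ := i₀) (by simp) y (chi γ) (a := 0) (by simp)
    simpa using this
  have d2 : (Polynomial.X - Polynomial.C (-Y1)) ^ (chi γ i₀ + chi γ i₁).natAbs ∣ P := by
    have := dvd_natAbs h (I := {i₀, i₁}) (i₀ := i₀) (by simp) y (chi γ) (a := -Y1) (by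
      rw [Finset.erase_insert (by simpa using h01.symm), Finset.sum_singleton])
    rwa [Finset.sum_pair h01.symm] at this
  have d3 : (Polynomial.X - Polynomial.C (-Y2)) ^
      (chi γ i₀ + ∑ j ∈ rest i₀ i₁, chi γ j).natAbs ∣ P := by
    have := dvd_natAbs h (I := insert i₀ (rest i₀ i₁)) (i₀ := i₀) (by simp) y (chi γ)
      (a := -Y2) (by rw [Finset.erase_insert hi₀])
    rwa [Finset.sum_insert hi₀] at this
  have d4 : (Polynomial.X - Polynomial.C (-(Y1 + Y2))) ^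
      (chi γ i₀ + chi γ i₁ + ∑ j ∈ rest i₀ i₁, chi γ j).natAbs ∣ P := by
    have := dvd_natAbs h (I := insert i₀ (insert i₁ (rest i₀ i₁))) (i₀ := i₀) (by simp) y (chi γ)
      (a := -(Y1 + Y2)) (by rw [Finset.erase_insert hi₀', Finset.sum_insert hi₁])
    rwa [Finset.sum_insert hi₀', Finset.sum_insert hi₁, ← add_assoc] at this
  let n : ℂ → ℕ := fun a => if a = 0 then (chi γ i₀).natAbs else
    if a = -Y1 then (chi γ i₀ + chi γ i₁).natAbs else
    if a = -Y2 then (chi γ i₀ + ∑ j ∈ rest i₀ i₁, chi γ j).natAbs else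
    (chi γ i₀ + chi γ i₁ + ∑ j ∈ rest i₀ i₁, chi γ j).natAbs
  have e1 : ¬ (-Y1 = 0) := by simpa using hy1
  have e2 : ¬ (-Y2 = 0) := by simpa using hy2
  have e3 : ¬ (-Y2 = -Y1) := fun h => hy3 (neg_injective h).symm
  have e4 : ¬ (-(Y1 + Y2) = 0) := by
    intro h
    exact hy4 (neg_eq_zero.mp h)
  have e5 : ¬ (-(Y1 + Y2) = -Y1) := by
    intro h
    have := neg_injective h
    exact hy2 (by linear_combination this)
  have e6 : ¬ (-(Y1 + Y2) = -Y2) := by
    intro h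
    have := neg_injective h
    exact hy1 (by linear_combination this)
  have h5 := sum_mult_le hP0 {0, -Y1, -Y2, -(Y1 + Y2)} n (by
    intro a ha
    simp only [Finset.mem_insert, Finset.mem_singleton] at ha
    rcases ha with rfl | rfl | rfl | rfl
    · simpa only [n, if_true] using d1
    · simpa only [n, if_neg e1, if_true] using d2
    · simpa only [n, if_neg e2, if_neg e3, if_true] using d3
    · simpa only [n, if_neg e4, if_neg e5, if_neg e6] using d4)
  rw [Finset.sum_insert, Finset.sum_insert, Finset.sum_insert, Finset.sum_singleton] at h5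
  · simp only [n, if_true, if_neg e1, if_neg e2, if_neg e3, if_neg e4, if_neg e5, if_neg e6] at h5
    omega
  · simp only [Finset.mem_singleton]
    exact fun h => e6 h.symm
  · simp only [Finset.mem_insert, Finset.mem_singleton, not_or]
    exact ⟨fun h => e3 h.symm, fun h => e5 h.symm⟩
  · simp only [Finset.mem_insert, Finset.mem_singleton, not_or]
    exact ⟨fun h => e1 h.symm, fun h => e2 h.symm, fun h => e4 h.symm⟩

end

end M0n
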