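import Pool.Agent.M0n.Five

/-!
# MP_cc45c1_ag: the Krull dimensions of `R_{0,4}` and `R_{0,5}`
-/

set_option autoImplicit false

open MvPolynomial

namespace M0n

noncomputable section

theorem range_eq {q : Fin 4 ↪ Fin 2 ⊕ Fin 3} {z : Fin 2 ⊕ Fin 3} (hz : ∀ i, q i ≠ z) :
    Set.range q = {z}ᶜ := by
  have h1 : Finset.univ.map q = Finset.univ.erase z := by
    apply Finset.eq_of_subset_of_card_le
    · intro w hw
      obtain ⟨i, -, rfl⟩ := Finset.mem_map.mp hw
      simp [hz i]
    · rw [Finset.card_map, Finset.card_erase_of_mem (Finset.mem_univ _)]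
      simp
  ext w
  constructor
  · rintro ⟨i, rfl⟩
    exact hz i
  · intro hw
    have h2 : w ∈ Finset.univ.map q := by
      rw [h1]
      simpa using hw
    obtain ⟨i, -, rfl⟩ := Finset.mem_map.mp h2
    exact ⟨i, rfl⟩

theorem exists_ref (q : Fin 4 ↪ Fin 2 ⊕ Fin 3) : ∃ k σ, q = per σ (ref k) := by
  obtain ⟨z, hz⟩ : ∃ z, ∀ i, q i ≠ z := by
    by_contra hn
    push Not at hn
    have h1 : Function.Surjective q := hn
    have h2 := Fintype.card_le_of_surjective q h1
    simp at h2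
  obtain ⟨k, hk⟩ : ∃ k, ∀ i, ref k i ≠ z := by
    rcases z with z | z <;> fin_cases z
    · exact ⟨1, by decide⟩
    · exact ⟨0, by decide⟩
    · exact ⟨3, by decide⟩
    · exact ⟨2, by decide⟩
    · exact ⟨4, by decide⟩
  obtain ⟨σ, hσ⟩ := exists_per ((range_eq hz).trans (range_eq hk).symm)
  exact ⟨k, σ, hσ⟩

theorem quad_all {T : Fin 2 → Fin 2 → Fld 2} (hT : ∀ i j, T i j = T j i)
    (h : ∀ k l, Quad T (lam k) (lam l)) (q q' : Fin 4 ↪ Fin 2 ⊕ Fin 3) :
    Quad T (cr q) (cr q') := by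
  obtain ⟨k, σ, rfl⟩ := exists_ref q
  obtain ⟨l, τ, rfl⟩ := exists_ref q'
  have h1 : Quad T (cr (per σ (ref k))) (lam l) := by
    refine per_induction (P := fun u => Quad T u (lam l)) (fun u hu h => h.inv hu)
      (fun u h => h.one_sub) σ (ref k) ?_
    show Quad T (cr (ref k)) (lam l)
    rw [cr_ref]
    exact h k l
  have h2 : Quad T (cr (per τ (ref l))) (cr (per σ (ref k))) := by
    refine per_induction (P := fun u => Quad T u (cr (per σ (ref k)))) (fun u hu h => h.inv hu)
      (fun u h => h.one_sub) τ (ref l) ?_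
    show Quad T (cr (ref l)) (cr (per σ (ref k)))
    rw [cr_ref]
    exact h1.symm hT
  exact h2.symm hT

theorem Txy_mem : tensor Txy ∈ Reg 2 := by
  refine tensor_mem Txy_symm (quad_all Txy_symm fun k l => ?_)
  fin_cases k <;> fin_cases l
  · exact Txy_00
  · exact Txy_01
  · exact Txy_02
  · exact Txy_03
  · exact Txy_04
  · exact Quad.symm Txy_symm Txy_01
  · exact Txy_11
  · exact Txy_12
  · exact Txy_13
  · exact Txy_14
  · exact Quad.symm Txy_symm Txy_02
  · exact Quad.symm Txy_symm Txy_12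
  · exact Txy_22
  · exact Txy_23
  · exact Txy_24
  · exact Quad.symm Txy_symm Txy_03
  · exact Quad.symm Txy_symm Txy_13
  · exact Quad.symm Txy_symm Txy_23
  · exact Txy_33
  · exact Txy_34
  · exact Quad.symm Txy_symm Txy_04
  · exact Quad.symm Txy_symm Txy_14
  · exact Quad.symm Txy_symm Txy_24
  · exact Quad.symm Txy_symm Txy_34
  · exact Txy_44

theorem TxI_mem : tensor TxI ∈ Reg 2 := by
  refine tensor_mem TxI_symm (quad_all TxI_symm fun k l => ?_)
  fin_cases k <;> fin_cases l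
  · exact TxI_00
  · exact TxI_01
  · exact TxI_02
  · exact TxI_03
  · exact TxI_04
  · exact Quad.symm TxI_symm TxI_01
  · exact TxI_11
  · exact TxI_12
  · exact TxI_13
  · exact TxI_14
  · exact Quad.symm TxI_symm TxI_02
  · exact Quad.symm TxI_symm TxI_12
  · exact TxI_22
  · exact TxI_23
  · exact TxI_24
  · exact Quad.symm TxI_symm TxI_03
  · exact Quad.symm TxI_symm TxI_13
  · exact Quad.symm TxI_symm TxI_23
  · exact TxI_33
  · exact TxI_34
  · exact Quad.symm TxI_symm TxI_04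
  · exact Quad.symm TxI_symm TxI_14
  · exact Quad.symm TxI_symm TxI_24
  · exact Quad.symm TxI_symm TxI_34
  · exact TxI_44

theorem TyI_mem : tensor TyI ∈ Reg 2 := by
  refine tensor_mem TyI_symm (quad_all TyI_symm fun k l => ?_)
  fin_cases k <;> fin_cases l
  · exact TyI_00
  · exact TyI_01
  · exact TyI_02
  · exact TyI_03
  · exact TyI_04
  · exact Quad.symm TyI_symm TyI_01
  · exact TyI_11
  · exact TyI_12
  · exact TyI_13
  · exact TyI_14
  · exact Quad.symm TyI_symm TyI_02
  · exact Quad.symm TyI_symm TyI_12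
  · exact TyI_22
  · exact TyI_23
  · exact TyI_24
  · exact Quad.symm TyI_symm TyI_03
  · exact Quad.symm TyI_symm TyI_13
  · exact Quad.symm TyI_symm TyI_23
  · exact TyI_33
  · exact TyI_34
  · exact Quad.symm TyI_symm TyI_04
  · exact Quad.symm TyI_symm TyI_14
  · exact Quad.symm TyI_symm TyI_24
  · exact Quad.symm TyI_symm TyI_34
  · exact TyI_44

theorem Tx0_mem : tensor Tx0 ∈ Reg 2 := by
  refine tensor_mem Tx0_symm (quad_all Tx0_symm fun k l => ?_)
  fin_cases k <;> fin_cases l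
  · exact Tx0_00
  · exact Tx0_01
  · exact Tx0_02
  · exact Tx0_03
  · exact Tx0_04
  · exact Quad.symm Tx0_symm Tx0_01
  · exact Tx0_11
  · exact Tx0_12
  · exact Tx0_13
  · exact Tx0_14
  · exact Quad.symm Tx0_symm Tx0_02
  · exact Quad.symm Tx0_symm Tx0_12
  · exact Tx0_22
  · exact Tx0_23
  · exact Tx0_24
  · exact Quad.symm Tx0_symm Tx0_03
  · exact Quad.symm Tx0_symm Tx0_13
  · exact Quad.symm Tx0_symm Tx0_23
  · exact Tx0_33
  · exact Tx0_34
  · exact Quad.symm Tx0_symm Tx0_04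
  · exact Quad.symm Tx0_symm Tx0_14
  · exact Quad.symm Tx0_symm Tx0_24
  · exact Quad.symm Tx0_symm Tx0_34
  · exact Tx0_44

end

end M0n
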