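import Pool.Agent.M0n.Van

/-!
# MP_cc45c1_ag: `R_{0,n} = ℂ` for `n ≥ 6`
-/

set_option autoImplicit false

open MvPolynomial

namespace M0n

noncomputable section

variable {m : ℕ}

theorem exists_point {i₀ i₁ : Fin m} (h01 : i₁ ≠ i₀) (hJ : (rest i₀ i₁).Nonempty)
    {B : MvPolynomial (Fin m ⊕ Fin m) ℂ} (hB : B ≠ 0) :
    ∃ u : Fin m ⊕ Fin m → ℂ, eval u B ≠ 0 ∧
      ∑ j ∈ Finset.univ.erase i₀, u (Sum.inr j) ≠ 0 ∧
      ∑ j ∈ Finset.univ.erase i₀, u (Sum.inr j) +
        ∑ j ∈ Finset.univ.erase i₀, u (Sum.inl j) * u (Sum.inr j) ≠ 0 ∧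
      ∀ k ∈ Finset.univ.erase i₀, u (Sum.inl k) * ∑ j ∈ Finset.univ.erase i₀, u (Sum.inr j) -
        ∑ j ∈ Finset.univ.erase i₀, u (Sum.inl j) * u (Sum.inr j) ≠ 0 := by
  classical
  let J : Finset (Fin m) := Finset.univ.erase i₀
  let P : MvPolynomial (Fin m ⊕ Fin m) ℂ := ∑ j ∈ J, X (Sum.inr j)
  let S : MvPolynomial (Fin m ⊕ Fin m) ℂ := ∑ j ∈ J, X (Sum.inl j) * X (Sum.inr j)
  have hi₁ : i₁ ∈ J := by simp [J, h01]
  have hcard : 2 ≤ J.card := by
    obtain ⟨i₂, hi₂⟩ := hJ
    have h1 : i₂ ∈ J.erase i₁ := hi₂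
    have h2 := Finset.card_erase_of_mem hi₁
    have h3 := Finset.card_pos.mpr ⟨i₂, h1⟩
    omega
  have hP : P ≠ 0 := by
    intro h
    have h2 := congrArg (eval fun _ => (1 : ℂ)) h
    simp only [P, map_sum, eval_X, map_zero, Finset.sum_const, nsmul_eq_mul, mul_one] at h2
    have h3 : J.card = 0 := by exact_mod_cast h2
    omega
  have hPS : P + S ≠ 0 := by
    intro h
    have h2 := congrArg (eval fun _ => (1 : ℂ)) h
    simp only [P, S, map_add, map_sum, map_mul, eval_X, map_zero, Finset.sum_const,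
      nsmul_eq_mul, mul_one] at h2
    have h3 : J.card + J.card = 0 := by exact_mod_cast h2
    omega
  have hk : ∀ k ∈ J, X (Sum.inl k) * P - S ≠ 0 := by
    intro k hk h
    have h2 := congrArg (eval (Sum.elim (fun i => if i = k then (1 : ℂ) else 0)
      (fun i => if i = k then 0 else 1))) h
    simp only [P, S, map_sub, map_sum, map_mul, eval_X, map_zero, Sum.elim_inl, Sum.elim_inr,
      if_true, one_mul] at h2
    rw [← Finset.add_sum_erase _ _ hk, if_pos rfl, zero_add] at h2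
    have h4 : ∑ x ∈ J.erase k, (if x = k then (0 : ℂ) else 1) = ((J.card - 1 : ℕ) : ℂ) := by
      rw [← Finset.card_erase_of_mem hk, Finset.card_eq_sum_ones, Nat.cast_sum]
      refine Finset.sum_congr rfl fun x hx => ?_
      rw [if_neg (Finset.mem_erase.mp hx).1]
      simp
    have h5 : ∑ x ∈ J, (if x = k then (1 : ℂ) else 0) * (if x = k then 0 else 1) = 0 := by
      apply Finset.sum_eq_zero
      intro x _
      by_cases hx : x = k
      · simp [hx]
      · simp [hx]
    rw [h4, h5, sub_zero] at h2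
    have h6 : J.card - 1 = 0 := by exact_mod_cast h2
    omega
  have hQQ : B * P * (P + S) * ∏ k ∈ J, (X (Sum.inl k) * P - S) ≠ 0 :=
    mul_ne_zero (mul_ne_zero (mul_ne_zero hB hP) hPS) (Finset.prod_ne_zero_iff.mpr hk)
  have h3 : ∃ u, eval u (B * P * (P + S) * ∏ k ∈ J, (X (Sum.inl k) * P - S)) ≠ 0 := by
    by_contra hn
    push Not at hn
    exact hQQ (MvPolynomial.funext fun y => by rw [hn y, map_zero])
  obtain ⟨u, hu⟩ := h3
  refine ⟨u, ?_⟩
  simp only [P, S, map_mul, map_add, map_sub, map_sum, map_prod, eval_X, mul_ne_zero_iff,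
    Finset.prod_ne_zero_iff] at hu
  exact ⟨hu.1.1.1, hu.1.1.2, hu.1.2, hu.2⟩

theorem natDegree_eq_zero {G : MvPolynomial (Fin m ⊕ Fin m) ℂ} (hG : G ≠ 0) (h : DvdProp G)
    (h' : DvdProp (shift 1 G)) {i₀ i₁ : Fin m} (h01 : i₁ ≠ i₀)
    (hJ : (rest i₀ i₁).Nonempty) : (sep (Sum.inr i₀) G).natDegree = 0 := by
  classical
  set κ := (sep (Sum.inr i₀) G).natDegree with hκ
  set B := (sep (Sum.inr i₀) G).coeff κ with hB
  have hB0 : B ≠ 0 := by
    rw [hB, hκ, Polynomial.coeff_natDegree, Polynomial.leadingCoeff_ne_zero]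
    exact sep_ne_zero _ hG
  have hinj : Function.Injective (shift 1 : MvPolynomial (Fin m ⊕ Fin m) ℂ →ₐ[ℂ] _) := by
    apply Function.LeftInverse.injective (g := shift (-1))
    intro a
    rw [shift_shift, neg_add_cancel, shift_zero]
  have g1 : Good κ i₀ i₁ B := good_sep h h01 hJ
  have g2 : Good κ i₀ i₁ (shift 1 B) := by
    have h1 := good_sep h' h01 hJ
    rw [sep_shift, Polynomial.natDegree_map_eq_of_injective hinj, Polynomial.coeff_map] at h1
    exact h1
  by_contra hne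
  have hκM : κ ≤ 2 * ((κ + 1) / 2) := by omega
  have hMκ : 2 * ((κ + 1) / 2) ≤ κ + 1 := by omega
  have hM : 0 < (κ + 1) / 2 := by omega
  generalize (κ + 1) / 2 = M at *
  have hw : ∀ γ ∈ B.support, 0 < wt i₀ (chi γ) := by
    intro γ hγ
    have h1 := weight_eq h01 g1 g2 hκM hMκ hγ
    rw [← Finset.add_sum_erase _ _ (Finset.mem_univ i₀)] at h1
    have h2 : chi (γ.erase (Sum.inl i₀)) i₀ = 0 := by
      rw [chi, Finsupp.erase_same, Finsupp.erase_ne (by simp), g1.z γ hγ]
      simp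
    have h3 : wt i₀ (chi γ) = M := by
      rw [← h1, h2, zero_add]
      refine Finset.sum_congr rfl fun j hj => ?_
      have hj' : j ≠ i₀ := (Finset.mem_erase.mp hj).1
      rw [chi, chi, Finsupp.erase_ne (by simpa using hj'), Finsupp.erase_ne (by simp)]
    rw [h3]
    exact_mod_cast hM
  obtain ⟨u, hu1, hu2, hu3, hu4⟩ := exists_point h01 hJ hB0
  set P := ∑ j ∈ Finset.univ.erase i₀, u (Sum.inr j) with hP
  set S := ∑ j ∈ Finset.univ.erase i₀, u (Sum.inl j) * u (Sum.inr j) with hS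
  set s : ℂ := -S / P with hs
  have hsP : s * P = -S := div_mul_cancel₀ _ hu2
  have hs1 : s ≠ 1 := by
    intro h1
    rw [h1, one_mul] at hsP
    exact hu3 (by linear_combination hsP)
  obtain ⟨x, hx⟩ : ∃ x : ℂ, x ∉ ({0, 1, s ^ 2 - 2 * s, s ^ 2 - 2 * s + 1} : Finset ℂ) :=
    Infinite.exists_notMem_finset _
  simp only [Finset.mem_insert, Finset.mem_singleton, not_or] at hx
  obtain ⟨hx1, hx2, hx3, hx4⟩ := hx
  have e1 := translation h01 g1 g2 hκM hMκ u hs1 x
  have hx5 : x + 2 * s - s ^ 2 ≠ 0 := fun h1 => hx3 (by linear_combination h1)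
  have hx6 : x + 2 * s - s ^ 2 - 1 ≠ 0 := fun h1 => hx4 (by linear_combination h1)
  have e2 : (num (Sum.inl i₀) (trl s u) B).eval (x + 2 * s - s ^ 2) = 0 := by
    rw [num_eval]
    apply vanish h h01 κ hw
    · intro j
      by_cases hj : j = i₀
      · subst hj
        simpa using hx5
      · rw [Function.update_of_ne (by simpa using hj)]
        simp only [trl, Sum.elim_inl]
        intro h1
        have h2 := hu4 j (by simp [hj])
        apply h2
        linear_combination P * h1 - hsP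
    · have h1 : ∀ j ∈ Finset.univ.erase i₀,
          Function.update (trl s u) (Sum.inl i₀) (x + 2 * s - s ^ 2) (Sum.inl j) *
          Function.update (trl s u) (Sum.inl i₀) (x + 2 * s - s ^ 2) (Sum.inr j) =
          u (Sum.inl j) * u (Sum.inr j) + s * u (Sum.inr j) := by
        intro j hj
        have hj' : j ≠ i₀ := (Finset.mem_erase.mp hj).1
        rw [Function.update_of_ne (by simpa using hj'), Function.update_of_ne (by simp)]
        simp only [trl, Sum.elim_inl, Sum.elim_inr]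
        ring
      rw [Finset.sum_congr rfl h1, Finset.sum_add_distrib, ← Finset.mul_sum, ← hP, ← hS, hsP,
        add_neg_cancel]
  rw [e2, zero_mul] at e1
  have e3 : (num (Sum.inl i₀) u B).eval x = 0 := by
    rcases mul_eq_zero.mp e1.symm with h1 | h1
    · exact absurd h1 (pow_ne_zero _ (mul_ne_zero hx5 hx6))
    · exact h1
  have e4 := xindep h01 g1 g2 hκM hMκ u
  have e5 := congrArg (Polynomial.eval x) e4
  simp only [Polynomial.eval_mul, Polynomial.eval_C, Polynomial.eval_pow, Polynomial.eval_sub,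
    Polynomial.eval_X, Polynomial.eval_one] at e5
  rw [e3, mul_zero] at e5
  have e6 : (num (Sum.inl i₀) u B).eval 2 = 0 := by
    rcases mul_eq_zero.mp e5.symm with h1 | h1
    · exact h1
    · exact absurd h1 (pow_ne_zero _ (mul_ne_zero hx1 (sub_ne_zero.mpr hx2)))
  rw [e6, map_zero, zero_mul] at e4
  have e7 : num (Sum.inl i₀) u B = 0 := by
    rcases mul_eq_zero.mp e4 with h1 | h1
    · exact absurd h1 (Polynomial.C_ne_zero.mpr (pow_ne_zero _ two_ne_zero))
    · exact h1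
  apply hu1
  have e8 := num_eval (Sum.inl i₀) u B (u (Sum.inl i₀))
  rw [e7, Polynomial.eval_zero, Function.update_eq_self] at e8
  exact e8.symm

/-- A polynomial with all the divisibility relations is constant. -/
theorem eq_C {G : MvPolynomial (Fin m ⊕ Fin m) ℂ} (hm : 3 ≤ m) (h : DvdProp G)
    (h' : DvdProp (shift 1 G)) : ∃ c : ℂ, G = C c := by
  classical
  by_cases hG : G = 0
  · exact ⟨0, by rw [hG, map_zero]⟩
  have key : ∀ γ ∈ G.support, γ = 0 := by
    intro γ hγ
    have h1 : ∀ i₀ : Fin m, γ (Sum.inl i₀) = 0 ∧ γ (Sum.inr i₀) = 0 := by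
      intro i₀
      obtain ⟨i₁, h01⟩ : ∃ i₁ : Fin m, i₁ ≠ i₀ := by
        have : Nontrivial (Fin m) := Fin.nontrivial_iff_two_le.mpr (by omega)
        exact exists_ne i₀
      have hJ : (rest i₀ i₁).Nonempty := by
        rw [← Finset.card_pos, rest, Finset.card_erase_of_mem (by simp [h01]),
          Finset.card_erase_of_mem (Finset.mem_univ _), Finset.card_univ, Fintype.card_fin]
        omega
      have h2 := natDegree_eq_zero hG h h' h01 hJ
      have h3 := weight_le h h01 hJ hγ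
      have h4 := le_natDegree_sep (Sum.inr i₀) hγ
      rw [h2] at h3 h4
      have h5 : (chi γ i₀).natAbs = 0 := by omega
      rw [chi] at h5
      omega
    ext w
    rcases w with i | i
    · exact (h1 i).1
    · exact (h1 i).2
  refine ⟨coeff 0 G, ?_⟩
  ext γ
  rw [coeff_C]
  split_ifs with h1
  · rw [h1]
  · by_contra h2
    exact h1 (key γ (mem_support_iff.mpr h2)).symm

theorem reg_eq_C (hm : 3 ≤ m) {f : MvPolynomial (Fin m) (Fld m)} (hf : f ∈ Reg m) :
    ∃ c : ℂ, f = C (algebraMap ℂ (Fld m) c) := by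
  obtain ⟨G, hG⟩ := exists_poly hf
  have h0 : DvdProp G := by
    intro I i₀ hi₀ δ hδ y χ
    exact arc_dvd hf (c := 0) (Or.inl rfl) hG I hi₀ hδ y χ
  have h1 : DvdProp (shift 1 G) := by
    intro I i₀ hi₀ δ hδ y χ
    exact arc_dvd hf (c := 1) (Or.inr rfl) (fun p => by rw [aeval_shift, hG]) I hi₀ hδ y χ
  obtain ⟨c, rfl⟩ := eq_C hm h0 h1
  refine ⟨c, ?_⟩
  apply MvPolynomial.funext
  intro p
  rw [← hG p, eval_C]
  simp

/-- `R_{0,n} = ℂ` for `n ≥ 6`. -/
theorem reg_eq_bot (hm : 3 ≤ m) : Reg m = ⊥ := by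
  rw [eq_bot_iff]
  intro f hf
  obtain ⟨c, rfl⟩ := reg_eq_C hm hf
  exact ⟨c, rfl⟩

theorem krull_reg (hm : 3 ≤ m) : ringKrullDim (Reg m) = 0 := by
  rw [reg_eq_bot hm]
  have e : (⊥ : Subalgebra ℂ (MvPolynomial (Fin m) (Fld m))) ≃ₐ[ℂ] ℂ :=
    Algebra.botEquiv ℂ _
  rw [ringKrullDim_eq_of_ringEquiv e.toRingEquiv]
  exact ringKrullDim_eq_zero_of_field ℂ

end

end M0n
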