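import Pool.Agent.M0n.Cross

/-!
# MP_cc45c1_ag: the coefficients of the tensors of `Reg m` are polynomials in `t`
-/

set_option autoImplicit false

open MvPolynomial

namespace M0n

noncomputable section

variable {m : ℕ}

theorem exists_valuationSubring {x : Fld m}
    (hx : ∀ a, algebraMap (MvPolynomial (Fin m) ℂ) (Fld m) a ≠ x) :
    ∃ V : ValuationSubring (Fld m),
      (∀ a, algebraMap (MvPolynomial (Fin m) ℂ) (Fld m) a ∈ V) ∧ x ∉ V := by
  let R : Subring (Fld m) := (⊥ : Subalgebra (MvPolynomial (Fin m) ℂ) (Fld m)).toSubring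
  have hR : IsIntegrallyClosedIn R (Fld m) := by
    rw [isIntegrallyClosedIn_iff]
    refine ⟨Subtype.val_injective, fun {x} hx => ?_⟩
    have h1 : Algebra.IsIntegral (MvPolynomial (Fin m) ℂ)
      (⊥ : Subalgebra (MvPolynomial (Fin m) ℂ) (Fld m)) := inferInstance
    have h2 : IsIntegral (⊥ : Subalgebra (MvPolynomial (Fin m) ℂ) (Fld m)) x := hx
    have h3 : IsIntegral (MvPolynomial (Fin m) ℂ) x := isIntegral_trans x h2
    obtain ⟨y, hy⟩ := IsIntegrallyClosed.isIntegral_iff.mp h3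
    exact ⟨⟨x, ⟨y, hy⟩⟩, rfl⟩
  obtain ⟨V, hV, hxV⟩ := Subring.exists_le_valuationSubring_of_isIntegrallyClosedIn (x := x)
    (R := R) (by
      rintro ⟨a, ha⟩
      exact hx a ha)
  exact ⟨V, fun a => hV ⟨a, rfl⟩, hxV⟩

theorem coeff_mem_range {f : MvPolynomial (Fin m) (Fld m)} (hf : f ∈ Reg m) (α : Fin m →₀ ℕ) :
    ∃ a, algebraMap (MvPolynomial (Fin m) ℂ) (Fld m) a = coeff α f := by
  by_contra hn
  push Not at hn
  obtain ⟨V, hV, hx⟩ := exists_valuationSubring hn
  let O : Subalgebra ℂ (Fld m) :=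
    { V.toSubring with
      algebraMap_mem' := fun c => by
        have := hV (C c)
        exact this }
  have hO : ∀ x : Fld m, x ∈ O ∨ x⁻¹ ∈ O := fun x => V.mem_or_inv_mem x
  have hl : ∀ i, t i ∈ gens O := by
    intro i
    have h1 : t i = s 0 i := by simp [s]
    rw [h1]
    apply s_mem_gens (Or.inl rfl)
    rw [← h1]
    exact hV (X i)
  have h1 := reg_coeff hO hf hl α
  have h2 : bind₁ (fun k => ∑ i, X i * C (pd k (t i))) f = f := by
    have h3 : (fun k => ∑ i, X i * C (pd k (t i))) =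
        (X : Fin m → MvPolynomial (Fin m) (Fld m)) := by
      ext1 k
      simp only [pd_t]
      rw [Finset.sum_eq_single k]
      · simp
      · intro b _ hb
        simp [hb]
      · simp
    rw [h3, bind₁_X_left]
    rfl
  rw [h2] at h1
  exact hx h1

/-- `f` is a polynomial in `t` and in the fibre coordinates. -/
theorem exists_poly {f : MvPolynomial (Fin m) (Fld m)} (hf : f ∈ Reg m) :
    ∃ G : MvPolynomial (Fin m ⊕ Fin m) ℂ, ∀ p : Fin m → Fld m,
      aeval (Sum.elim (s 0) p) G = eval p f := by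
  choose a ha using coeff_mem_range hf
  refine ⟨∑ α ∈ f.support, rename Sum.inl (a α) * rename Sum.inr (monomial α 1), fun p => ?_⟩
  rw [map_sum, eval_eq']
  refine Finset.sum_congr rfl fun α _ => ?_
  rw [map_mul, aeval_rename, aeval_rename, Sum.elim_comp_inl, Sum.elim_comp_inr, ← ha]
  congr 1
  · have h1 : (aeval (s 0) : MvPolynomial (Fin m) ℂ →ₐ[ℂ] Fld m) =
        IsScalarTower.toAlgHom ℂ (MvPolynomial (Fin m) ℂ) (Fld m) := by
      ext i
      rw [aeval_X]
      simp [s, t]
    rw [h1]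
    rfl
  · rw [aeval_monomial, map_one, one_mul, Finsupp.prod_fintype _ _ (fun i => pow_zero _)]

/-- The translation `t ↦ t + 1` of a polynomial in `t` and in the fibre coordinates. -/
def shift (c : ℂ) : MvPolynomial (Fin m ⊕ Fin m) ℂ →ₐ[ℂ] MvPolynomial (Fin m ⊕ Fin m) ℂ :=
  aeval (Sum.elim (fun i => X (Sum.inl i) + C c) (fun i => X (Sum.inr i)))

theorem aeval_shift (c : ℂ) (G : MvPolynomial (Fin m ⊕ Fin m) ℂ) (p : Fin m → Fld m) :
    aeval (Sum.elim (s c) p) (shift c G) = aeval (Sum.elim (s 0) p) G := by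
  have h1 : ((aeval (Sum.elim (s c) p)).comp (shift c) :
      MvPolynomial (Fin m ⊕ Fin m) ℂ →ₐ[ℂ] Fld m) = aeval (Sum.elim (s 0) p) := by
    ext i
    rcases i with i | i
    · simp [shift, s]
    · simp [shift]
  exact DFunLike.congr_fun h1 G

theorem aeval_s_injective (c : ℂ) :
    Function.Injective (aeval (s c) : MvPolynomial (Fin m) ℂ →ₐ[ℂ] Fld m) := by
  have h1 : (aeval (s c) : MvPolynomial (Fin m) ℂ →ₐ[ℂ] Fld m) =
      (IsScalarTower.toAlgHom ℂ (MvPolynomial (Fin m) ℂ) (Fld m)).comp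
        (aeval fun i => X i - C c) := by
    ext i
    simp [s, t]
    rfl
  rw [h1]
  apply (IsFractionRing.injective (MvPolynomial (Fin m) ℂ) (Fld m)).comp
  apply Function.LeftInverse.injective (g := aeval fun i => X i + C c)
  intro a
  have h2 : ((aeval fun i => X i + C c : MvPolynomial (Fin m) ℂ →ₐ[ℂ] _).comp
      (aeval fun i => X i - C c)) = AlgHom.id ℂ (MvPolynomial (Fin m) ℂ) := by
    ext1 i
    simp
  exact DFunLike.congr_fun h2 a

end

end M0n
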