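import Pool.Agent.M0n.Dim

/-!
# MP_cc45c1_ag: tensors of degree one and two
-/

set_option autoImplicit false

open MvPolynomial

namespace M0n

noncomputable section

variable {m : ℕ}

theorem br_swap (a b : Fin m ⊕ Fin 3) : br b a = -br a b := by
  simp only [br]
  ring

theorem br_ne_zero {a b : Fin m ⊕ Fin 3} (h : a ≠ b) : br a b ≠ 0 := by
  have h0 : ∀ i : Fin m, t i ≠ 0 := fun i => by
    have := s_ne_zero 0 i
    simpa [s] using this
  have h1 : ∀ i : Fin m, t i - 1 ≠ 0 := fun i => by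
    have := s_ne_zero 1 i
    simpa [s] using this
  have h2 : ∀ i j : Fin m, i ≠ j → t i - t j ≠ 0 := by
    intro i j hij h
    rw [t, t, ← map_sub, map_eq_zero_iff _ (IsFractionRing.injective _ _)] at h
    exact hij (X_injective (sub_eq_zero.mp h))
  rcases a with i | a <;> rcases b with j | b
  · have h3 : i ≠ j := fun h' => h (by rw [h'])
    simpa [br, pt] using h2 i j h3
  · fin_cases b
    · simpa [br, pt] using h0 i
    · simpa [br, pt] using h1 i
    · simp [br, pt]
  · fin_cases a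
    · simpa [br, pt] using h0 j
    · have h3 := h1 j
      simp only [br, pt, Sum.elim_inl, Sum.elim_inr]
      simp
      intro h4
      apply h3
      linear_combination -h4
    · simp [br, pt]
  · fin_cases a <;> fin_cases b
    · exact absurd rfl h
    · simp [br, pt]
    · simp [br, pt]
    · simp [br, pt]
    · exact absurd rfl h
    · simp [br, pt]
    · simp [br, pt]
    · simp [br, pt]
    · exact absurd rfl h

theorem cr_ne_zero (q : Fin 4 ↪ Fin m ⊕ Fin 3) : cr q ≠ 0 := by
  have h : ∀ i j : Fin 4, i ≠ j → br (q i) (q j) ≠ 0 := fun i j hij =>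
    br_ne_zero (q.injective.ne hij)
  exact div_ne_zero (mul_ne_zero (h 0 2 (by decide)) (h 1 3 (by decide)))
    (mul_ne_zero (h 0 3 (by decide)) (h 1 2 (by decide)))

/-- The permuted quadruple. -/
def per (σ : Equiv.Perm (Fin 4)) (q : Fin 4 ↪ Fin m ⊕ Fin 3) : Fin 4 ↪ Fin m ⊕ Fin 3 :=
  σ.toEmbedding.trans q

theorem cr_per_01 (q : Fin 4 ↪ Fin m ⊕ Fin 3) : cr (per (Equiv.swap 0 1) q) = (cr q)⁻¹ := by
  have h0 : Equiv.swap (0 : Fin 4) 1 0 = 1 := by decide
  have h1 : Equiv.swap (0 : Fin 4) 1 1 = 0 := by decide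
  have h2 : Equiv.swap (0 : Fin 4) 1 2 = 2 := by decide
  have h3 : Equiv.swap (0 : Fin 4) 1 3 = 3 := by decide
  simp only [cr, per, Function.Embedding.trans_apply, Equiv.coe_toEmbedding, h0, h1, h2, h3]
  rw [inv_div]
  ring

theorem cr_per_23 (q : Fin 4 ↪ Fin m ⊕ Fin 3) : cr (per (Equiv.swap 2 3) q) = (cr q)⁻¹ := by
  have h0 : Equiv.swap (2 : Fin 4) 3 0 = 0 := by decide
  have h1 : Equiv.swap (2 : Fin 4) 3 1 = 1 := by decide
  have h2 : Equiv.swap (2 : Fin 4) 3 2 = 3 := by decide
  have h3 : Equiv.swap (2 : Fin 4) 3 3 = 2 := by decide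
  simp only [cr, per, Function.Embedding.trans_apply, Equiv.coe_toEmbedding, h0, h1, h2, h3]
  rw [inv_div]

theorem cr_per_12 (q : Fin 4 ↪ Fin m ⊕ Fin 3) : cr (per (Equiv.swap 1 2) q) = 1 - cr q := by
  have h0 : Equiv.swap (1 : Fin 4) 2 0 = 0 := by decide
  have h1 : Equiv.swap (1 : Fin 4) 2 1 = 2 := by decide
  have h2 : Equiv.swap (1 : Fin 4) 2 2 = 1 := by decide
  have h3 : Equiv.swap (1 : Fin 4) 2 3 = 3 := by decide
  have h : ∀ i j : Fin 4, i ≠ j → br (q i) (q j) ≠ 0 := fun i j hij =>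
    br_ne_zero (q.injective.ne hij)
  have e1 := h 0 3 (by decide)
  have e2 := h 1 2 (by decide)
  simp only [cr, per, Function.Embedding.trans_apply, Equiv.coe_toEmbedding, h0, h1, h2, h3]
  rw [br_swap (q 1) (q 2)]
  have e3 : br (q 0) (q 1) * br (q 2) (q 3) - br (q 0) (q 2) * br (q 1) (q 3) +
      br (q 0) (q 3) * br (q 1) (q 2) = 0 := by
    simp only [br]
    ring
  field_simp
  linear_combination -e3

theorem per_mul (σ τ : Equiv.Perm (Fin 4)) (q : Fin 4 ↪ Fin m ⊕ Fin 3) :
    per (σ * τ) q = per τ (per σ q) := by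
  ext1 i
  rfl

theorem per_one (q : Fin 4 ↪ Fin m ⊕ Fin 3) : per 1 q = q := by
  ext1 i
  rfl

/-- A property of rational functions which is stable under `u ↦ u⁻¹` and `u ↦ 1 - u` and holds
for one cross ratio holds for all the cross ratios of the same four points. -/
theorem per_induction {P : Fld m → Prop} (h1 : ∀ u, u ≠ 0 → P u → P u⁻¹)
    (h2 : ∀ u, P u → P (1 - u)) (σ : Equiv.Perm (Fin 4)) :
    ∀ q : Fin 4 ↪ Fin m ⊕ Fin 3, P (cr q) → P (cr (per σ q)) := by
  have hσ : σ ∈ Submonoid.closure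
      (Set.range fun i : Fin 3 => Equiv.swap (i.castSucc) (i.succ)) := by
    rw [Equiv.Perm.mclosure_swap_castSucc_succ]
    trivial
  induction hσ using Submonoid.closure_induction with
  | mem σ hσ =>
    obtain ⟨i, rfl⟩ := hσ
    intro q hq
    fin_cases i
    · show P (cr (per (Equiv.swap 0 1) q))
      rw [cr_per_01]
      exact h1 _ (cr_ne_zero q) hq
    · show P (cr (per (Equiv.swap 1 2) q))
      rw [cr_per_12]
      exact h2 _ hq
    · show P (cr (per (Equiv.swap 2 3) q))
      rw [cr_per_23]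
      exact h1 _ (cr_ne_zero q) hq
  | one =>
    intro q hq
    rw [per_one]
    exact hq
  | mul σ τ _ _ hσ hτ =>
    intro q hq
    rw [per_mul]
    exact hτ _ (hσ q hq)

theorem exists_per {q q' : Fin 4 ↪ Fin m ⊕ Fin 3} (h : Set.range q = Set.range q') :
    ∃ σ, q = per σ q' := by
  let σ : Equiv.Perm (Fin 4) := (Equiv.ofInjective q q.injective).trans
    ((Equiv.setCongr h).trans (Equiv.ofInjective q' q'.injective).symm)
  refine ⟨σ, ?_⟩
  ext1 i
  have h1 := (Equiv.ofInjective q' q'.injective).apply_symm_apply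
    ((Equiv.setCongr h) ((Equiv.ofInjective q q.injective) i))
  exact (congrArg Subtype.val h1).symm

/-- The bilinear form on differentials given by a matrix. -/
def bil (T : Fin m → Fin m → Fld m) (g h : Fld m) : Fld m :=
  ∑ i, ∑ j, T i j * pd i g * pd j h

theorem bil_symm {T : Fin m → Fin m → Fld m} (hT : ∀ i j, T i j = T j i) (g h : Fld m) :
    bil T g h = bil T h g := by
  rw [bil, bil, Finset.sum_comm]
  refine Finset.sum_congr rfl fun i _ => Finset.sum_congr rfl fun j _ => ?_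
  rw [hT j i]
  ring

theorem bil_add (T : Fin m → Fin m → Fld m) (g g' h : Fld m) :
    bil T (g + g') h = bil T g h + bil T g' h := by
  simp only [bil, map_add, ← Finset.sum_add_distrib]
  refine Finset.sum_congr rfl fun i _ => Finset.sum_congr rfl fun j _ => ?_
  ring

theorem bil_mul (T : Fin m → Fin m → Fld m) (g g' h : Fld m) :
    bil T (g * g') h = g * bil T g' h + g' * bil T g h := by
  simp only [bil, Derivation.leibniz, smul_eq_mul, Finset.mul_sum, ← Finset.sum_add_distrib]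
  refine Finset.sum_congr rfl fun i _ => Finset.sum_congr rfl fun j _ => ?_
  ring

theorem bil_algebraMap (T : Fin m → Fin m → Fld m) (c : ℂ) (h : Fld m) :
    bil T (algebraMap ℂ (Fld m) c) h = 0 := by
  simp only [bil, Derivation.map_algebraMap, mul_zero, zero_mul, Finset.sum_const_zero]

theorem bil_inv (T : Fin m → Fin m → Fld m) (g h : Fld m) :
    bil T g⁻¹ h = -(g⁻¹ ^ 2) * bil T g h := by
  simp only [bil, Derivation.leibniz_inv, smul_eq_mul, Finset.mul_sum]
  refine Finset.sum_congr rfl fun i _ => Finset.sum_congr rfl fun j _ => ?_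
  ring

theorem bil_one_sub (T : Fin m → Fin m → Fld m) (g h : Fld m) :
    bil T (1 - g) h = -bil T g h := by
  have h1 := bil_add T (1 - g) g h
  have h2 := bil_algebraMap T 1 h
  rw [sub_add_cancel] at h1
  rw [map_one] at h2
  linear_combination h2 - h1

/-- The bilinear form is a polynomial of degree at most two in `u` and in `v`. -/
def Quad (T : Fin m → Fin m → Fld m) (u v : Fld m) : Prop :=
  ∃ c : Fin 3 → Fin 3 → ℂ, bil T u v =
    ∑ i : Fin 3, ∑ j : Fin 3, algebraMap ℂ (Fld m) (c i j) * u ^ (i : ℕ) * v ^ (j : ℕ)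

theorem Quad.inv {T : Fin m → Fin m → Fld m} {u v : Fld m} (h0 : u ≠ 0) (h : Quad T u v) :
    Quad T u⁻¹ v := by
  obtain ⟨c, hc⟩ := h
  refine ⟨fun i j => -c (Fin.rev i) j, ?_⟩
  rw [bil_inv, hc]
  simp only [Fin.sum_univ_three]
  have e0 : Fin.rev (0 : Fin 3) = 2 := rfl
  have e1 : Fin.rev (1 : Fin 3) = 1 := rfl
  have e2 : Fin.rev (2 : Fin 3) = 0 := rfl
  simp only [e0, e1, e2, map_neg, Fin.val_zero, Fin.val_one, Fin.val_two, pow_zero, pow_one,
    mul_one]
  field_simp
  ring

theorem Quad.one_sub {T : Fin m → Fin m → Fld m} {u v : Fld m} (h : Quad T u v) :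
    Quad T (1 - u) v := by
  obtain ⟨c, hc⟩ := h
  refine ⟨fun i j => ![-(c 0 j + c 1 j + c 2 j), c 1 j + 2 * c 2 j, -c 2 j] i, ?_⟩
  rw [bil_one_sub, hc]
  simp only [Fin.sum_univ_three, Matrix.cons_val_zero, Matrix.cons_val_one, Matrix.cons_val,
    map_neg, map_add, map_mul, map_ofNat, Fin.val_zero, Fin.val_one, Fin.val_two, pow_zero,
    pow_one, mul_one]
  ring

theorem Quad.symm {T : Fin m → Fin m → Fld m} (hT : ∀ i j, T i j = T j i) {u v : Fld m}
    (h : Quad T u v) : Quad T v u := by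
  obtain ⟨c, hc⟩ := h
  refine ⟨fun i j => c j i, ?_⟩
  rw [bil_symm hT, hc, Finset.sum_comm]
  refine Finset.sum_congr rfl fun i _ => Finset.sum_congr rfl fun j _ => ?_
  ring

theorem Quad.mem {T : Fin m → Fin m → Fld m} {u v : Fld m} (h : Quad T u v)
    {A : Subalgebra ℂ (Fld m)} (hu : u ∈ A) (hv : v ∈ A) : bil T u v ∈ A := by
  obtain ⟨c, hc⟩ := h
  rw [hc]
  exact sum_mem fun i _ => sum_mem fun j _ =>
    mul_mem (mul_mem (A.algebraMap_mem _) (pow_mem hu _)) (pow_mem hv _)

/-- The tensor of degree two with matrix `T`. -/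
def tensor (T : Fin m → Fin m → Fld m) : MvPolynomial (Fin m) (Fld m) :=
  ∑ i, ∑ j, C (T i j) * X i * X j

theorem tensor_mem {T : Fin m → Fin m → Fld m} (hT : ∀ i j, T i j = T j i)
    (h : ∀ q q', Quad T (cr q) (cr q')) : tensor T ∈ Reg m := by
  intro S g hg
  have h1 : eval (fun i => pd i g) (tensor T) = bil T g g := by
    rw [tensor, bil, map_sum]
    refine Finset.sum_congr rfl fun i _ => ?_
    rw [map_sum]
    refine Finset.sum_congr rfl fun j _ => ?_
    simp
  rw [h1]
  have key : ∀ u v, u ∈ (cr '' S ∪ (fun q => (cr q)⁻¹) '' Sᶜ : Set (Fld m)) →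
      v ∈ (cr '' S ∪ (fun q => (cr q)⁻¹) '' Sᶜ : Set (Fld m)) → bil T u v ∈ chart m S := by
    intro u v hu hv
    refine Quad.mem ?_ (Algebra.subset_adjoin hu) (Algebra.subset_adjoin hv)
    have h2 : ∀ u, u ∈ (cr '' S ∪ (fun q => (cr q)⁻¹) '' Sᶜ : Set (Fld m)) →
        ∃ q, u = cr q := by
      rintro u (⟨q, -, rfl⟩ | ⟨q, -, rfl⟩)
      · exact ⟨q, rfl⟩
      · exact ⟨per (Equiv.swap 0 1) q, (cr_per_01 q).symm⟩
    obtain ⟨q, rfl⟩ := h2 u hu
    obtain ⟨q', rfl⟩ := h2 v hv
    exact h q q'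
  have key2 : ∀ g ∈ chart m S, ∀ v,
      v ∈ (cr '' S ∪ (fun q => (cr q)⁻¹) '' Sᶜ : Set (Fld m)) → bil T g v ∈ chart m S := by
    intro g hg v hv
    induction hg using Algebra.adjoin_induction with
    | mem u hu => exact key u v hu hv
    | algebraMap c =>
      rw [bil_algebraMap]
      exact zero_mem _
    | add a b _ _ ha hb =>
      rw [bil_add]
      exact add_mem ha hb
    | mul a b ha' hb' ha hb =>
      rw [bil_mul]
      exact add_mem (mul_mem ha' hb) (mul_mem hb' ha)
  have key3 : ∀ g ∈ chart m S, ∀ h ∈ chart m S, bil T h g ∈ chart m S := by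
    intro g hg h hh
    induction hh using Algebra.adjoin_induction with
    | mem u hu =>
      rw [bil_symm hT]
      exact key2 g hg u hu
    | algebraMap c =>
      rw [bil_algebraMap]
      exact zero_mem _
    | add a b _ _ ha hb =>
      rw [bil_add]
      exact add_mem ha hb
    | mul a b ha' hb' ha hb =>
      rw [bil_mul]
      exact add_mem (mul_mem ha' hb) (mul_mem hb' ha)
  exact key3 g hg g hg

end

end M0n
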