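import Pool.Agent.M0n.Key

/-!
# MP_cc45c1_ag: the functional equations of the leading coefficient
-/

set_option autoImplicit false

open MvPolynomial

namespace M0n

noncomputable section

variable {m : ℕ}

/-- The possible weights. -/
def WOk (κ : ℕ) (i₀ i₁ : Fin m) (γ : Fin m ⊕ Fin m →₀ ℕ) : Prop :=
  ((γ (Sum.inl i₀) : ℤ) - κ).natAbs + ((γ (Sum.inl i₀) : ℤ) - κ + chi γ i₁).natAbs +
    ((γ (Sum.inl i₀) : ℤ) - κ + ∑ j ∈ rest i₀ i₁, chi γ j).natAbs +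
    ((γ (Sum.inl i₀) : ℤ) - κ + chi γ i₁ + ∑ j ∈ rest i₀ i₁, chi γ j).natAbs ≤ κ

/-- The properties of the leading coefficient. -/
structure Good (κ : ℕ) (i₀ i₁ : Fin m) (B : MvPolynomial (Fin m ⊕ Fin m) ℂ) : Prop where
  w : ∀ γ ∈ B.support, WOk κ i₀ i₁ γ
  z : ∀ γ ∈ B.support, γ (Sum.inr i₀) = 0

theorem good_sep {G : MvPolynomial (Fin m ⊕ Fin m) ℂ} (h : DvdProp G) {i₀ i₁ : Fin m}
    (h01 : i₁ ≠ i₀) (hJ : (rest i₀ i₁).Nonempty) :
    Good (sep (Sum.inr i₀) G).natDegree i₀ i₁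
      ((sep (Sum.inr i₀) G).coeff (sep (Sum.inr i₀) G).natDegree) := by
  constructor
  · intro γ hγ
    obtain ⟨γ', h1, h2, rfl⟩ := exists_of_mem_sep _ _ _ hγ
    have h3 := weight_le h h01 hJ h1
    have h4 : ∀ j, j ≠ i₀ → chi (γ'.erase (Sum.inr i₀)) j = chi γ' j := by
      intro j hj
      rw [chi, chi, Finsupp.erase_ne (by simp), Finsupp.erase_ne (by simpa using hj)]
    have h5 : chi γ' i₀ = (γ' (Sum.inl i₀) : ℤ) - (sep (Sum.inr i₀) G).natDegree := by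
      rw [chi, h2]
    have h6 : ∑ j ∈ rest i₀ i₁, chi (γ'.erase (Sum.inr i₀)) j =
        ∑ j ∈ rest i₀ i₁, chi γ' j := by
      refine Finset.sum_congr rfl fun j hj => h4 j ?_
      simp only [rest, Finset.mem_erase] at hj
      exact hj.2.1
    rw [WOk, h4 i₁ h01, h6, Finsupp.erase_ne (by simp), ← h5]
    exact h3
  · intro γ hγ
    obtain ⟨γ', h1, h2, rfl⟩ := exists_of_mem_sep _ _ _ hγ
    exact Finsupp.erase_same

/-- A polynomial in one variable with few exponents and a multiple root. -/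
theorem uni {P : Polynomial ℂ} (hP : P ≠ 0) {M κ : ℕ} (hκ : κ ≤ 2 * M) {ε : ℂ} (hε : ε ≠ 0)
    (hd : (Polynomial.X - Polynomial.C ε) ^ M ∣ P) (b c : ℤ)
    (hw : ∀ n ∈ P.support, ((n : ℤ) - κ).natAbs + ((n : ℤ) - κ + b).natAbs +
      ((n : ℤ) - κ + c).natAbs + ((n : ℤ) - κ + b + c).natAbs ≤ κ) :
    κ = 2 * M ∧ ∃ (a : ℂ) (l : ℕ), P = Polynomial.C a * Polynomial.X ^ l *
      (Polynomial.X - Polynomial.C ε) ^ M ∧ 4 * (l : ℤ) + 2 * (b + c) = 3 * κ := by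
  set l := P.natTrailingDegree with hl
  have h1 : Polynomial.X ^ l ∣ P := by
    rw [Polynomial.X_pow_dvd_iff]
    intro d hd
    exact Polynomial.coeff_eq_zero_of_lt_natTrailingDegree hd
  obtain ⟨P', hP'⟩ := h1
  have hP'0 : P' ≠ 0 := by
    rintro rfl
    exact hP (by rw [hP', mul_zero])
  have h2 : IsCoprime ((Polynomial.X - Polynomial.C ε) ^ M) (Polynomial.X ^ l) := by
    apply IsCoprime.pow
    have h3 : (Polynomial.X : Polynomial ℂ) = Polynomial.X - Polynomial.C 0 := by simp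
    conv_rhs => rw [h3]
    apply Polynomial.isCoprime_X_sub_C_of_isUnit_sub
    simpa using hε
  rw [hP'] at hd
  have h3 : (Polynomial.X - Polynomial.C ε) ^ M ∣ P' := h2.dvd_of_dvd_mul_left hd
  obtain ⟨Q, hQ⟩ := h3
  have hQ0 : Q ≠ 0 := by
    rintro rfl
    exact hP'0 (by rw [hQ, mul_zero])
  have hX0 : ((Polynomial.X - Polynomial.C ε) ^ M : Polynomial ℂ) ≠ 0 :=
    pow_ne_zero _ (Polynomial.X_sub_C_ne_zero ε)
  have h4 : P.natDegree = l + (M + Q.natDegree) := by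
    rw [hP', Polynomial.natDegree_mul (pow_ne_zero _ Polynomial.X_ne_zero) hP'0, hQ,
      Polynomial.natDegree_mul hX0 hQ0, Polynomial.natDegree_X_pow, Polynomial.natDegree_pow,
      Polynomial.natDegree_X_sub_C, mul_one]
  have h5 := hw P.natDegree (Polynomial.natDegree_mem_support_of_nonzero hP)
  have h6 := hw l (by
    rw [hl]
    exact Polynomial.natTrailingDegree_mem_support_of_nonzero hP)
  rw [h4] at h5
  have h7 : Q.natDegree = 0 ∧ κ = 2 * M ∧ 4 * (l : ℤ) + 2 * (b + c) = 3 * κ := by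
    push_cast at h5
    omega
  refine ⟨h7.2.1, Q.coeff 0, l, ?_, h7.2.2⟩
  rw [hP', hQ, Polynomial.eq_C_of_natDegree_eq_zero h7.1]
  simp only [Polynomial.coeff_C_zero]
  ring

open Classical in
/-- The coefficient of a monomial `ρ` in the other variables. -/
def slice (v : Fin m ⊕ Fin m) (B : MvPolynomial (Fin m ⊕ Fin m) ℂ)
    (ρ : Fin m ⊕ Fin m →₀ ℕ) : Polynomial ℂ :=
  ∑ γ ∈ B.support with γ.erase v = ρ, Polynomial.monomial (γ v) (coeff γ B)

theorem exists_of_mem_slice {v : Fin m ⊕ Fin m} {B : MvPolynomial (Fin m ⊕ Fin m) ℂ}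
    {ρ : Fin m ⊕ Fin m →₀ ℕ} {n : ℕ} (h : n ∈ (slice v B ρ).support) :
    ∃ γ ∈ B.support, γ.erase v = ρ ∧ γ v = n := by
  classical
  by_contra hn
  push Not at hn
  apply Polynomial.mem_support_iff.mp h
  rw [slice, Polynomial.finsetSum_coeff]
  apply Finset.sum_eq_zero
  intro γ hγ
  obtain ⟨h1, h2⟩ := Finset.mem_filter.mp hγ
  rw [Polynomial.coeff_monomial, if_neg (hn γ h1 h2)]

theorem coeff_slice (v : Fin m ⊕ Fin m) (B : MvPolynomial (Fin m ⊕ Fin m) ℂ)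
    (γ : Fin m ⊕ Fin m →₀ ℕ) :
    (slice v B (γ.erase v)).coeff (γ v) = coeff γ B := by
  classical
  rw [slice, Polynomial.finsetSum_coeff]
  simp only [Polynomial.coeff_monomial]
  by_cases hγ : γ ∈ B.support
  · rw [Finset.sum_eq_single_of_mem γ (by simpa using hγ)]
    · simp
    · intro γ' h' hne
      rw [if_neg]
      intro h3
      exact hne (erase_inj v (Finset.mem_filter.mp h').2 h3)
  · rw [notMem_support_iff.mp hγ]
    apply Finset.sum_eq_zero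
    intro γ' h'
    rw [if_neg]
    intro h3
    obtain ⟨h4, h5⟩ := Finset.mem_filter.mp h'
    exact hγ (erase_inj v h5 h3 ▸ h4)

open Classical in
theorem num_eq_sum (v : Fin m ⊕ Fin m) (u : Fin m ⊕ Fin m → ℂ)
    (B : MvPolynomial (Fin m ⊕ Fin m) ℂ) :
    num v u B = ∑ ρ ∈ B.support.image (fun γ => γ.erase v), (∏ w, u w ^ ρ w) • slice v B ρ := by
  have h1 : ∀ γ ∈ B.support, (fun γ => γ.erase v) γ ∈ B.support.image (fun γ => γ.erase v) :=
    fun γ hγ => Finset.mem_image_of_mem _ hγ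
  conv_lhs => rw [B.as_sum, map_sum]
  rw [← Finset.sum_fiberwise_of_maps_to h1]
  refine Finset.sum_congr rfl fun ρ _ => ?_
  rw [slice, Finset.smul_sum]
  refine Finset.sum_congr rfl fun γ hγ => ?_
  have h2 := (Finset.mem_filter.mp hγ).2
  rw [num_monomial, Polynomial.smul_monomial, h2, smul_eq_mul, mul_comm]

/-- All the slices are in a subspace if all the specialisations are. -/
theorem slice_mem (v : Fin m ⊕ Fin m) (B : MvPolynomial (Fin m ⊕ Fin m) ℂ)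
    (O : Submodule ℂ (Polynomial ℂ)) (h : ∀ u, num v u B ∈ O) (ρ : Fin m ⊕ Fin m →₀ ℕ) :
    slice v B ρ ∈ O := by
  classical
  by_cases hρ : ρ ∈ B.support.image (fun γ => γ.erase v)
  · refine vf O (B.support.image (fun γ => γ.erase v)) (fun ρ => slice v B ρ) ?_ ρ hρ
    intro u
    rw [← num_eq_sum]
    exact h u
  · have h1 : slice v B ρ = 0 := by
      rw [slice, Finset.filter_eq_empty_iff.mpr, Finset.sum_empty]
      intro γ hγ h2
      exact hρ (Finset.mem_image.mpr ⟨γ, hγ, h2⟩)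
    rw [h1]
    exact zero_mem O

/-- The scaling of a point. -/
def scl (l : ℂ) (u : Fin m ⊕ Fin m → ℂ) : Fin m ⊕ Fin m → ℂ :=
  Sum.elim (fun i => l * u (Sum.inl i)) (fun i => l⁻¹ * u (Sum.inr i))

theorem prod_scl {l : ℂ} (hl : l ≠ 0) (u : Fin m ⊕ Fin m → ℂ) (ρ : Fin m ⊕ Fin m →₀ ℕ) :
    ∏ w, scl l u w ^ ρ w = l ^ (∑ j, chi ρ j) * ∏ w, u w ^ ρ w := by
  rw [Fintype.prod_sum_type, Fintype.prod_sum_type]
  simp only [scl, Sum.elim_inl, Sum.elim_inr, mul_pow, Finset.prod_mul_distrib, chi]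
  rw [Finset.sum_sub_distrib, zpow_sub₀ hl, Finset.prod_pow_eq_pow_sum,
    Finset.prod_pow_eq_pow_sum]
  have h1 : l ^ (∑ j, (ρ (Sum.inl j) : ℤ)) = l ^ (∑ j, ρ (Sum.inl j)) := by
    rw [← zpow_natCast]
    push_cast
    rfl
  have h2 : l ^ (∑ j, (ρ (Sum.inr j) : ℤ)) = l ^ (∑ j, ρ (Sum.inr j)) := by
    rw [← zpow_natCast]
    push_cast
    rfl
  rw [h1, h2, inv_pow]
  have := pow_ne_zero (∑ j, ρ (Sum.inr j)) hl
  field_simp

theorem sum_chi_erase {i₀ i₁ : Fin m} (h01 : i₁ ≠ i₀) {γ : Fin m ⊕ Fin m →₀ ℕ}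
    (hz : γ (Sum.inr i₀) = 0) :
    ∑ j, chi (γ.erase (Sum.inl i₀)) j = chi γ i₁ + ∑ j ∈ rest i₀ i₁, chi γ j := by
  classical
  have hi₀ : i₀ ∉ rest i₀ i₁ := by simp [rest]
  have hi₁ : i₁ ∉ rest i₀ i₁ := by simp [rest]
  have huniv : (Finset.univ : Finset (Fin m)) = insert i₀ (insert i₁ (rest i₀ i₁)) := by
    ext k
    simp only [rest, Finset.mem_univ, Finset.mem_insert, Finset.mem_erase, true_iff]
    tauto
  have hi₀' : i₀ ∉ insert i₁ (rest i₀ i₁) := by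
    simp only [Finset.mem_insert, not_or]
    exact ⟨h01.symm, hi₀⟩
  have h4 : ∀ j, j ≠ i₀ → chi (γ.erase (Sum.inl i₀)) j = chi γ j := by
    intro j hj
    rw [chi, chi, Finsupp.erase_ne (by simpa using hj), Finsupp.erase_ne (by simp)]
  have h5 : chi (γ.erase (Sum.inl i₀)) i₀ = 0 := by
    rw [chi, Finsupp.erase_same, Finsupp.erase_ne (by simp), hz]
    simp
  rw [huniv, Finset.sum_insert hi₀', Finset.sum_insert hi₁, h5, zero_add, h4 i₁ h01]
  congr 1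
  refine Finset.sum_congr rfl fun j hj => h4 j ?_
  simp only [rest, Finset.mem_erase] at hj
  exact hj.2.1

/-- The structure of the slices. -/
theorem slice_eq {κ M : ℕ} {i₀ i₁ : Fin m} (h01 : i₁ ≠ i₀)
    {B : MvPolynomial (Fin m ⊕ Fin m) ℂ} (hB : Good κ i₀ i₁ B) (hκ : κ ≤ 2 * M) {ε : ℂ}
    (hε : ε ≠ 0)
    (hd : ∀ u, (Polynomial.X - Polynomial.C ε) ^ M ∣ num (Sum.inl i₀) u B)
    {ρ : Fin m ⊕ Fin m →₀ ℕ} (hρ : slice (Sum.inl i₀) B ρ ≠ 0) :
    κ = 2 * M ∧ ∃ (a : ℂ) (l : ℕ), slice (Sum.inl i₀) B ρ = Polynomial.C a *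
      Polynomial.X ^ l * (Polynomial.X - Polynomial.C ε) ^ M ∧
        2 * (l : ℤ) + ∑ j, chi ρ j = 3 * M := by
  have h1 : slice (Sum.inl i₀) B ρ ∈
      (Ideal.span {(Polynomial.X - Polynomial.C ε) ^ M}).restrictScalars ℂ :=
    slice_mem _ B _ (fun u => Ideal.mem_span_singleton.mpr (hd u)) ρ
  have h2 := Ideal.mem_span_singleton.mp h1
  obtain ⟨n, hn⟩ := Polynomial.support_nonempty.mpr hρ
  obtain ⟨γ₀, hγ₀, hρ₀, -⟩ := exists_of_mem_slice hn
  have h3 := uni hρ hκ hε h2 (chi γ₀ i₁) (∑ j ∈ rest i₀ i₁, chi γ₀ j) (by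
    intro n hn
    obtain ⟨γ, hγ, hρ', rfl⟩ := exists_of_mem_slice hn
    have h4 := hB.w γ hγ
    have h5 : ∀ j, j ≠ i₀ → chi γ j = chi γ₀ j := by
      intro j hj
      have h6 : γ.erase (Sum.inl i₀) = γ₀.erase (Sum.inl i₀) := by rw [hρ', hρ₀]
      have h7 := DFunLike.congr_fun h6 (Sum.inl j)
      have h8 := DFunLike.congr_fun h6 (Sum.inr j)
      rw [Finsupp.erase_ne (by simpa using hj), Finsupp.erase_ne (by simpa using hj)] at h7
      rw [Finsupp.erase_ne (by simp), Finsupp.erase_ne (by simp)] at h8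
      rw [chi, chi, h7, h8]
    have h9 : ∑ j ∈ rest i₀ i₁, chi γ j = ∑ j ∈ rest i₀ i₁, chi γ₀ j := by
      refine Finset.sum_congr rfl fun j hj => h5 j ?_
      simp only [rest, Finset.mem_erase] at hj
      exact hj.2.1
    rw [WOk, h5 i₁ h01, h9] at h4
    exact h4)
  obtain ⟨h6, a, l, h7, h8⟩ := h3
  refine ⟨h6, a, l, h7, ?_⟩
  rw [← hρ₀, sum_chi_erase h01 (hB.z γ₀ hγ₀)]
  omega

/-- The functional equation of the leading coefficient. -/
theorem scaling {κ M : ℕ} {i₀ i₁ : Fin m} (h01 : i₁ ≠ i₀)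
    {B : MvPolynomial (Fin m ⊕ Fin m) ℂ} (hB : Good κ i₀ i₁ B) (hκ : κ ≤ 2 * M) {ε : ℂ}
    (hε : ε ≠ 0)
    (hd : ∀ u, (Polynomial.X - Polynomial.C ε) ^ M ∣ num (Sum.inl i₀) u B)
    (u : Fin m ⊕ Fin m → ℂ) {l : ℂ} (hl : l ≠ 0) (x : ℂ) :
    (num (Sum.inl i₀) (scl l u) B).eval (l ^ 2 * x) * (x - ε) ^ M =
      l ^ (3 * M) * (l ^ 2 * x - ε) ^ M * (num (Sum.inl i₀) u B).eval x := by
  classical
  rw [num_eq_sum, num_eq_sum, Polynomial.eval_finsetSum, Polynomial.eval_finsetSum,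
    Finset.sum_mul, Finset.mul_sum]
  refine Finset.sum_congr rfl fun ρ _ => ?_
  rw [Polynomial.eval_smul, Polynomial.eval_smul, prod_scl hl]
  by_cases hρ : slice (Sum.inl i₀) B ρ = 0
  · simp [hρ]
  obtain ⟨-, a, k, h1, h2⟩ := slice_eq h01 hB hκ hε hd hρ
  rw [h1]
  simp only [Polynomial.eval_mul, Polynomial.eval_C, Polynomial.eval_pow, Polynomial.eval_X,
    Polynomial.eval_sub, smul_eq_mul, mul_pow]
  have h3 : l ^ (∑ j, chi ρ j) * (l ^ 2) ^ k = l ^ (3 * M) := by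
    rw [← zpow_natCast, ← zpow_natCast, ← zpow_natCast, ← zpow_mul, ← zpow_add₀ hl]
    congr 1
    push_cast
    linarith
  rw [← h3]
  ring

end

end M0n
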