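import Pool.Agent.M0n.Dvd

/-!
# MP_cc45c1_ag: separation of a variable
-/

set_option autoImplicit false

open MvPolynomial

namespace M0n

noncomputable section

variable {m : ℕ}

/-- Separate the variable `v`. -/
def sep (v : Fin m ⊕ Fin m) : MvPolynomial (Fin m ⊕ Fin m) ℂ →ₐ[ℂ]
    Polynomial (MvPolynomial (Fin m ⊕ Fin m) ℂ) :=
  aeval fun w => if w = v then Polynomial.X else Polynomial.C (X w)

/-- Separate the variable `v` and give the other ones the values `u`. -/
def num (v : Fin m ⊕ Fin m) (u : Fin m ⊕ Fin m → ℂ) :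
    MvPolynomial (Fin m ⊕ Fin m) ℂ →ₐ[ℂ] Polynomial ℂ :=
  aeval fun w => if w = v then Polynomial.X else Polynomial.C (u w)

theorem prod_erase_split {R : Type*} [CommMonoid R] (v : Fin m ⊕ Fin m)
    (γ : Fin m ⊕ Fin m →₀ ℕ) (f : Fin m ⊕ Fin m → R) (x : R) :
    ∏ w, (if w = v then x else f w) ^ γ w = x ^ γ v * ∏ w, f w ^ (γ.erase v) w := by
  classical
  rw [← Finset.mul_prod_erase Finset.univ _ (Finset.mem_univ v),
    ← Finset.mul_prod_erase Finset.univ (fun w => f w ^ (γ.erase v) w) (Finset.mem_univ v)]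
  simp only [if_true, Finsupp.erase_same, pow_zero, one_mul]
  congr 1
  refine Finset.prod_congr rfl fun w hw => ?_
  have h1 : w ≠ v := (Finset.mem_erase.mp hw).1
  rw [if_neg h1, Finsupp.erase_ne h1]

theorem sep_monomial (v : Fin m ⊕ Fin m) (γ : Fin m ⊕ Fin m →₀ ℕ) (a : ℂ) :
    sep v (monomial γ a) = Polynomial.monomial (γ v) (monomial (γ.erase v) a) := by
  rw [sep, aeval_monomial, Finsupp.prod_fintype _ _ (fun i => pow_zero _), prod_erase_split]
  rw [← Polynomial.C_mul_X_pow_eq_monomial]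
  have h1 : monomial (γ.erase v) a = C a * ∏ w, X w ^ (γ.erase v) w := by
    rw [monomial_eq, Finsupp.prod_fintype _ _ (fun i => pow_zero _)]
  rw [h1, map_mul, map_prod]
  simp only [map_pow]
  have h2 : algebraMap ℂ (Polynomial (MvPolynomial (Fin m ⊕ Fin m) ℂ)) a =
    Polynomial.C (C a) := rfl
  rw [h2]
  ring

theorem num_monomial (v : Fin m ⊕ Fin m) (u : Fin m ⊕ Fin m → ℂ) (γ : Fin m ⊕ Fin m →₀ ℕ)
    (a : ℂ) : num v u (monomial γ a) =
      Polynomial.monomial (γ v) (a * ∏ w, u w ^ (γ.erase v) w) := by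
  rw [num, aeval_monomial, Finsupp.prod_fintype _ _ (fun i => pow_zero _), prod_erase_split]
  rw [← Polynomial.C_mul_X_pow_eq_monomial, map_mul, map_prod]
  simp only [map_pow]
  have h2 : algebraMap ℂ (Polynomial ℂ) a = Polynomial.C a := rfl
  rw [h2]
  ring

theorem num_eq_map (v : Fin m ⊕ Fin m) (u : Fin m ⊕ Fin m → ℂ)
    (G : MvPolynomial (Fin m ⊕ Fin m) ℂ) : num v u G = (sep v G).map (eval u) := by
  conv_lhs => rw [G.as_sum, map_sum]
  conv_rhs => rw [G.as_sum, map_sum, Polynomial.map_sum]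
  refine Finset.sum_congr rfl fun γ _ => ?_
  rw [num_monomial, sep_monomial, Polynomial.map_monomial, eval_monomial,
    Finsupp.prod_fintype _ _ (fun i => pow_zero _)]

theorem num_coeff (v : Fin m ⊕ Fin m) (u : Fin m ⊕ Fin m → ℂ)
    (G : MvPolynomial (Fin m ⊕ Fin m) ℂ) (n : ℕ) :
    (num v u G).coeff n = eval u ((sep v G).coeff n) := by
  rw [num_eq_map, Polynomial.coeff_map]

open Classical in
theorem num_eval (v : Fin m ⊕ Fin m) (u : Fin m ⊕ Fin m → ℂ)
    (G : MvPolynomial (Fin m ⊕ Fin m) ℂ) (x : ℂ) :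
    (num v u G).eval x = eval (Function.update u v x) G := by
  have h1 : (Polynomial.aeval x).comp (num v u) =
      (aeval (Function.update u v x) : MvPolynomial (Fin m ⊕ Fin m) ℂ →ₐ[ℂ] ℂ) := by
    ext w
    by_cases hw : w = v
    · subst hw
      simp [num]
    · simp [num, hw]
  have h2 := DFunLike.congr_fun h1 G
  simpa using h2

open Classical in
theorem sep_coeff (v : Fin m ⊕ Fin m) (G : MvPolynomial (Fin m ⊕ Fin m) ℂ) (n : ℕ) :
    (sep v G).coeff n =
      ∑ γ ∈ G.support with γ v = n, monomial (γ.erase v) (coeff γ G) := by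
  conv_lhs => rw [G.as_sum, map_sum, Polynomial.finsetSum_coeff]
  rw [Finset.sum_filter]
  refine Finset.sum_congr rfl fun γ _ => ?_
  rw [sep_monomial, Polynomial.coeff_monomial]

theorem erase_inj (v : Fin m ⊕ Fin m) {γ γ' : Fin m ⊕ Fin m →₀ ℕ} (h : γ.erase v = γ'.erase v)
    (h' : γ v = γ' v) : γ = γ' := by
  rw [← Finsupp.single_add_erase v γ, ← Finsupp.single_add_erase v γ', h, h']

theorem coeff_sep (v : Fin m ⊕ Fin m) (G : MvPolynomial (Fin m ⊕ Fin m) ℂ)
    (γ : Fin m ⊕ Fin m →₀ ℕ) :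
    coeff (γ.erase v) ((sep v G).coeff (γ v)) = coeff γ G := by
  classical
  rw [sep_coeff, coeff_sum]
  simp only [coeff_monomial]
  by_cases hγ : γ ∈ G.support
  · rw [Finset.sum_eq_single_of_mem γ (by simpa using hγ)]
    · simp
    · intro γ' h' hne
      rw [if_neg]
      intro h3
      exact hne (erase_inj v h3 (Finset.mem_filter.mp h').2)
  · rw [notMem_support_iff.mp hγ]
    apply Finset.sum_eq_zero
    intro γ' h'
    rw [if_neg]
    intro h3
    obtain ⟨h4, h5⟩ := Finset.mem_filter.mp h'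
    exact hγ (erase_inj v h3 h5 ▸ h4)

theorem exists_of_mem_sep (v : Fin m ⊕ Fin m) (G : MvPolynomial (Fin m ⊕ Fin m) ℂ) (n : ℕ)
    {ρ : Fin m ⊕ Fin m →₀ ℕ} (h : ρ ∈ ((sep v G).coeff n).support) :
    ∃ γ ∈ G.support, γ v = n ∧ ρ = γ.erase v := by
  classical
  rw [sep_coeff] at h
  obtain ⟨γ, hγ, h2⟩ := Finset.mem_biUnion.mp (support_sum h)
  obtain ⟨h3, h4⟩ := Finset.mem_filter.mp hγ
  refine ⟨γ, h3, h4, ?_⟩
  have h5 := support_monomial_subset h2
  exact Finset.mem_singleton.mp h5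

theorem le_natDegree_sep (v : Fin m ⊕ Fin m) {G : MvPolynomial (Fin m ⊕ Fin m) ℂ}
    {γ : Fin m ⊕ Fin m →₀ ℕ} (h : γ ∈ G.support) : γ v ≤ (sep v G).natDegree := by
  apply Polynomial.le_natDegree_of_ne_zero
  intro h0
  have h1 := coeff_sep v G γ
  rw [h0, coeff_zero] at h1
  exact (mem_support_iff.mp h) h1.symm

theorem sep_ne_zero (v : Fin m ⊕ Fin m) {G : MvPolynomial (Fin m ⊕ Fin m) ℂ} (hG : G ≠ 0) :
    sep v G ≠ 0 := by
  intro h
  apply hG
  ext γ
  rw [← coeff_sep v G γ, h]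
  simp

theorem sep_shift (c : ℂ) (i₀ : Fin m) (G : MvPolynomial (Fin m ⊕ Fin m) ℂ) :
    sep (Sum.inr i₀) (shift c G) =
      (sep (Sum.inr i₀) G).map (shift c : MvPolynomial (Fin m ⊕ Fin m) ℂ →ₐ[ℂ] _).toRingHom := by
  have h1 : (sep (Sum.inr i₀)).comp (shift c) =
      (Polynomial.mapAlgHom (shift c)).comp (sep (m := m) (Sum.inr i₀)) := by
    ext1 w
    rcases w with i | i
    · simp [sep, shift]
    · by_cases hi : i = i₀
      · subst hi
        simp [sep, shift]
      · simp [sep, shift, hi]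
  exact DFunLike.congr_fun h1 G

theorem shift_shift (c d : ℂ) (G : MvPolynomial (Fin m ⊕ Fin m) ℂ) :
    shift c (shift d G) = shift (c + d) G := by
  have h1 : (shift c).comp (shift d) =
      (shift (c + d) : MvPolynomial (Fin m ⊕ Fin m) ℂ →ₐ[ℂ] _) := by
    ext1 w
    rcases w with i | i
    · simp [shift, add_assoc]
    · simp [shift]
  exact DFunLike.congr_fun h1 G

theorem shift_zero (G : MvPolynomial (Fin m ⊕ Fin m) ℂ) : shift 0 G = G := by
  have h1 : (shift 0 : MvPolynomial (Fin m ⊕ Fin m) ℂ →ₐ[ℂ] _) =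
      AlgHom.id ℂ (MvPolynomial (Fin m ⊕ Fin m) ℂ) := by
    ext1 w
    rcases w with i | i
    · simp [shift]
    · simp [shift]
  exact DFunLike.congr_fun h1 G

theorem eval_shift (c : ℂ) (G : MvPolynomial (Fin m ⊕ Fin m) ℂ) (u : Fin m ⊕ Fin m → ℂ) :
    eval u (shift c G) = eval (Sum.elim (fun i => u (Sum.inl i) + c) fun i => u (Sum.inr i)) G := by
  have h1 : (aeval u).comp (shift c) =
      (aeval (Sum.elim (fun i => u (Sum.inl i) + c) fun i => u (Sum.inr i)) :
        MvPolynomial (Fin m ⊕ Fin m) ℂ →ₐ[ℂ] ℂ) := by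
    ext w
    rcases w with i | i
    · simp [shift]
    · simp [shift]
  exact DFunLike.congr_fun h1 G

end

end M0n
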