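import Pool.Agent.M0n.Fin

/-!
# MP_cc45c1_ag: the leading coefficient vanishes
-/

set_option autoImplicit false

open MvPolynomial

namespace M0n

noncomputable section

variable {m : ℕ}

/-- The leading coefficient is a multiple of `(x (x - 1)) ^ M`. -/
theorem xindep {κ M : ℕ} {i₀ i₁ : Fin m} (h01 : i₁ ≠ i₀)
    {B : MvPolynomial (Fin m ⊕ Fin m) ℂ} (hB : Good κ i₀ i₁ B)
    (hB' : Good κ i₀ i₁ (shift 1 B)) (hκ : κ ≤ 2 * M) (hM : 2 * M ≤ κ + 1)
    (u : Fin m ⊕ Fin m → ℂ) :
    Polynomial.C (2 ^ M) * num (Sum.inl i₀) u B =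
      Polynomial.C ((num (Sum.inl i₀) u B).eval 2) *
        (Polynomial.X * (Polynomial.X - 1)) ^ M := by
  rw [← sub_eq_zero]
  set D : Polynomial ℂ := Polynomial.C (2 ^ M) * num (Sum.inl i₀) u B -
    Polynomial.C ((num (Sum.inl i₀) u B).eval 2) *
        (Polynomial.X * (Polynomial.X - 1)) ^ M with hD
  let X₁ : Polynomial ℂ := Polynomial.C 2 + Polynomial.C 2 * Polynomial.X - Polynomial.X ^ 2
  have key : D.comp (Polynomial.C 2 - Polynomial.C 2 * Polynomial.X ^ 2) *
      ((X₁ * (X₁ - 1)) ^ M * ((Polynomial.X - Polynomial.C 1) *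
        (Polynomial.X - Polynomial.C (-1)))) = 0 := by
    apply Polynomial.funext
    intro s
    simp only [Polynomial.eval_mul, Polynomial.eval_comp, Polynomial.eval_sub, Polynomial.eval_C,
      Polynomial.eval_X, Polynomial.eval_pow, Polynomial.eval_one, Polynomial.eval_zero, X₁,
      Polynomial.eval_add]
    by_cases hs1 : s = 1
    · simp [hs1]
    by_cases hs2 : s = -1
    · simp [hs2]
    have hs3 : -s ≠ 1 := fun h => hs2 (by rw [← h, neg_neg])
    have e1 := translation h01 hB hB' hκ hM u hs1 2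
    have e2 := translation h01 hB hB' hκ hM (trl s u) hs3 (2 + 2 * s - s ^ 2)
    have h1 : trl (-s) (trl s u) = u := by
      ext w
      rcases w with i | i
      · simp [trl]
      · simp [trl]
    have h2 : (2 : ℂ) + 2 * s - s ^ 2 + 2 * -s - (-s) ^ 2 = 2 - 2 * s ^ 2 := by ring
    rw [h1, h2] at e2
    have h3 : (2 : ℂ) + 2 * 2 - 2 ^ 2 = 2 := by norm_num
    have h4 : (((2 : ℂ) + 2 * s - s ^ 2) * (2 + 2 * s - s ^ 2 - 1)) ^ M *
        D.eval (2 - 2 * s ^ 2) = 0 := by
      rw [hD]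
      simp only [Polynomial.eval_mul, Polynomial.eval_sub, Polynomial.eval_C,
        Polynomial.eval_X, Polynomial.eval_pow, Polynomial.eval_one]
      generalize (num (Sum.inl i₀) (trl s u) B).eval (2 + 2 * s - s ^ 2) = A at *
      generalize (num (Sum.inl i₀) u B).eval (2 - 2 * s ^ 2) = A' at *
      generalize (num (Sum.inl i₀) u B).eval 2 = A'' at *
      have h5 : (2 : ℂ) * (2 - 1) = 2 := by norm_num
      rw [h5] at e1
      linear_combination (2 : ℂ) ^ M * e2 + ((2 - 2 * s ^ 2) * (2 - 2 * s ^ 2 - 1)) ^ M * e1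
    linear_combination ((s - 1) * (s - (-1))) * h4
  have hX1 : X₁ ≠ 0 := by
    intro h
    have := congrArg (Polynomial.eval 0) h
    simp [X₁] at this
  have hX2 : X₁ - 1 ≠ 0 := by
    intro h
    have := congrArg (Polynomial.eval 0) h
    simp [X₁] at this
    norm_num at this
  have h6 : D.comp (Polynomial.C 2 - Polynomial.C 2 * Polynomial.X ^ 2) = 0 := by
    rcases mul_eq_zero.mp key with h | h
    · exact h
    · exact absurd h (mul_ne_zero (pow_ne_zero _ (mul_ne_zero hX1 hX2))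
        (mul_ne_zero (Polynomial.X_sub_C_ne_zero _) (Polynomial.X_sub_C_ne_zero _)))
  apply Polynomial.funext
  intro x
  obtain ⟨s, hs⟩ := IsAlgClosed.exists_pow_nat_eq ((2 - x) / 2) (n := 2) (by norm_num)
  have h7 := congrArg (Polynomial.eval s) h6
  rw [Polynomial.eval_comp] at h7
  simp only [Polynomial.eval_sub, Polynomial.eval_mul, Polynomial.eval_C, Polynomial.eval_pow,
    Polynomial.eval_X, Polynomial.eval_zero] at h7
  have h8 : (2 : ℂ) - 2 * s ^ 2 = x := by
    rw [hs]
    ring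
  rw [h8] at h7
  rw [h7, Polynomial.eval_zero]

/-- The weight of the leading coefficient. -/
theorem weight_eq {κ M : ℕ} {i₀ i₁ : Fin m} (h01 : i₁ ≠ i₀)
    {B : MvPolynomial (Fin m ⊕ Fin m) ℂ} (hB : Good κ i₀ i₁ B)
    (hB' : Good κ i₀ i₁ (shift 1 B)) (hκ : κ ≤ 2 * M) (hM : 2 * M ≤ κ + 1)
    {γ : Fin m ⊕ Fin m →₀ ℕ} (hγ : γ ∈ B.support) :
    ∑ j, chi (γ.erase (Sum.inl i₀)) j = M := by
  have h1 : slice (Sum.inl i₀) B (γ.erase (Sum.inl i₀)) ≠ 0 := by
    intro h
    have h2 := coeff_slice (Sum.inl i₀) B γ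
    rw [h, Polynomial.coeff_zero] at h2
    exact (mem_support_iff.mp hγ) h2.symm
  obtain ⟨h2, a, l, h3, h4⟩ := slice_eq h01 hB hκ one_ne_zero (sub_pow_dvd hB' hM) h1
  have h5 : slice (Sum.inl i₀) B (γ.erase (Sum.inl i₀)) ∈
      Submodule.span ℂ {((Polynomial.X * (Polynomial.X - 1)) ^ M : Polynomial ℂ)} := by
    apply slice_mem
    intro u
    have h6 := xindep h01 hB hB' hκ hM u
    rw [Submodule.mem_span_singleton]
    refine ⟨(2 ^ M)⁻¹ * (num (Sum.inl i₀) u B).eval 2, ?_⟩
    rw [Polynomial.smul_eq_C_mul, map_mul, mul_assoc, ← h6, ← mul_assoc, ← map_mul,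
      inv_mul_cancel₀ (pow_ne_zero _ two_ne_zero), map_one, one_mul]
  obtain ⟨b, h6⟩ := Submodule.mem_span_singleton.mp h5
  have hb : b ≠ 0 := by
    rintro rfl
    exact h1 (by rw [← h6, zero_smul])
  have ha : a ≠ 0 := by
    rintro rfl
    exact h1 (by rw [h3]; simp)
  have h7 := congrArg Polynomial.natDegree h6
  have h8 : (Polynomial.X - 1 : Polynomial ℂ) = Polynomial.X - Polynomial.C 1 := by simp
  rw [h3, Polynomial.natDegree_smul _ hb, h8, mul_pow, Polynomial.natDegree_mul,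
    Polynomial.natDegree_mul, Polynomial.natDegree_mul] at h7
  · simp only [Polynomial.natDegree_pow, Polynomial.natDegree_X,
      Polynomial.natDegree_X_sub_C, Polynomial.natDegree_C, mul_one] at h7
    omega
  · exact Polynomial.C_ne_zero.mpr ha
  · exact pow_ne_zero _ Polynomial.X_ne_zero
  · exact mul_ne_zero (Polynomial.C_ne_zero.mpr ha) (pow_ne_zero _ Polynomial.X_ne_zero)
  · exact pow_ne_zero _ (Polynomial.X_sub_C_ne_zero _)
  · exact pow_ne_zero _ Polynomial.X_ne_zero
  · exact pow_ne_zero _ (Polynomial.X_sub_C_ne_zero _)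

/-- The sum of the weights other than `i₀`. -/
def wt (i₀ : Fin m) (χ : Fin m → ℤ) : ℤ := ∑ j ∈ Finset.univ.erase i₀, χ j

/-- The leading coefficient vanishes on the hypersurface `∑ t_j p_j = 0`. -/
theorem vanish {G : MvPolynomial (Fin m ⊕ Fin m) ℂ} (h : DvdProp G) {i₀ i₁ : Fin m}
    (h01 : i₁ ≠ i₀) (n : ℕ)
    (hw : ∀ γ ∈ ((sep (Sum.inr i₀) G).coeff n).support, 0 < wt i₀ (chi γ))
    {u : Fin m ⊕ Fin m → ℂ} (hu : ∀ j, u (Sum.inl j) ≠ 0)
    (hu' : ∑ j ∈ Finset.univ.erase i₀, u (Sum.inl j) * u (Sum.inr j) = 0) :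
    eval u ((sep (Sum.inr i₀) G).coeff n) = 0 := by
  classical
  let G₁ : MvPolynomial (Fin m ⊕ Fin m) ℂ :=
    ∑ γ ∈ G.support with 0 < wt i₀ (chi γ), monomial γ (coeff γ G)
  let G₂ : MvPolynomial (Fin m ⊕ Fin m) ℂ :=
    ∑ γ ∈ G.support with ¬ 0 < wt i₀ (chi γ), monomial γ (coeff γ G)
  have hG : G = G₁ + G₂ := by
    conv_lhs => rw [G.as_sum]
    exact (Finset.sum_filter_add_sum_filter_not _ _ _).symm
  have hc₁ : ∀ γ, coeff γ G₁ = if 0 < wt i₀ (chi γ) then coeff γ G else 0 := by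
    intro γ
    simp only [G₁, coeff_sum, coeff_monomial]
    rw [Finset.sum_ite_eq']
    by_cases h1 : 0 < wt i₀ (chi γ)
    · by_cases h2 : γ ∈ G.support
      · simp [h1, h2]
      · simp [h1, notMem_support_iff.mp h2]
    · simp [h1]
  have hc₂ : ∀ γ, coeff γ G₂ = if 0 < wt i₀ (chi γ) then 0 else coeff γ G := by
    intro γ
    have h1 : coeff γ G = coeff γ G₁ + coeff γ G₂ := by
      conv_lhs => rw [hG, coeff_add]
    rw [hc₁] at h1
    split_ifs at h1 ⊢ with h2
    · linear_combination -h1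
    · linear_combination -h1
  -- `G₂` does not contribute
  have h2 : (sep (Sum.inr i₀) G₂).coeff n = 0 := by
    ext ρ
    rw [coeff_zero]
    by_contra hρ
    obtain ⟨γ, h3, h4, rfl⟩ := exists_of_mem_sep _ _ _ (mem_support_iff.mpr hρ)
    rw [mem_support_iff, hc₂] at h3
    split_ifs at h3 with h5
    · exact h3 rfl
    have h6 : γ.erase (Sum.inr i₀) ∈ ((sep (Sum.inr i₀) G).coeff n).support := by
      rw [mem_support_iff, ← h4, coeff_sep]
      exact h3
    have h7 := hw _ h6
    have h8 : wt i₀ (chi (γ.erase (Sum.inr i₀))) = wt i₀ (chi γ) := by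
      refine Finset.sum_congr rfl fun j hj => ?_
      have hj' : j ≠ i₀ := (Finset.mem_erase.mp hj).1
      rw [chi, chi, Finsupp.erase_ne (by simp), Finsupp.erase_ne (by simpa using hj')]
    exact h5 (h8 ▸ h7)
  -- `G₁` vanishes
  have h3 : num (Sum.inr i₀) u G₁ = 0 := by
    apply Polynomial.funext
    intro Y
    rw [num_eval, Polynomial.eval_zero]
    set u' := Function.update u (Sum.inr i₀) Y with hu'2
    have hui : ∀ j, u' (Sum.inl j) = u (Sum.inl j) := fun j => by simp [u']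
    let y : Fin m → ℂ := fun k => u' (Sum.inl k) * u' (Sum.inr k)
    have h4 : u' = Sum.elim (fun k => u (Sum.inl k)) (fun k => y k / u (Sum.inl k)) := by
      ext w
      rcases w with k | k
      · exact hui k
      · simp only [Sum.elim_inr, y]
        rw [hui]
        have := hu k
        field_simp
    have h5 := expand (L := ℂ) G₁ (fun k => u (Sum.inl k)) y hu
    rw [← h4] at h5
    have h6 : eval u' G₁ = aeval u' G₁ := by
      rw [← coe_aeval_eq_eval]
      rfl
    rw [h6, h5]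
    apply Finset.sum_eq_zero
    intro χ hχ
    obtain ⟨γ, h7, rfl⟩ := Finset.mem_image.mp hχ
    have h8 : 0 < wt i₀ (chi γ) := by
      rw [mem_support_iff, hc₁] at h7
      by_contra hn
      exact h7 (if_neg hn)
    have h9 : gchi G₁ (chi γ) = gchi G (chi γ) := by
      rw [gchi, gchi]
      have h10 : (G₁.support.filter fun γ' => chi γ' = chi γ) =
          G.support.filter fun γ' => chi γ' = chi γ := by
        ext γ'
        simp only [Finset.mem_filter, mem_support_iff, and_congr_left_iff]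
        intro h11
        rw [hc₁, h11, if_pos h8]
      rw [h10]
      refine Finset.sum_congr rfl fun γ' h12 => ?_
      have h13 := (Finset.mem_filter.mp h12).2
      rw [hc₁, h13, if_pos h8]
    have h14 : i₁ ∈ Finset.univ.erase i₀ := by simp [h01]
    have h15 := h (Finset.univ.erase i₀) i₁ h14 (-1) (Or.inr rfl) y (chi γ)
    have h16 : (Polynomial.X - Polynomial.C (-∑ i ∈ (Finset.univ.erase i₀).erase i₁, y i)) ∣
        ghat (gchi G (chi γ)) i₁ y := by
      refine dvd_trans (dvd_pow_self _ ?_) h15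
      have : 0 < ∑ i ∈ Finset.univ.erase i₀, chi γ i := h8
      omega
    have h17 : y i₁ = -∑ i ∈ (Finset.univ.erase i₀).erase i₁, y i := by
      have h18 : ∑ i ∈ Finset.univ.erase i₀, y i = 0 := by
        rw [← hu']
        refine Finset.sum_congr rfl fun j hj => ?_
        have hj' : j ≠ i₀ := (Finset.mem_erase.mp hj).1
        simp [y, u', hj']
      rw [← Finset.add_sum_erase _ _ h14] at h18
      linear_combination h18
    rw [← h17, Polynomial.dvd_iff_isRoot, Polynomial.IsRoot.def, eval_ghat] at h16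
    rw [h9]
    have h19 : aeval y (gchi G (chi γ)) = eval y (gchi G (chi γ)) := by
      rw [← coe_aeval_eq_eval]
      rfl
    rw [h19, h16, mul_zero]
  have h4 : (num (Sum.inr i₀) u G).coeff n = 0 := by
    rw [hG, map_add, h3, zero_add, num_coeff, h2, map_zero]
  rwa [num_coeff] at h4

end

end M0n
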